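import Pool.Agent.J6H47.TP.Deg

/-!
# Elements which fix long paths

The elements which fix a path of length six around a vertex of affine type are determined by a root of
unity.
-/

set_option autoImplicit false

namespace Pool.Agent.J6H47.TP

open Polynomial

section cmp

variable {R : Type} [CommRing R] [IsDomain R]

/-- the triangular affine map on the constant points -/
def Bp (h : Equiv.Perm (R[X] × R[X])) (α β q δ c : R) : Prop :=
  α ≠ 0 ∧ δ ≠ 0 ∧ ∀ x y : R, h (C x, C y) = (C (α * x + β * y + q), C (δ * y + c))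

omit [IsDomain R] in
theorem C_pair {a b c d : R} (h : ((C a, C b) : R[X] × R[X]) = (C c, C d)) : a = c ∧ b = d :=
  ⟨C_injective (congrArg Prod.fst h), C_injective (congrArg Prod.snd h)⟩

/-- conjugation by an affine map -/
theorem conj_aff {h h2 w : Equiv.Perm (R[X] × R[X])} {α β q δ c α2 β2 q2 δ2 c2 : R}
    (hh : Bp h α β q δ c) (hh2 : Bp h2 α2 β2 q2 δ2 c2) {s r u t z v : R} (ht : t ≠ 0)
    (hdet : s * z - r * t ≠ 0)
    (hw : ∀ x y : R, w (C x, C y) = (C (s * x + r * y + u), C (t * x + z * y + v)))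
    (hc : h * w = w * h2) :
    α2 = δ ∧ δ2 = α ∧ β * t = (δ - α) * s ∧ α * u + β * v + q = s * q2 + r * c2 + u ∧
      δ * v + c = t * q2 + z * c2 + v := by
  have key : ∀ x y : R, α * (s * x + r * y + u) + β * (t * x + z * y + v) + q =
      s * (α2 * x + β2 * y + q2) + r * (δ2 * y + c2) + u ∧
      δ * (t * x + z * y + v) + c = t * (α2 * x + β2 * y + q2) + z * (δ2 * y + c2) + v := by
    intro x y
    have h1 := congrArg (fun k : Equiv.Perm (R[X] × R[X]) => k (C x, C y)) hc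
    simp only [Equiv.Perm.mul_apply] at h1
    rw [hw, hh.2.2, hh2.2.2, hw] at h1
    exact C_pair h1
  have k00 := key 0 0
  have k10 := key 1 0
  have k01 := key 0 1
  simp only [mul_zero, mul_one, add_zero, zero_add] at k00 k10 k01
  have e1 : t * (δ - α2) = 0 := by linear_combination k10.2 - k00.2
  have e2 : α2 = δ := by
    rcases mul_eq_zero.1 e1 with h | h
    · exact absurd h ht
    · exact (sub_eq_zero.1 h).symm
  subst e2
  have e3 : β * t = (α2 - α) * s := by linear_combination k10.1 - k00.1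
  have e4 : (s * z - r * t) * (δ2 - α) = 0 := by
    linear_combination t * (k01.1 - k00.1) - s * (k01.2 - k00.2) - z * e3
  have e5 : δ2 = α := by
    rcases mul_eq_zero.1 e4 with h | h
    · exact absurd h hdet
    · exact sub_eq_zero.1 h
  exact ⟨rfl, e5, e3, k00.1, k00.2⟩

/-- a polynomial function of degree at least two does not have constant increments -/
theorem period [CharZero R] {p : R[X]} (hp : 2 ≤ p.natDegree) {c k : R}
    (h : ∀ y : R, p.eval (y + c) = p.eval y + k) : c = 0 := by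
  by_contra hc
  have h1 : ∀ n : ℕ, p.eval ((n : R) * c) = p.eval 0 + n * k := by
    intro n
    induction n with
    | zero => simp
    | succ n ih =>
      have h2 : ((n + 1 : ℕ) : R) * c = n * c + c := by push_cast; ring
      rw [h2, h, ih]
      push_cast
      ring
  have h2 : C c * p - C c * C (p.eval 0) - C k * X = 0 := by
    refine eq_zero_of_infinite_isRoot _ ?_
    have h3 : Set.range (fun n : ℕ => (n : R) * c) ⊆
        {x | (C c * p - C c * C (p.eval 0) - C k * X).IsRoot x} := by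
      rintro _ ⟨n, rfl⟩
      simp only [Set.mem_ofPred_eq, IsRoot.def, eval_sub, eval_mul, eval_C, eval_X]
      rw [h1]
      ring
    refine Set.Infinite.mono h3 (Set.infinite_range_of_injective ?_)
    intro m n hmn
    exact Nat.cast_injective (mul_right_cancel₀ hc hmn)
  have h3 : C c * p = C k * X + C (c * p.eval 0) := by
    rw [C_mul]
    linear_combination h2
  have h4 : (C c * p).natDegree = p.natDegree := natDegree_C_mul hc
  have h5 : (C k * X + C (c * p.eval 0)).natDegree ≤ 1 := natDegree_linear_le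
  rw [← h3, h4] at h5
  omega

/-- conjugation by a triangular map -/
theorem conj_tri [CharZero R] {h h1 e : Equiv.Perm (R[X] × R[X])}
    {α β q δ c α1 β1 q1 δ1 c1 : R} (hh : Bp h α β q δ c) (hh1 : Bp h1 α1 β1 q1 δ1 c1)
    {e1 e2 r : R} {p : R[X]} (he1 : e1 ≠ 0) (he2 : e2 ≠ 0) (hp : 2 ≤ p.natDegree)
    (he : ∀ x y : R, e (C x, C y) = (C (e1 * x + p.eval y), C (e2 * y + r)))
    (hc : h * e = e * h1) :
    α1 = α ∧ δ1 = δ ∧ α = δ ^ p.natDegree ∧ (β = 0 → β1 = 0 → δ = 1 → c = 0) := by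
  have key : ∀ x y : R, α * (e1 * x + p.eval y) + β * (e2 * y + r) + q =
      e1 * (α1 * x + β1 * y + q1) + p.eval (δ1 * y + c1) ∧
      δ * (e2 * y + r) + c = e2 * (δ1 * y + c1) + r := by
    intro x y
    have h1 := congrArg (fun k : Equiv.Perm (R[X] × R[X]) => k (C x, C y)) hc
    simp only [Equiv.Perm.mul_apply] at h1
    rw [he, hh.2.2, hh1.2.2, he] at h1
    exact C_pair h1
  have k00 := key 0 0
  have k10 := key 1 0
  have k01 := key 0 1
  simp only [mul_zero, mul_one, add_zero, zero_add] at k00 k10 k01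
  have f1 : e1 * (α1 - α) = 0 := by linear_combination k00.1 - k10.1
  have f2 : α1 = α := by
    rcases mul_eq_zero.1 f1 with h | h
    · exact absurd h he1
    · exact sub_eq_zero.1 h
  have f3 : e2 * (δ1 - δ) = 0 := by linear_combination k00.2 - k01.2
  have f4 : δ1 = δ := by
    rcases mul_eq_zero.1 f3 with h | h
    · exact absurd h he2
    · exact sub_eq_zero.1 h
  subst f2 f4
  have hδ : δ1 ≠ 0 := hh.2.1
  have f5 : C α1 * p + C β * (C e2 * X + C r) + C q =
      C e1 * (C β1 * X + C q1) + p.comp (C δ1 * X + C c1) := by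
    refine Polynomial.funext fun y => ?_
    have h1 := (key 0 y).1
    simp only [mul_zero, zero_add] at h1
    simp only [eval_add, eval_mul, eval_C, eval_X, eval_comp]
    exact h1
  have hdeg : (C δ1 * X + C c1).natDegree = 1 := natDegree_linear hδ
  have f6 : (p.comp (C δ1 * X + C c1)).coeff p.natDegree = p.leadingCoeff * δ1 ^ p.natDegree := by
    have h1 := coeff_comp_degree_mul_degree (p := p) (q := C δ1 * X + C c1) (by
      rw [hdeg]; exact one_ne_zero)
    rw [hdeg, mul_one, leadingCoeff_linear hδ] at h1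
    exact h1
  have hcoef : ∀ a b : R, (C a * X + C b).coeff p.natDegree = 0 := by
    intro a b
    refine coeff_eq_zero_of_natDegree_lt (natDegree_linear_le.trans_lt (by omega))
  have f7 := congrArg (fun k => k.coeff p.natDegree) f5
  simp only [coeff_add, coeff_C_mul, f6, hcoef, coeff_C] at f7
  rw [if_neg (by omega)] at f7
  have hp0 : p.leadingCoeff ≠ 0 := by
    rw [Ne, leadingCoeff_eq_zero]
    rintro rfl
    simp at hp
  have f8 : p.leadingCoeff * (α1 - δ1 ^ p.natDegree) = 0 := by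
    unfold leadingCoeff at f7 ⊢
    linear_combination f7
  have f9 : α1 = δ1 ^ p.natDegree := by
    rcases mul_eq_zero.1 f8 with h | h
    · exact absurd h hp0
    · exact sub_eq_zero.1 h
  refine ⟨rfl, rfl, f9, fun hβ hβ1 hδ1 => ?_⟩
  subst hβ hβ1 hδ1
  rw [one_pow] at f9
  subst f9
  have g1 : c1 = 0 := by
    refine period hp (k := q - e1 * q1) fun y => ?_
    have h1 := (key 0 y).1
    simp only [one_mul] at h1
    linear_combination -h1
  subst g1
  linear_combination k00.2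

end cmp

section fix

variable {R : Type} [CommRing R] [IsDomain R] {S : Subring R}

omit [IsDomain R] in
theorem both_of {h : Equiv.Perm (R[X] × R[X])} (hA : h ∈ AffP S R[X]) (hE : h ∈ TriP S R[X]) :
    ∃ α β q δ c : S, IsUnit α ∧ IsUnit δ ∧ ∀ F, h F = (C (α : R) * F.1 + C (β : R) * F.2 +
      C (q : R), C (δ : R) * F.2 + C (c : R)) := by
  obtain ⟨a, b, u, c, d, v, hu, hg⟩ := hA
  have hc : c = 0 := (tri_iff hu hg).1 hE
  subst hc
  rw [mul_zero, sub_zero] at hu
  refine ⟨a, b, u, d, v, isUnit_of_mul_isUnit_left hu, isUnit_of_mul_isUnit_right hu, fun F => ?_⟩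
  rw [hg, afm_eq]
  simp

theorem bp_of {h : Equiv.Perm (R[X] × R[X])} {α β q δ c : S} (hα : IsUnit α) (hδ : IsUnit δ)
    (hF : ∀ F, h F = (C (α : R) * F.1 + C (β : R) * F.2 + C (q : R),
      C (δ : R) * F.2 + C (c : R))) : Bp h (α : R) β q δ c := by
  refine ⟨(coe_unit hα).ne_zero, (coe_unit hδ).ne_zero, fun x y => ?_⟩
  rw [hF]
  simp only [C_add, C_mul]

theorem aff_of {w : Equiv.Perm (R[X] × R[X])} (hA : w ∈ AffP S R[X]) (hE : w ∉ TriP S R[X]) :
    ∃ s r u t z v : R, t ≠ 0 ∧ s * z - r * t ≠ 0 ∧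
      ∀ x y : R, w (C x, C y) = (C (s * x + r * y + u), C (t * x + z * y + v)) := by
  obtain ⟨a, b, u, c, d, v, hu, hg⟩ := hA
  refine ⟨a, b, u, c, d, v, ?_, ?_, fun x y => ?_⟩
  · intro h
    exact hE ((tri_iff hu hg).2 (Subtype.ext h))
  · have h1 := (coe_unit hu).ne_zero
    push_cast at h1
    exact h1
  · rw [hg, afm_eq]
    simp only [C_add, C_mul]

theorem tri_of {e : Equiv.Perm (R[X] × R[X])} (hE : e ∈ TriP S R[X]) (hA : e ∉ AffP S R[X]) :
    ∃ (e1 e2 r : R) (p : R[X]), e1 ≠ 0 ∧ e2 ≠ 0 ∧ 2 ≤ p.natDegree ∧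
      ∀ x y : R, e (C x, C y) = (C (e1 * x + p.eval y), C (e2 * y + r)) := by
  obtain ⟨a, b, c, p, ha, hb, hg⟩ := hE
  refine ⟨a, b, c, p.map S.subtype, (coe_unit ha).ne_zero, (coe_unit hb).ne_zero, ?_,
    fun x y => ?_⟩
  · rw [natDegree_sub]
    by_contra h
    exact hA (aff_of_natDegree ha hb hg (by omega))
  · rw [hg, trm_eq]
    simp only [C_add, C_mul, comp_C]

/-- `h` fixes the path `A, E, e A, e a E` -/
def Side (S : Subring R) (h e a : Equiv.Perm (R[X] × R[X])) : Prop :=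
  h ∈ AffP S R[X] ∧ h ∈ TriP S R[X] ∧ e ∈ TriP S R[X] ∧ e ∉ AffP S R[X] ∧ a ∈ AffP S R[X] ∧
    a ∉ TriP S R[X] ∧ e⁻¹ * h * e ∈ AffP S R[X] ∧ (e * a)⁻¹ * h * (e * a) ∈ TriP S R[X]

theorem side_eq [CharZero R] {h e a : Equiv.Perm (R[X] × R[X])} (hs : Side S h e a)
    {α β q δ c : R} (hh : Bp h α β q δ c) :
    ∃ d : ℕ, 2 ≤ d ∧ α = δ ^ d ∧ (β = 0 → δ = 1 → c = 0) := by
  obtain ⟨hA, hE, h1, h2, h3, h4, h5, h6⟩ := hs
  have h7 : e⁻¹ * h * e ∈ TriP S R[X] := (TriP S R[X]).mul_mem ((TriP S R[X]).mul_mem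
    ((TriP S R[X]).inv_mem h1) hE) h1
  have h8 : (e * a)⁻¹ * h * (e * a) = a⁻¹ * (e⁻¹ * h * e) * a := by group
  rw [h8] at h6
  have h9 : a⁻¹ * (e⁻¹ * h * e) * a ∈ AffP S R[X] := (AffP S R[X]).mul_mem
    ((AffP S R[X]).mul_mem ((AffP S R[X]).inv_mem h3) h5) h3
  obtain ⟨α1, β1, q1, δ1, c1, i1, i2, i3⟩ := both_of h5 h7
  obtain ⟨α2, β2, q2, δ2, c2, j1, j2, j3⟩ := both_of h9 h6
  obtain ⟨e1, e2, r, p, k1, k2, k3, k4⟩ := tri_of h1 h2
  obtain ⟨s, r', u, t, z, v, l1, l2, l3⟩ := aff_of h3 h4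
  obtain ⟨m1, m2, m3, m4⟩ := conj_tri hh (bp_of i1 i2 i3) k1 k2 k3 k4 (by group)
  obtain ⟨_, _, n3, _, _⟩ := conj_aff (bp_of i1 i2 i3) (bp_of j1 j2 j3) l1 l2 l3 (by group)
  refine ⟨p.natDegree, k3, m3, fun hβ hδ => m4 hβ ?_ hδ⟩
  rw [m1, m2, m3, hδ, one_pow, sub_self, zero_mul] at n3
  rcases mul_eq_zero.1 n3 with h | h
  · exact h
  · exact absurd h l1

/-- the second diagonal coefficient of a triangular affine map -/
noncomputable def dl (h : Equiv.Perm (R[X] × R[X])) : R :=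
  ((h (C 0, C 1)).2 - (h (C 0, C 0)).2).coeff 0

omit [IsDomain R] in
theorem dl_eq {h : Equiv.Perm (R[X] × R[X])} {α β q δ c : R} (hh : Bp h α β q δ c) :
    dl h = δ := by
  unfold dl
  rw [hh.2.2, hh.2.2]
  simp

/-- **Elements which fix a long path.** -/
theorem fix_path [CharZero R] {h w e a e' a' : Equiv.Perm (R[X] × R[X])}
    (hw : w ∈ AffP S R[X]) (hw' : w ∉ TriP S R[X]) (hs : Side S h e a)
    (hs' : Side S (w⁻¹ * h * w) e' a') :
    dl h ∈ S ∧ (∃ N : ℕ, 0 < N ∧ dl h ^ N = 1) ∧ (dl h = 1 → h = 1) := by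
  obtain ⟨α, β, q, δ, c, i1, i2, i3⟩ := both_of hs.1 hs.2.1
  obtain ⟨α2, β2, q2, δ2, c2, j1, j2, j3⟩ := both_of hs'.1 hs'.2.1
  have hb := bp_of i1 i2 i3
  have hb2 := bp_of j1 j2 j3
  obtain ⟨s, r, u, t, z, v, l1, l2, l3⟩ := aff_of hw hw'
  obtain ⟨n1, n2, n3, n4, n5⟩ := conj_aff hb hb2 l1 l2 l3 (by group)
  obtain ⟨d, hd, m1, m2⟩ := side_eq hs hb
  obtain ⟨d', hd', m1', m2'⟩ := side_eq hs' hb2
  rw [dl_eq hb]
  have hδ : (δ : R) ≠ 0 := hb.2.1
  refine ⟨δ.2, ⟨d * d' - 1, ?_, ?_⟩, fun h1 => ?_⟩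
  · have : 2 * 2 ≤ d * d' := Nat.mul_le_mul hd hd'
    omega
  · have h1 : (δ : R) = δ ^ (d * d') := by
      calc (δ : R) = α2 := n1.symm
        _ = δ2 ^ d' := m1'
        _ = α ^ d' := by rw [n2]
        _ = (δ ^ d) ^ d' := by rw [m1]
        _ = δ ^ (d * d') := (pow_mul _ _ _).symm
    have h2 : (δ : R) ^ (d * d' - 1) * δ = 1 * δ := by
      rw [← pow_succ, one_mul, Nat.sub_add_cancel (by have := Nat.mul_le_mul hd hd'; omega), ← h1]
    exact mul_right_cancel₀ hδ h2
  · obtain ⟨s', r', u', t', z', v', l1', l2', l3'⟩ := aff_of (w := w⁻¹)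
      ((AffP S R[X]).inv_mem hw) (fun h => hw' ((TriP S R[X]).inv_mem_iff.1 h))
    obtain ⟨_, _, p3, _, _⟩ := conj_aff hb2 hb l1' l2' l3' (by group)
    have e1 : (α : R) = 1 := by rw [m1, h1, one_pow]
    have e2 : (δ2 : R) = 1 := n2.trans e1
    have e3 : (α2 : R) = 1 := n1.trans h1
    have e4 : (β : R) = 0 := by
      rw [h1, e1, sub_self, zero_mul] at n3
      exact (mul_eq_zero.1 n3).resolve_right l1
    have e5 : (β2 : R) = 0 := by
      rw [e2, e3, sub_self, zero_mul] at p3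
      exact (mul_eq_zero.1 p3).resolve_right l1'
    have e6 := m2 e4 h1
    have e7 := m2' e5 e2
    have e8 : (q2 : R) = 0 := by
      rw [h1, e6, e7] at n5
      have h2 : t * (q2 : R) = 0 := by linear_combination -n5
      exact (mul_eq_zero.1 h2).resolve_left l1
    have e9 : (q : R) = 0 := by
      rw [e1, e4, e7, e8] at n4
      linear_combination n4
    refine Equiv.ext fun F => ?_
    rw [i3, e1, e4, e9, h1, e6]
    simp

end fix

end Pool.Agent.J6H47.TP
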