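import Mathlib

/-!
# The coset graph of two subgroups

`G` is generated by its subgroups `A` and `E`. If no alternating product of elements of `E ∖ A` and
`A ∖ E` lies in `A ∩ E` or is of both kinds, then the coset graph is a tree.
-/

set_option autoImplicit false

namespace Pool.Agent.J6H47.TP

open SimpleGraph

section words

variable {G : Type} [Group G]

/-- alternating products which start with an element of `E ∖ A` -/
inductive Wd : Subgroup G → Subgroup G → G → Prop
  | one {A E : Subgroup G} {g : G} : g ∈ E → g ∉ A → Wd A E g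
  | cons {A E : Subgroup G} {g h : G} : g ∈ E → g ∉ A → Wd E A h → Wd A E (g * h)

variable {A E : Subgroup G}

theorem notMem_left {b g : G} (hb : b ∈ A) (h : g ∉ A) : b * g ∉ A := fun h1 =>
  h ((A.mul_mem_cancel_left hb).1 h1)

theorem notMem_right {b g : G} (hb : b ∈ A) (h : g ∉ A) : g * b ∉ A := fun h1 =>
  h ((A.mul_mem_cancel_right hb).1 h1)

theorem Wd.b_mul {b g : G} (hA : b ∈ A) (hE : b ∈ E) (h : Wd A E g) : Wd A E (b * g) := by
  cases h with
  | one h1 h2 => exact Wd.one (E.mul_mem hE h1) (notMem_left hA h2)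
  | cons h1 h2 h3 =>
    rw [← mul_assoc]
    exact Wd.cons (E.mul_mem hE h1) (notMem_left hA h2) h3

theorem Wd.right {g : G} (h : Wd A E g) : (∀ a ∈ A, Wd A E (g * a)) ∧
    (∀ e ∈ E, Wd A E (g * e) ∨ (g * e ∈ A ∧ g * e ∈ E)) := by
  induction h with
  | @one A E g h1 h2 =>
    constructor
    · intro a ha
      by_cases h : a ∈ E
      · exact Wd.one (E.mul_mem h1 h) (notMem_right ha h2)
      · exact Wd.cons h1 h2 (Wd.one ha h)
    · intro e he
      by_cases h : g * e ∈ A
      · exact Or.inr ⟨h, E.mul_mem h1 he⟩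
      · exact Or.inl (Wd.one (E.mul_mem h1 he) h)
  | @cons A E g h h1 h2 h3 ih =>
    constructor
    · intro a ha
      rw [mul_assoc]
      rcases ih.2 a ha with h4 | ⟨h4, h5⟩
      · exact Wd.cons h1 h2 h4
      · exact Wd.one (E.mul_mem h1 h4) (notMem_right h5 h2)
    · intro e he
      left
      rw [mul_assoc]
      exact Wd.cons h1 h2 (ih.1 e he)

theorem Wd.left {a g : G} (ha : a ∈ A) (h : Wd A E g ∨ Wd E A g ∨ (g ∈ A ∧ g ∈ E)) :
    Wd A E (a * g) ∨ Wd E A (a * g) ∨ (a * g ∈ A ∧ a * g ∈ E) := by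
  by_cases haE : a ∈ E
  · rcases h with h | h | ⟨h1, h2⟩
    · exact Or.inl (h.b_mul ha haE)
    · exact Or.inr (Or.inl (h.b_mul haE ha))
    · exact Or.inr (Or.inr ⟨A.mul_mem ha h1, E.mul_mem haE h2⟩)
  · rcases h with h | h | ⟨h1, h2⟩
    · exact Or.inr (Or.inl (Wd.cons ha haE h))
    · cases h with
      | one h1 h2 =>
        by_cases h3 : a * g ∈ E
        · exact Or.inr (Or.inr ⟨A.mul_mem ha h1, h3⟩)
        · exact Or.inr (Or.inl (Wd.one (A.mul_mem ha h1) h3))
      | @cons _ _ g h h1 h2 h3 =>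
        rw [← mul_assoc]
        by_cases h4 : a * g ∈ E
        · exact Or.inl (h3.b_mul (A.mul_mem ha h1) h4)
        · exact Or.inr (Or.inl (Wd.cons (A.mul_mem ha h1) h4 h3))
    · exact Or.inr (Or.inl (Wd.one (A.mul_mem ha h1) (notMem_right h2 haE)))

theorem Wd.total (hsup : A ⊔ E = ⊤) (g : G) : Wd A E g ∨ Wd E A g ∨ (g ∈ A ∧ g ∈ E) := by
  have hg : g ∈ Subgroup.closure ((A : Set G) ∪ E) := by
    rw [← Subgroup.sup_eq_closure, hsup]
    trivial
  induction hg using Subgroup.closure_induction_left with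
  | one => exact Or.inr (Or.inr ⟨A.one_mem, E.one_mem⟩)
  | mul_left x hx y _ ih =>
    rcases hx with hx | hx
    · exact Wd.left hx ih
    · have h1 := Wd.left (A := E) (E := A) hx (g := y) (by tauto)
      tauto
  | inv_mul_cancel x hx y _ ih =>
    rcases hx with hx | hx
    · exact Wd.left (A.inv_mem hx) ih
    · have h1 := Wd.left (A := E) (E := A) (E.inv_mem hx) (g := y) (by tauto)
      tauto

end words

section graph

variable {G : Type} [Group G] (A E : Subgroup G)

/-- the vertices of the coset graph -/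
abbrev CV : Type := (G ⧸ A) ⊕ (G ⧸ E)

/-- the vertex `g A` -/
def va (g : G) : CV A E := Sum.inl (QuotientGroup.mk g)

/-- the vertex `g E` -/
def ve (g : G) : CV A E := Sum.inr (QuotientGroup.mk g)

variable {A E}

theorem smul_va (g x : G) : g • va A E x = va A E (g * x) := rfl

theorem smul_ve (g x : G) : g • ve A E x = ve A E (g * x) := rfl

theorem va_eq {x y : G} : va A E x = va A E y ↔ x⁻¹ * y ∈ A := by
  unfold va
  rw [Sum.inl.injEq, QuotientGroup.eq]

theorem ve_eq {x y : G} : ve A E x = ve A E y ↔ x⁻¹ * y ∈ E := by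
  unfold ve
  rw [Sum.inr.injEq, QuotientGroup.eq]

theorem va_ne_ve (x y : G) : va A E x ≠ ve A E y := by
  unfold va ve
  exact Sum.inl_ne_inr

theorem cases_cv (v : CV A E) : (∃ x, v = va A E x) ∨ (∃ x, v = ve A E x) := by
  rcases v with v | v
  · obtain ⟨x, rfl⟩ := QuotientGroup.mk_surjective v
    exact Or.inl ⟨x, rfl⟩
  · obtain ⟨x, rfl⟩ := QuotientGroup.mk_surjective v
    exact Or.inr ⟨x, rfl⟩

variable (A E) in
/-- the coset graph -/
def CG : SimpleGraph (CV A E) where
  Adj x y := ∃ g : G, (x = va A E g ∧ y = ve A E g) ∨ (y = va A E g ∧ x = ve A E g)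
  symm := ⟨by
    rintro x y ⟨g, h⟩
    exact ⟨g, h.symm⟩⟩
  loopless := ⟨by
    rintro x ⟨g, ⟨h1, h2⟩ | ⟨h1, h2⟩⟩
    · exact va_ne_ve g g (h1.symm.trans h2)
    · exact va_ne_ve g g (h1.symm.trans h2)⟩

theorem adj_ae (g : G) : (CG A E).Adj (va A E g) (ve A E g) := ⟨g, Or.inl ⟨rfl, rfl⟩⟩

theorem adj_smul (g : G) (u v : CV A E) (h : (CG A E).Adj u v) : (CG A E).Adj (g • u) (g • v) := by
  obtain ⟨x, ⟨rfl, rfl⟩ | ⟨rfl, rfl⟩⟩ := h
  · exact ⟨g * x, Or.inl ⟨rfl, rfl⟩⟩
  · exact ⟨g * x, Or.inr ⟨rfl, rfl⟩⟩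

/-- translation as a homomorphism of graphs -/
def trH (g : G) : CG A E →g CG A E where
  toFun v := g • v
  map_rel' := fun h => adj_smul g _ _ h

theorem reach_smul (g : G) {u v : CV A E} (h : (CG A E).Reachable u v) :
    (CG A E).Reachable (g • u) (g • v) := h.map (trH g)

theorem connected (hsup : A ⊔ E = ⊤) : (CG A E).Connected := by
  let W : Subgroup G :=
    { carrier := {g | (CG A E).Reachable (va A E 1) (va A E g)}
      one_mem' := Reachable.refl _
      mul_mem' := by
        intro g h hg hh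
        have h1 := reach_smul g hh
        rw [smul_va, smul_va, mul_one] at h1
        exact Reachable.trans hg h1
      inv_mem' := by
        intro g hg
        have h1 := reach_smul g⁻¹ hg
        rw [smul_va, smul_va, mul_one, inv_mul_cancel] at h1
        exact h1.symm }
  have hA : A ≤ W := by
    intro a ha
    have h1 : va A E 1 = va A E a := by rw [va_eq]; simpa using ha
    change (CG A E).Reachable (va A E 1) (va A E a)
    rw [h1]
  have hE : E ≤ W := by
    intro e he
    have h1 : ve A E 1 = ve A E e := by rw [ve_eq]; simpa using he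
    change (CG A E).Reachable (va A E 1) (va A E e)
    refine (adj_ae (A := A) (E := E) 1).reachable.trans ?_
    rw [h1]
    exact (adj_ae (A := A) (E := E) e).reachable.symm
  have hW : ∀ g, (CG A E).Reachable (va A E 1) (va A E g) := by
    intro g
    have h1 : g ∈ A ⊔ E := by rw [hsup]; trivial
    exact (sup_le hA hE) h1
  have hall : ∀ v, (CG A E).Reachable (va A E 1) v := by
    intro v
    rcases cases_cv v with ⟨x, rfl⟩ | ⟨x, rfl⟩
    · exact hW x
    · exact (hW x).trans (adj_ae x).reachable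
  exact (SimpleGraph.connected_iff _).mpr
    ⟨fun u v => (hall u).symm.trans (hall v), ⟨va A E 1⟩⟩

/-- the side of the edge from `A` to `E` -/
def side (v : CV A E) : Prop :=
  (∃ g, v = va A E g ∧ Wd A E g) ∨ (∃ g, v = ve A E g ∧ ¬ Wd E A g)

theorem side_va (g : G) : side (va A E g) ↔ Wd A E g := by
  constructor
  · rintro (⟨h, h1, h2⟩ | ⟨h, h1, _⟩)
    · have h3 := h2.right.1 _ (va_eq.1 h1.symm)
      rwa [mul_inv_cancel_left] at h3
    · exact absurd h1 (va_ne_ve _ _)
  · intro h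
    exact Or.inl ⟨g, rfl, h⟩

theorem side_ve (g : G) : side (ve A E g) ↔ ¬ Wd E A g := by
  constructor
  · rintro (⟨h, h1, _⟩ | ⟨h, h1, h2⟩)
    · exact absurd h1.symm (va_ne_ve _ _)
    · intro h3
      apply h2
      have h4 := h3.right.1 _ (ve_eq.1 h1)
      rwa [mul_inv_cancel_left] at h4
  · intro h
    exact Or.inr ⟨g, rfl, h⟩

theorem acyclic (hsup : A ⊔ E = ⊤) (h1 : ∀ g, Wd A E g → ¬ Wd E A g)
    (h2 : ∀ g, Wd A E g → ¬ (g ∈ A ∧ g ∈ E)) (h3 : ∀ g, Wd E A g → ¬ (g ∈ A ∧ g ∈ E)) :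
    (CG A E).IsAcyclic := by
  have key : ∀ x : G, ¬ ((CG A E) \ SimpleGraph.fromEdgeSet {s(va A E x, ve A E x)}).Reachable
      (va A E x) (ve A E x) := by
    intro x hr
    have hinv : ∀ w, ((CG A E) \ SimpleGraph.fromEdgeSet {s(va A E x, ve A E x)}).Reachable
        (va A E x) w → ¬ side (x⁻¹ • w) := by
      intro w hw
      rw [SimpleGraph.reachable_iff_reflTransGen] at hw
      induction hw with
      | refl =>
        rw [smul_va, inv_mul_cancel, side_va]
        intro h
        exact h2 1 h ⟨A.one_mem, E.one_mem⟩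
      | @tail b c _ hbc ih =>
        rw [SimpleGraph.sdiff_adj, SimpleGraph.fromEdgeSet_adj] at hbc
        obtain ⟨h4, h5⟩ := hbc
        have hne : b ≠ c := h4.ne
        have h6 : s(b, c) ≠ s(va A E x, ve A E x) := fun h => h5 ⟨h, hne⟩
        obtain ⟨y, ⟨rfl, rfl⟩ | ⟨rfl, rfl⟩⟩ := h4
        · rw [smul_va, side_va] at ih
          rw [smul_ve, side_ve, not_not]
          rcases Wd.total hsup (x⁻¹ * y) with h7 | h7 | ⟨h7, h8⟩
          · exact absurd h7 ih
          · exact h7
          · exfalso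
            apply h6
            rw [va_eq.2 h7, ve_eq.2 h8]
        · rw [smul_ve, side_ve, not_not] at ih
          rw [smul_va, side_va]
          exact fun h => h1 _ h ih
    have h4 := hinv _ hr
    rw [smul_ve, inv_mul_cancel, side_ve, not_not] at h4
    exact h3 1 h4 ⟨A.one_mem, E.one_mem⟩
  rw [SimpleGraph.isAcyclic_iff_forall_adj_isBridge]
  intro u v huv
  rw [SimpleGraph.isBridge_iff]
  obtain ⟨x, ⟨rfl, rfl⟩ | ⟨rfl, rfl⟩⟩ := huv
  · exact key x
  · intro hr
    apply key x
    rw [Sym2.eq_swap]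
    exact hr.symm

/-- **The coset graph is a tree.** -/
theorem isTree (hsup : A ⊔ E = ⊤) (h1 : ∀ g, Wd A E g → ¬ Wd E A g)
    (h2 : ∀ g, Wd A E g → ¬ (g ∈ A ∧ g ∈ E)) (h3 : ∀ g, Wd E A g → ¬ (g ∈ A ∧ g ∈ E)) :
    (CG A E).IsTree := ⟨connected hsup, acyclic hsup h1 h2 h3⟩

end graph

end Pool.Agent.J6H47.TP
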