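import Pool.Agent.J6H47.TP.Fin

/-!
# A criterion for arbitrary groups of tame automorphisms
-/

set_option autoImplicit false

namespace Pool.Agent.J6H47.TP

open Polynomial
open Pool.Agent.Y110.FJ (ClosedE)
open Pool.Agent.N509.TX (AcylF of_fg)

section surj

variable {R : Type} [CommRing R]

/-- translations -/
noncomputable def trHom (v : Fin 2 → R) : MvPolynomial (Fin 2) R →ₐ[R] MvPolynomial (Fin 2) R :=
  MvPolynomial.aeval fun i => MvPolynomial.X i + MvPolynomial.C (v i)

theorem trHom_X (v : Fin 2 → R) (i : Fin 2) :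
    trHom v (MvPolynomial.X i) = MvPolynomial.X i + MvPolynomial.C (v i) := by
  simp [trHom]

theorem trHom_comp (v w : Fin 2 → R) (h : ∀ i, v i + w i = 0) (p : MvPolynomial (Fin 2) R) :
    trHom v (trHom w p) = p := by
  have h1 : (trHom v).comp (trHom w) = AlgHom.id _ _ := by
    refine MvPolynomial.algHom_ext fun i => ?_
    rw [AlgHom.comp_apply, trHom_X, map_add, trHom_X]
    have h2 : trHom v (MvPolynomial.C (w i)) = MvPolynomial.C (w i) := (trHom v).commutes _
    rw [h2, add_assoc, ← map_add, h i]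
    simp
  exact DFunLike.congr_fun h1 p

/-- translations -/
noncomputable def trA (v : Fin 2 → R) : Aut2 R :=
  AlgEquiv.ofAlgHom (trHom v) (trHom fun i => - v i)
    (AlgHom.ext fun p => by
      rw [AlgHom.comp_apply, trHom_comp v (fun i => - v i) fun i => add_neg_cancel _]; rfl)
    (AlgHom.ext fun p => by
      rw [AlgHom.comp_apply, trHom_comp (fun i => - v i) v fun i => neg_add_cancel _]; rfl)

theorem trA_X (v : Fin 2 → R) (i : Fin 2) :
    trA v (MvPolynomial.X i) = MvPolynomial.X i + MvPolynomial.C (v i) := trHom_X v i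

theorem act_trA (v : Fin 2 → R) (F : R[X] × R[X]) : act (trA v) F = (F.1 + C (v 0), F.2 + C (v 1)) := by
  unfold act
  rw [trA_X, trA_X]
  simp

theorem act_lin (M : GL (Fin 2) R) (F : R[X] × R[X]) :
    act (lin M⁻¹) F = (C (M.val 0 0) * F.1 + C (M.val 0 1) * F.2,
      C (M.val 1 0) * F.1 + C (M.val 1 1) * F.2) := by
  unfold act
  rw [lin_X, lin_X, inv_inv, Fin.sum_univ_two, Fin.sum_univ_two]
  simp

/-- elementary maps -/
noncomputable def elHom (p : R[X]) : MvPolynomial (Fin 2) R →ₐ[R] MvPolynomial (Fin 2) R :=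
  MvPolynomial.aeval ![MvPolynomial.X 0 + aeval (MvPolynomial.X 1) p, MvPolynomial.X 1]

theorem elHom_X0 (p : R[X]) : elHom p (MvPolynomial.X 0) =
    MvPolynomial.X 0 + aeval (MvPolynomial.X 1) p := by
  simp [elHom]

theorem elHom_X1 (p : R[X]) : elHom p (MvPolynomial.X 1) = MvPolynomial.X 1 := by
  simp [elHom]

theorem elHom_comp (p r : R[X]) (h : p + r = 0) (q : MvPolynomial (Fin 2) R) :
    elHom p (elHom r q) = q := by
  have h1 : (elHom p).comp (elHom r) = AlgHom.id _ _ := by
    refine MvPolynomial.algHom_ext fun i => ?_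
    fin_cases i
    · show elHom p (elHom r (MvPolynomial.X 0)) = MvPolynomial.X 0
      rw [elHom_X0, map_add, elHom_X0, ← Polynomial.aeval_algHom_apply, elHom_X1, add_assoc,
        ← map_add, h]
      simp
    · show elHom p (elHom r (MvPolynomial.X 1)) = MvPolynomial.X 1
      rw [elHom_X1, elHom_X1]
  exact DFunLike.congr_fun h1 q

/-- elementary maps -/
noncomputable def elA (p : R[X]) : Aut2 R :=
  AlgEquiv.ofAlgHom (elHom p) (elHom (-p))
    (AlgHom.ext fun q => by
      rw [AlgHom.comp_apply, elHom_comp p (-p) (add_neg_cancel _)]; rfl)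
    (AlgHom.ext fun q => by
      rw [AlgHom.comp_apply, elHom_comp (-p) p (neg_add_cancel _)]; rfl)

theorem act_elA (p : R[X]) (F : R[X] × R[X]) : act (elA p) F = (F.1 + p.comp F.2, F.2) := by
  unfold act
  have h0 : elA p (MvPolynomial.X 0) = MvPolynomial.X 0 + aeval (MvPolynomial.X 1) p :=
    elHom_X0 p
  have h1 : elA p (MvPolynomial.X 1) = MvPolynomial.X 1 := elHom_X1 p
  rw [h0, h1]
  have h3 : ev F (aeval (MvPolynomial.X 1) p) = p.comp F.2 := by
    have h4 := Polynomial.aeval_algHom_apply (ev F) (MvPolynomial.X 1) p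
    rw [← h4, ev_X1]
    rfl
  simp [h3]

theorem isElementary_elA (p : R[X]) : IsElementary (elA p) := ⟨p, elHom_X0 p, elHom_X1 p⟩

theorem Theta_eq {φ : Aut2 R} {g : Equiv.Perm (R[X] × R[X])} (h : ∀ F, act φ F = g⁻¹ F) :
    Theta R φ = g := by
  rw [← inv_inj]
  ext1 F
  rw [Theta_inv, h]

/-- affine maps come from affine automorphisms -/
theorem aff_surj {g : Equiv.Perm (R[X] × R[X])} (hg : g ∈ AffP (⊤ : Subring R) R[X]) :
    ∃ φ : Aut2 R, IsAffine φ ∧ Theta R φ = g := by
  obtain ⟨a, b, u, c, d, v, h1, h2⟩ := Subgroup.inv_mem _ hg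
  have hdet : IsUnit (!![(a : R), (b : R); (c : R), (d : R)]).det := by
    rw [Matrix.det_fin_two_of]
    exact h1.map (⊤ : Subring R).subtype
  let M : GL (Fin 2) R := Matrix.GeneralLinearGroup.mk'' _ hdet
  have hM : M.val = !![(a : R), (b : R); (c : R), (d : R)] := rfl
  refine ⟨lin M⁻¹ * trA ![(u : R), (v : R)], ⟨M, ![(u : R), (v : R)], fun i => ?_⟩,
    Theta_eq fun F => ?_⟩
  · rw [AlgEquiv.mul_apply, trA_X, map_add, lin_X, inv_inv]
    have h3 : lin M⁻¹ (MvPolynomial.C (![(u : R), (v : R)] i)) =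
        MvPolynomial.C (![(u : R), (v : R)] i) := (lin M⁻¹).commutes _
    rw [h3]
  · rw [act_mul, act_lin, act_trA, h2, afm_eq, hM]
    simp

theorem isAffine_of {φ : Aut2 R} [IsDomain R] [Infinite R]
    (h : Theta R φ ∈ AffP (⊤ : Subring R) R[X]) : IsAffine φ := by
  obtain ⟨ψ, h1, h2⟩ := aff_surj h
  rw [← Theta_inj h2]
  exact h1

theorem lin_mem_tame (M : GL (Fin 2) R) : lin M ∈ tame R := lin_tame M

theorem trA_tame (v : Fin 2 → R) : trA v ∈ tame R := by
  refine Subgroup.subset_closure (Or.inl ⟨1, v, fun i => ?_⟩)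
  rw [trA_X, Units.val_one, Fin.sum_univ_two, Matrix.one_apply, Matrix.one_apply]
  fin_cases i <;> simp

/-- triangular maps come from tame automorphisms -/
theorem tri_surj {g : Equiv.Perm (R[X] × R[X])} (hg : g ∈ TriP (⊤ : Subring R) R[X]) :
    ∃ φ ∈ tame R, Theta R φ = g := by
  obtain ⟨a, b, c, p, ha, hb, h2⟩ := Subgroup.inv_mem _ hg
  obtain ⟨e, he⟩ := (coe_unit ha).exists_left_inv
  have hdet : IsUnit (!![(a : R), 0; 0, (b : R)]).det := by
    rw [Matrix.det_fin_two_of, mul_zero, sub_zero]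
    exact (coe_unit ha).mul (coe_unit hb)
  let M : GL (Fin 2) R := Matrix.GeneralLinearGroup.mk'' _ hdet
  have hM : M.val = !![(a : R), 0; 0, (b : R)] := rfl
  refine ⟨elA (C e * p.map (⊤ : Subring R).subtype) * lin M⁻¹ * trA ![0, (c : R)],
    Subgroup.mul_mem _ (Subgroup.mul_mem _ (Subgroup.subset_closure
      (Or.inr (isElementary_elA _))) (lin_mem_tame _)) (trA_tame _), Theta_eq fun F => ?_⟩
  rw [act_mul, act_mul, act_elA, act_lin, act_trA, h2, trm_eq, hM]
  refine Prod.ext ?_ ?_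
  · simp only [Matrix.of_apply, Matrix.cons_val', Matrix.cons_val_zero, Matrix.cons_val_one,
      Matrix.cons_val_fin_one, map_zero, zero_mul, add_zero, mul_comp, C_comp]
    have h3 : (C (a : R)) * C e = (1 : R[X]) := by rw [← C_mul, mul_comm, he, C_1]
    rw [mul_add, ← mul_assoc, h3, one_mul]
  · simp

theorem theta_surj {g : Equiv.Perm (R[X] × R[X])} (hg : g ∈ GP (⊤ : Subring R)) :
    ∃ φ ∈ tame R, Theta R φ = g := by
  have h : GP (⊤ : Subring R) ≤ (tame R).map (Theta R) := by
    refine sup_le ?_ ?_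
    · intro g hg
      obtain ⟨φ, h1, h2⟩ := aff_surj hg
      exact ⟨φ, Subgroup.subset_closure (Or.inl h1), h2⟩
    · intro g hg
      obtain ⟨φ, h1, h2⟩ := tri_surj hg
      exact ⟨φ, h1, h2⟩
  obtain ⟨φ, h1, h2⟩ := h hg
  exact ⟨φ, h1, h2⟩

end surj

section crit

variable {C : ∀ (G : Type) [Group G], Prop} {R : Type} [CommRing R] [IsDomain R] [CharZero R]

theorem C_crit0 (hC : ClosedE C) (hM : ∀ (G : Type) [Group G], derivedSeries G 2 = ⊥ → C G)
    (hA : AcylF C) (S : Subring R) {n : ℕ}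
    (hn : ∀ U : Finset S, (∀ u ∈ U, ∃ N : ℕ, 0 < N ∧ u ^ N = 1) → U.card ≤ n)
    (H : Subgroup (GP S)) (hH : Group.FG H)
    (hv : ∀ (z : GP S) (K : Subgroup H), (∀ g ∈ K, z⁻¹ * ((g : H) : GP S) * z ∈ GA S) → C K) :
    C H := by
  refine hA H (CV (GA S) (GE S)) (CG (GA S) (GE S)) hH tree ?_ ?_ ⟨8, n, ?_⟩ ?_
  · intro g u v h
    exact adj_smul (g : GP S) u v h
  · rintro g u v h ⟨h1, -⟩
    rcases cases_cv u with ⟨x, rfl⟩ | ⟨x, rfl⟩
    · obtain ⟨z, _, rfl⟩ := adj_va h
      exact va_ne_ve _ _ h1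
    · obtain ⟨z, _, rfl⟩ := adj_ve h
      exact va_ne_ve _ _ h1.symm
  · intro u v p hp hlen F hF
    have h1 := acyl hn u v p hp hlen (F.map (Function.Embedding.subtype _)) (by
      intro g hg x hx
      obtain ⟨g', hg', rfl⟩ := Finset.mem_map.1 hg
      exact hF g' hg' x hx)
    rwa [Finset.card_map] at h1
  · intro v
    rcases cases_cv v with ⟨z, rfl⟩ | ⟨z, rfl⟩
    · exact hv z _ fun g hg => fix_va hg
    · have hGE : C (GE S) := Pool.Agent.R941.FJ.C_equiv hC.base
        (Subgroup.subgroupOfEquivOfLe le_sup_right) (C_tri' hC hM S)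
      let f : ↥(MulAction.stabilizer H (ve (GA S) (GE S) z)) →* GE S :=
        { toFun := fun g => ⟨z⁻¹ * ((g : H) : GP S) * z, fix_ve g.2⟩
          map_one' := Subtype.ext (by simp)
          map_mul' := fun g g' => Subtype.ext (by simp [mul_assoc]) }
      refine hC.base.of_injective _ _ f ?_ hGE
      intro g g' hgg
      have h1 : z⁻¹ * ((g : H) : GP S) * z = z⁻¹ * ((g' : H) : GP S) * z :=
        congrArg Subtype.val hgg
      have h2 := mul_left_cancel (mul_right_cancel h1)
      exact Subtype.ext (Subtype.ext h2)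

/-- **Arbitrary groups of tame automorphisms.** -/
theorem C_crit (hC : ClosedE C) (hM : ∀ (G : Type) [Group G], derivedSeries G 2 = ⊥ → C G)
    (hA : AcylF C) (G : Type) [Group G] (ρ : G →* Aut2 R) (hρ : Function.Injective ρ)
    (ht : ∀ g, ρ g ∈ tame R)
    (hv : ∀ z ∈ tame R, ∀ K : Subgroup G, (∀ g ∈ K, IsAffine (z⁻¹ * ρ g * z)) → C K) : C G := by
  classical
  have : Infinite R := Infinite.of_injective _ (Nat.cast_injective (R := R))
  refine of_fg hC fun H hH => ?_
  obtain ⟨s, hs⟩ := hH.out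
  choose t ht using fun h : H => exists_GP (R := R) (Theta_tame (ht (h : G)))
  obtain ⟨T, hT⟩ : ∃ T : Finset R, ∀ h ∈ s, fsub (t h) ≤ fsub T :=
    ⟨s.biUnion t, fun h hh => fsub_mono (Finset.subset_biUnion_of_mem t hh)⟩
  have key : ∀ h : H, Theta R (ρ (h : G)) ∈ GP (fsub T) := by
    intro h
    have h1 : h ∈ Subgroup.closure (s : Set H) := by rw [hs]; trivial
    induction h1 using Subgroup.closure_induction with
    | mem x hx => exact GP_mono (hT x hx) (ht x)
    | one =>
      rw [Subgroup.coe_one, map_one, map_one]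
      exact Subgroup.one_mem _
    | mul x y _ _ ihx ihy =>
      rw [Subgroup.coe_mul, map_mul, map_mul]
      exact Subgroup.mul_mem _ ihx ihy
    | inv x _ ihx =>
      rw [Subgroup.coe_inv, map_inv, map_inv]
      exact Subgroup.inv_mem _ ihx
  obtain ⟨n, hn⟩ := roots_fsub T
  obtain ⟨f, hf⟩ : ∃ f : H →* GP (fsub T), ∀ h,
      (f h : Equiv.Perm (R[X] × R[X])) = Theta R (ρ h) :=
    ⟨{ toFun := fun h => ⟨_, key h⟩
       map_one' := Subtype.ext (by simp)
       map_mul' := fun x y => Subtype.ext (by simp) }, fun _ => rfl⟩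
  have hfinj : Function.Injective f := by
    intro x y hxy
    have h1 := congrArg Subtype.val hxy
    rw [hf, hf] at h1
    exact Subtype.ext (hρ (Theta_inj h1))
  have hfg : Group.FG f.range := Group.fg_range f
  refine hC.base.of_injective _ _ f.rangeRestrict
    (fun x y hxy => hfinj (congrArg Subtype.val hxy))
    (C_crit0 hC hM hA (fsub T) hn f.range hfg ?_)
  intro z K hK
  obtain ⟨ζ, hζ, hζz⟩ := theta_surj (GP_mono (le_top : fsub T ≤ ⊤) z.2)
  -- the elements of `K` as elements of `G`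
  have hinv : ∀ k : K, ∃ h : H, f h = ((k : f.range) : GP (fsub T)) := fun k => (k : f.range).2
  choose j hj using hinv
  obtain ⟨i, hi⟩ : ∃ i : K →* G, ∀ k, i k = (j k : G) :=
    ⟨{ toFun := fun k => (j k : G)
       map_one' := by
        have h1 : j 1 = 1 := hfinj (by rw [hj]; simp)
        rw [h1]; rfl
       map_mul' := fun x y => by
        have h1 : j (x * y) = j x * j y := hfinj (by rw [hj, map_mul, hj, hj]; rfl)
        rw [h1]; rfl }, fun _ => rfl⟩
  have hiinj : Function.Injective i := by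
    intro x y hxy
    rw [hi, hi] at hxy
    have h1 : j x = j y := Subtype.ext hxy
    have h2 := congrArg f h1
    rw [hj, hj] at h2
    exact Subtype.ext (Subtype.ext h2)
  refine hC.base.of_injective _ _ i.rangeRestrict
    (fun x y hxy => hiinj (congrArg Subtype.val hxy)) (hv ζ hζ i.range ?_)
  rintro _ ⟨k, rfl⟩
  refine isAffine_of ?_
  rw [map_mul, map_mul, map_inv, hζz, hi, ← hf, hj]
  exact aff_mono le_top (mem_GA.1 (hK _ k.2))

end crit

end Pool.Agent.J6H47.TP
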