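import Pool.Agent.J6H47.TP.Plane

/-!
# The tree of the group generated by the affine and the triangular automorphisms

`R` is a domain, `S` a subring; the group acts on the polynomial curves in the plane over `R`. Degrees of
curves show that the coset graph is a tree.
-/

set_option autoImplicit false

namespace Pool.Agent.J6H47.TP

open Polynomial

section params

variable {R : Type} [CommRing R] {S : Subring R}

theorem algMap (s : S) : algebraMap S R[X] s = C (s : R) := rfl

theorem afm_eq (a b u c d v : S) (F : R[X] × R[X]) :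
    afm a b u c d v F = (C (a : R) * F.1 + C (b : R) * F.2 + C (u : R),
      C (c : R) * F.1 + C (d : R) * F.2 + C (v : R)) := by
  simp only [afm, Algebra.smul_def, algMap]

theorem aeval_eq (p : S[X]) (f : R[X]) : aeval f p = (p.map S.subtype).comp f := by
  rw [aeval_def, comp, eval₂_map]
  rfl

theorem trm_eq (a b c : S) (p : S[X]) (F : R[X] × R[X]) :
    trm a b c p F = (C (a : R) * F.1 + (p.map S.subtype).comp F.2,
      C (b : R) * F.2 + C (c : R)) := by
  simp only [trm, Algebra.smul_def, algMap, aeval_eq]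

theorem natDegree_sub (p : S[X]) : (p.map S.subtype).natDegree = p.natDegree :=
  natDegree_map_eq_of_injective Subtype.coe_injective p

theorem coe_unit {s : S} (h : IsUnit s) : IsUnit (s : R) := h.map S.subtype

/-- triangular affine maps -/
theorem tri_iff {g : Equiv.Perm (R[X] × R[X])} {a b u c d v : S} (h : IsUnit (a * d - b * c))
    (hg : ∀ F, g F = afm a b u c d v F) : g ∈ TriP S R[X] ↔ c = 0 := by
  constructor
  · rintro ⟨a', b', c', p, _, _, h1⟩
    have h2 := hg (1, 0)
    have h3 := hg (0, 0)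
    rw [h1, trm_eq, afm_eq] at h2 h3
    have h4 := congrArg Prod.snd h2
    have h5 := congrArg Prod.snd h3
    simp only [mul_zero, mul_one, add_zero, zero_add] at h4 h5
    rw [h5] at h4
    have h6 : C (c : R) = 0 := by linear_combination -h4
    rw [C_eq_zero] at h6
    exact Subtype.ext h6
  · rintro rfl
    rw [mul_zero, sub_zero] at h
    refine ⟨a, d, v, C b * X + C u, isUnit_of_mul_isUnit_left h, isUnit_of_mul_isUnit_right h,
      fun F => ?_⟩
    rw [hg, afm_eq, trm_eq]
    simp [add_assoc]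

theorem aff_of_natDegree {g : Equiv.Perm (R[X] × R[X])} {a b c : S} {p : S[X]} (ha : IsUnit a)
    (hb : IsUnit b) (hg : ∀ F, g F = trm a b c p F) (hp : p.natDegree ≤ 1) :
    g ∈ AffP S R[X] := by
  refine ⟨a, p.coeff 1, p.coeff 0, 0, b, c, ?_, fun F => ?_⟩
  · rw [mul_zero, sub_zero]
    exact ha.mul hb
  · rw [hg, afm_eq, trm_eq]
    conv_lhs => rw [eq_X_add_C_of_natDegree_le_one hp]
    simp [add_assoc]

end params

section degrees

variable {R : Type} [CommRing R] [IsDomain R] {S : Subring R}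

omit [IsDomain R] in
theorem natDegree_cc (b c : R) (f : R[X]) : (C b * f + C c).natDegree ≤ f.natDegree := by
  refine (natDegree_add_le _ _).trans (max_le (natDegree_C_mul_le _ _) ?_)
  rw [natDegree_C]
  exact Nat.zero_le _

/-- the effect of a triangular map on degrees -/
theorem deg_tri {g : Equiv.Perm (R[X] × R[X])} (hE : g ∈ TriP S R[X]) (hA : g ∉ AffP S R[X])
    {F : R[X] × R[X]} (h1 : F.1.natDegree < 2 * F.2.natDegree) (h2 : 2 ≤ F.2.natDegree) :
    (g F).2.natDegree < (g F).1.natDegree ∧ 4 ≤ (g F).1.natDegree := by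
  obtain ⟨a, b, c, p, ha, hb, hg⟩ := hE
  have hp : 2 ≤ p.natDegree := by
    by_contra h
    exact hA (aff_of_natDegree ha hb hg (by omega))
  rw [hg, trm_eq]
  simp only
  have h3 : ((p.map S.subtype).comp F.2).natDegree = p.natDegree * F.2.natDegree := by
    rw [natDegree_comp, natDegree_sub]
  have h4 : 2 * F.2.natDegree ≤ p.natDegree * F.2.natDegree := Nat.mul_le_mul_right _ hp
  have h5 : (C (a : R) * F.1).natDegree ≤ F.1.natDegree := natDegree_C_mul_le _ _
  have h6 : (C (a : R) * F.1 + (p.map S.subtype).comp F.2).natDegree =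
      p.natDegree * F.2.natDegree := by
    rw [← h3]
    refine natDegree_add_eq_right_of_natDegree_lt ?_
    rw [h3]
    omega
  have h7 := natDegree_cc (b : R) (c : R) F.2
  rw [h6]
  constructor <;> omega

/-- the effect of an affine map on degrees -/
theorem deg_aff {g : Equiv.Perm (R[X] × R[X])} (hA : g ∈ AffP S R[X]) (hE : g ∉ TriP S R[X])
    {F : R[X] × R[X]} (h1 : F.2.natDegree < F.1.natDegree) (h2 : 3 ≤ F.1.natDegree) :
    (g F).1.natDegree ≤ (g F).2.natDegree ∧ 3 ≤ (g F).2.natDegree := by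
  obtain ⟨a, b, u, c, d, v, hu, hg⟩ := hA
  have hc : (c : R) ≠ 0 := by
    intro h
    exact hE ((tri_iff hu hg).2 (Subtype.ext h))
  rw [hg, afm_eq]
  simp only
  have h3 : ∀ a b u : R, (C a * F.1 + C b * F.2 + C u).natDegree ≤ F.1.natDegree := by
    intro a b u
    refine (natDegree_add_le _ _).trans (max_le ?_ ?_)
    · exact (natDegree_add_le _ _).trans (max_le (natDegree_C_mul_le _ _)
        ((natDegree_C_mul_le _ _).trans h1.le))
    · rw [natDegree_C]; exact Nat.zero_le _
  have h4 : (C (c : R) * F.1 + C (d : R) * F.2 + C (v : R)).natDegree = F.1.natDegree := by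
    have h5 : (C (c : R) * F.1).natDegree = F.1.natDegree := natDegree_C_mul hc
    rw [add_assoc, natDegree_add_eq_left_of_natDegree_lt, h5]
    rw [h5]
    exact (natDegree_cc _ _ _).trans_lt h1
  rw [h4]
  exact ⟨h3 _ _ _, h2⟩

/-- the effect of the common maps on the degrees of the curve `(t³, t²)` -/
theorem deg_both {g : Equiv.Perm (R[X] × R[X])} (hA : g ∈ AffP S R[X]) (hE : g ∈ TriP S R[X]) :
    (g (X ^ 3, X ^ 2)).1.natDegree = 3 ∧ (g (X ^ 3, X ^ 2)).2.natDegree ≤ 2 := by
  obtain ⟨a, b, u, c, d, v, hu, hg⟩ := hA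
  have hc : c = 0 := (tri_iff hu hg).1 hE
  subst hc
  rw [mul_zero, sub_zero] at hu
  have ha : (a : R) ≠ 0 := (coe_unit (isUnit_of_mul_isUnit_left hu)).ne_zero
  rw [hg, afm_eq]
  simp only
  constructor
  · have h5 : (C (a : R) * X ^ 3).natDegree = 3 := by rw [natDegree_C_mul ha, natDegree_X_pow]
    rw [add_assoc, natDegree_add_eq_left_of_natDegree_lt, h5]
    rw [h5]
    refine (natDegree_cc _ _ _).trans_lt ?_
    rw [natDegree_X_pow]
    norm_num
  · rw [show (C ((0 : S) : R)) * X ^ 3 = (0 : R[X]) by simp, zero_add]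
    refine (natDegree_cc _ _ _).trans ?_
    rw [natDegree_X_pow]

variable (S) in
/-- the group generated by the affine and the triangular maps with coefficients in `S` -/
noncomputable def GP : Subgroup (Equiv.Perm (R[X] × R[X])) := AffP S R[X] ⊔ TriP S R[X]

variable (S) in
/-- the affine group in `GP` -/
noncomputable def GA : Subgroup (GP S) := (AffP S R[X]).subgroupOf (GP S)

variable (S) in
/-- the triangular group in `GP` -/
noncomputable def GE : Subgroup (GP S) := (TriP S R[X]).subgroupOf (GP S)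

theorem GA_sup_GE : GA S ⊔ GE S = ⊤ := by
  have h := Subgroup.subgroupOf_sup (A := AffP S R[X]) (A' := TriP S R[X]) (B := GP S)
    le_sup_left le_sup_right
  exact h.symm.trans (Subgroup.subgroupOf_self _)

omit [IsDomain R] in
theorem mem_GA {g : GP S} : g ∈ GA S ↔ (g : Equiv.Perm (R[X] × R[X])) ∈ AffP S R[X] := Iff.rfl

omit [IsDomain R] in
theorem mem_GE {g : GP S} : g ∈ GE S ↔ (g : Equiv.Perm (R[X] × R[X])) ∈ TriP S R[X] := Iff.rfl

/-- degrees of words that start with a triangular map -/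
def PX (g : Equiv.Perm (R[X] × R[X])) : Prop :=
  (g (X ^ 3, X ^ 2)).2.natDegree < (g (X ^ 3, X ^ 2)).1.natDegree ∧
    4 ≤ (g (X ^ 3, X ^ 2)).1.natDegree

/-- degrees of words that start with an affine map -/
def PY (g : Equiv.Perm (R[X] × R[X])) : Prop :=
  (g (X ^ 3, X ^ 2)).1.natDegree ≤ (g (X ^ 3, X ^ 2)).2.natDegree ∧
    3 ≤ (g (X ^ 3, X ^ 2)).2.natDegree

theorem wd_deg {A E : Subgroup (GP S)} {g : GP S} (h : Wd A E g) :
    (A = GA S → E = GE S → PX (g : Equiv.Perm (R[X] × R[X]))) ∧
    (A = GE S → E = GA S → PY (g : Equiv.Perm (R[X] × R[X]))) := by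
  induction h with
  | @one A E g h1 h2 =>
    constructor
    · rintro rfl rfl
      refine deg_tri (mem_GE.1 h1) (fun h => h2 (mem_GA.2 h)) ?_ ?_
      · simp only [natDegree_X_pow]; norm_num
      · simp only [natDegree_X_pow]; norm_num
    · rintro rfl rfl
      refine deg_aff (mem_GA.1 h1) (fun h => h2 (mem_GE.2 h)) ?_ ?_
      · simp only [natDegree_X_pow]; norm_num
      · simp only [natDegree_X_pow]; norm_num
  | @cons A E g h h1 h2 h3 ih =>
    constructor
    · rintro rfl rfl
      obtain ⟨h4, h5⟩ := ih.2 rfl rfl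
      exact deg_tri (mem_GE.1 h1) (fun h => h2 (mem_GA.2 h)) (by omega) (by omega)
    · rintro rfl rfl
      obtain ⟨h4, h5⟩ := ih.1 rfl rfl
      exact deg_aff (mem_GA.1 h1) (fun h => h2 (mem_GE.2 h)) (by omega) (by omega)

/-- **The tree.** -/
theorem tree : (CG (GA S) (GE S)).IsTree := by
  refine isTree GA_sup_GE ?_ ?_ ?_
  · intro g h1 h2
    obtain ⟨h3, _⟩ := (wd_deg h1).1 rfl rfl
    obtain ⟨h4, _⟩ := (wd_deg h2).2 rfl rfl
    omega
  · rintro g h1 ⟨h2, h3⟩
    obtain ⟨_, h4⟩ := (wd_deg h1).1 rfl rfl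
    have h5 := (deg_both (mem_GA.1 h2) (mem_GE.1 h3)).1
    omega
  · rintro g h1 ⟨h2, h3⟩
    obtain ⟨_, h4⟩ := (wd_deg h1).2 rfl rfl
    have h5 := (deg_both (mem_GA.1 h2) (mem_GE.1 h3)).2
    omega

end degrees

end Pool.Agent.J6H47.TP
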