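import Pool.Agent.J6H47.TP.Pid

/-!
# Linear automorphisms, polynomial rings over fields
-/

set_option autoImplicit false

namespace Pool.Agent.J6H47.TP

open Pool.Agent.Y110.FJ (ClosedE)
open Pool.Agent.N509.TX (AcylF)
open Pool.Agent.J6H75.BT (GL2 IsDegree)

section lin

variable {R : Type} [CommRing R]

/-- the linear map with the matrix `M` -/
noncomputable def linHom (M : Matrix (Fin 2) (Fin 2) R) :
    MvPolynomial (Fin 2) R →ₐ[R] MvPolynomial (Fin 2) R :=
  MvPolynomial.aeval fun i => ∑ j, MvPolynomial.C (M i j) * MvPolynomial.X j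

theorem linHom_X (M : Matrix (Fin 2) (Fin 2) R) (i : Fin 2) :
    linHom M (MvPolynomial.X i) = ∑ j, MvPolynomial.C (M i j) * MvPolynomial.X j := by
  simp [linHom]

theorem linHom_comp (M N : Matrix (Fin 2) (Fin 2) R) (p : MvPolynomial (Fin 2) R) :
    linHom M (linHom N p) = linHom (N * M) p := by
  have h : (linHom M).comp (linHom N) = linHom (N * M) := by
    refine MvPolynomial.algHom_ext fun i => ?_
    rw [AlgHom.comp_apply, linHom_X, linHom_X, Fin.sum_univ_two, Fin.sum_univ_two, map_add,
      map_mul, map_mul, linHom_X, linHom_X, Matrix.mul_apply, Matrix.mul_apply,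
      Fin.sum_univ_two, Fin.sum_univ_two, Fin.sum_univ_two, Fin.sum_univ_two]
    have h1 : ∀ r : R, linHom M (MvPolynomial.C r) = MvPolynomial.C r := fun r =>
      (linHom M).commutes r
    rw [h1, h1]
    simp only [map_add, map_mul]
    ring
  exact DFunLike.congr_fun h p

theorem linHom_one (p : MvPolynomial (Fin 2) R) :
    linHom (1 : Matrix (Fin 2) (Fin 2) R) p = p := by
  have h : linHom (1 : Matrix (Fin 2) (Fin 2) R) = AlgHom.id _ _ := by
    refine MvPolynomial.algHom_ext fun i => ?_
    rw [linHom_X, Fin.sum_univ_two, Matrix.one_apply, Matrix.one_apply]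
    fin_cases i <;> simp
  rw [h]
  rfl

/-- linear automorphisms -/
noncomputable def lin : GL (Fin 2) R →* Aut2 R where
  toFun M := AlgEquiv.ofAlgHom (linHom (M⁻¹).val) (linHom M.val)
    (AlgHom.ext fun p => by
      rw [AlgHom.comp_apply, linHom_comp, Units.mul_inv, linHom_one]; rfl)
    (AlgHom.ext fun p => by
      rw [AlgHom.comp_apply, linHom_comp, Units.inv_mul, linHom_one]; rfl)
  map_one' := AlgEquiv.ext fun p => by
    show linHom ((1 : GL (Fin 2) R)⁻¹).val p = p
    rw [inv_one, Units.val_one, linHom_one]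
  map_mul' M N := AlgEquiv.ext fun p => by
    show linHom ((M * N)⁻¹).val p = linHom (M⁻¹).val (linHom (N⁻¹).val p)
    rw [linHom_comp, mul_inv_rev, Units.val_mul]

theorem lin_X (M : GL (Fin 2) R) (i : Fin 2) :
    lin M (MvPolynomial.X i) = ∑ j, MvPolynomial.C ((M⁻¹).val i j) * MvPolynomial.X j :=
  linHom_X _ i

theorem lin_inj : Function.Injective (lin (R := R)) := by
  intro M N h
  have h1 : (M⁻¹).val = (N⁻¹).val := by
    ext i j
    have h2 := congrArg (fun φ : Aut2 R => φ (MvPolynomial.X i)) h
    simp only [lin_X, Fin.sum_univ_two] at h2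
    have h3 := congrArg (MvPolynomial.eval (Pi.single j (1 : R))) h2
    fin_cases j <;> simpa using h3
  exact inv_injective (Units.ext h1)

theorem lin_tame (M : GL (Fin 2) R) : lin M ∈ tame R := by
  refine Subgroup.subset_closure (Or.inl ⟨M⁻¹, 0, fun i => ?_⟩)
  rw [lin_X]
  simp

variable {C : ∀ (G : Type) [Group G], Prop}

theorem C_of_tame (hC : ClosedE C) (h : C (tame R)) : C (GL (Fin 2) R) := by
  refine hC.base.of_injective _ _ ((lin (R := R)).codRestrict (tame R) lin_tame) ?_ h
  intro M N hMN
  exact lin_inj (congrArg Subtype.val hMN)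

/-- extension of scalars preserves tameness -/
theorem ext_tame {φ : Aut2 R} (hφ : φ ∈ tame R) : ext R φ ∈ tame (FractionRing R) := by
  have h : tame R ≤ (tame (FractionRing R)).comap (ext R) := by
    unfold tame
    rw [Subgroup.closure_le]
    rintro φ (⟨M, v, h⟩ | ⟨p, h0, h1⟩)
    · refine Subgroup.subset_closure (Or.inl
        ⟨Matrix.GeneralLinearGroup.map (algebraMap R (FractionRing R)) M,
          fun i => algebraMap R (FractionRing R) (v i), fun i => ?_⟩)
      rw [ext_X, h]
      simp [mp, Fin.sum_univ_two]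
    · refine Subgroup.subset_closure (Or.inr ⟨p.map (algebraMap R (FractionRing R)), ?_, ?_⟩)
      · rw [ext_X, h0]
        simp only [mp, map_add, MvPolynomial.map_X]
        congr 1
        rw [Polynomial.aeval_map_algebraMap]
        rw [Polynomial.aeval_def, Polynomial.aeval_def, Polynomial.hom_eval₂, MvPolynomial.map_X]
        congr 1
        ext r
        simp [MvPolynomial.algebraMap_eq, IsScalarTower.algebraMap_apply R (FractionRing R)
          (MvPolynomial (Fin 2) (FractionRing R))]
      · rw [ext_X, h1]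
        simp [mp]
  exact h hφ

theorem tame_le_tameOver [IsDomain R] : tame R ≤ tameOver R := fun _ h => ext_tame h

theorem C_of_tameOver [IsDomain R] (hC : ClosedE C) (h : C (tameOver R)) :
    C (GL (Fin 2) R) :=
  C_of_tame hC (Pool.Agent.R941.FJ.C_le hC.base tame_le_tameOver h)

end lin

section mv

variable {C : ∀ (G : Type) [Group G], Prop}

theorem isDegree_mv (K : Type) [Field K] (n : ℕ) :
    IsDegree (A := MvPolynomial (Fin n) K) MvPolynomial.totalDegree where
  mul _ _ ha hb := MvPolynomial.totalDegree_mul_of_isDomain ha hb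
  add _ _ _ _ _ := MvPolynomial.totalDegree_add _ _

theorem latC_mv (hC : ClosedE C) (K : Type) [Field K] (hK : ∀ m : ℕ, C (GL (Fin m) K)) (n : ℕ) :
    LatC C (MvPolynomial (Fin n) K) := by
  intro f hf L hL
  refine C_lattice (K := K) hC hK (isDegree_mv K n) (fun m => ?_) f hf L hL
  exact ⟨MvPolynomial.restrictTotalDegree (Fin n) K m, inferInstance, fun a ha =>
    (MvPolynomial.mem_restrictTotalDegree _ _ _).2 ha⟩

end mv

end Pool.Agent.J6H47.TP
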