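import Pool.Agent.J6H75.BT.Fg

/-!
# Groups of matrices with bounded denominators
-/

set_option autoImplicit false

namespace Pool.Agent.J6H47.TP

open Pool.Agent.Y110.FJ (ClosedE)
open Pool.Agent.J6H75.BT

variable {C : ∀ (G : Type) [Group G], Prop}

/-- Krull's intersection theorem for finite-dimensional subspaces -/
theorem krull (K B : Type) [Field K] [CommRing B] [IsDomain B] [Algebra K B] [IsNoetherianRing B]
    (m : Ideal B) (hm : m ≠ ⊤) (W : Submodule K B) [FiniteDimensional K W] :
    ∃ k : ℕ, ∀ x ∈ W, x ∈ m ^ k → x = 0 := by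
  have hart : IsArtinian K W := inferInstance
  obtain ⟨k, hk⟩ := IsArtinian.monotone_stabilizes
    (⟨fun k => OrderDual.toDual (((m ^ k).restrictScalars K).comap W.subtype), by
      intro i j hij
      rw [OrderDual.toDual_le_toDual]
      exact Submodule.comap_mono (fun x hx => Ideal.pow_le_pow_right hij hx)⟩ :
      ℕ →o (Submodule K W)ᵒᵈ)
  refine ⟨k, fun x hxW hx => ?_⟩
  have h1 : x ∈ ⨅ i : ℕ, m ^ i := by
    rw [Ideal.mem_iInf]
    intro i
    rcases le_total k i with h | h
    · have h2 : (⟨x, hxW⟩ : W) ∈ ((m ^ k).restrictScalars K).comap W.subtype := hx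
      have h3 : ((m ^ k).restrictScalars K).comap W.subtype =
          ((m ^ i).restrictScalars K).comap W.subtype := OrderDual.toDual_inj.1 (hk i h)
      rw [h3] at h2
      exact h2
    · exact Ideal.pow_le_pow_right h hx
  rw [Ideal.iInf_pow_eq_bot_of_isDomain m hm] at h1
  exact h1

section sub

variable {F : Type} [Field F] {K : Type} [Field K] [Algebra K F]

/-- a matrix with entries in a subalgebra -/
def mB (B : Subalgebra K F) (M : Matrix (Fin 2) (Fin 2) F) (h : ∀ i j, M i j ∈ B) :
    Matrix (Fin 2) (Fin 2) B := fun i j => ⟨M i j, h i j⟩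

theorem mB_mul (B : Subalgebra K F) {M N P : Matrix (Fin 2) (Fin 2) F} (hM : ∀ i j, M i j ∈ B)
    (hN : ∀ i j, N i j ∈ B) (hP : ∀ i j, P i j ∈ B) (h : M * N = P) :
    mB B M hM * mB B N hN = mB B P hP := by
  subst h
  ext i j
  rw [Matrix.mul_apply, AddSubmonoidClass.coe_finsetSum]
  show _ = (M * N) i j
  rw [Matrix.mul_apply]
  rfl

theorem mB_one (B : Subalgebra K F) {M : Matrix (Fin 2) (Fin 2) F} (hM : ∀ i j, M i j ∈ B)
    (h : M = 1) : mB B M hM = 1 := by
  subst h
  ext i j
  show (1 : Matrix (Fin 2) (Fin 2) F) i j = _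
  by_cases hij : i = j
  · rw [hij, Matrix.one_apply_eq, Matrix.one_apply_eq]; rfl
  · rw [Matrix.one_apply_ne hij, Matrix.one_apply_ne hij]; rfl

/-- a group of matrices with entries in a subalgebra -/
def toB (B : Subalgebra K F) (L : Subgroup (GL2 F)) (h : ∀ g ∈ L, ∀ i j, g.val i j ∈ B) :
    L →* GL2 B where
  toFun g := ⟨mB B g.1.val (h g.1 g.2), mB B (g.1⁻¹).val (h _ (L.inv_mem g.2)),
    (mB_mul B _ _ (fun i j => by
      rw [Units.mul_inv]
      exact (mB B 1 (fun i j => by
        by_cases hij : i = j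
        · rw [hij, Matrix.one_apply_eq]; exact B.one_mem
        · rw [Matrix.one_apply_ne hij]; exact B.zero_mem) i j).2) rfl).trans
      (mB_one B _ (Units.mul_inv _)),
    (mB_mul B _ _ (fun i j => by
      rw [Units.inv_mul]
      exact (mB B 1 (fun i j => by
        by_cases hij : i = j
        · rw [hij, Matrix.one_apply_eq]; exact B.one_mem
        · rw [Matrix.one_apply_ne hij]; exact B.zero_mem) i j).2) rfl).trans
      (mB_one B _ (Units.inv_mul _))⟩
  map_one' := Units.ext (mB_one B _ rfl)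
  map_mul' g g' := Units.ext (mB_mul B _ _ _ rfl).symm

theorem toB_val (B : Subalgebra K F) (L : Subgroup (GL2 F))
    (h : ∀ g ∈ L, ∀ i j, g.val i j ∈ B) (g : L) (i j : Fin 2) :
    (((toB B L h g).val i j : B) : F) = g.1.val i j := rfl

end sub

section main

variable (K A : Type) [Field K] [CommRing A] [IsDomain A] [Algebra K A] [Algebra.FiniteType K A]

theorem exists_B (f : A) : ∃ B : Subalgebra K (FractionRing A), B.FG ∧
    (∀ a : A, algebraMap A (FractionRing A) a ∈ B) ∧ (algebraMap A (FractionRing A) f)⁻¹ ∈ B := by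
  classical
  obtain ⟨s, hs⟩ := (Algebra.FiniteType.out : (⊤ : Subalgebra K A).FG)
  refine ⟨Algebra.adjoin K ((s.image (algebraMap A (FractionRing A)) ∪
    {(algebraMap A (FractionRing A) f)⁻¹} : Finset (FractionRing A)) : Set (FractionRing A)),
    ⟨_, rfl⟩, fun a => ?_, Algebra.subset_adjoin (by simp)⟩
  have h1 : a ∈ Algebra.adjoin K (s : Set A) := by rw [hs]; trivial
  have h2 : IsScalarTower.toAlgHom K A (FractionRing A) a ∈
      (Algebra.adjoin K (s : Set A)).map (IsScalarTower.toAlgHom K A (FractionRing A)) :=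
    ⟨a, h1, rfl⟩
  rw [AlgHom.map_adjoin] at h2
  refine Algebra.adjoin_mono ?_ h2
  rintro _ ⟨b, hb, rfl⟩
  simp only [Finset.coe_union, Finset.coe_image, Set.mem_union, Set.mem_image]
  exact Or.inl ⟨b, hb, rfl⟩

variable {K A}

theorem detect (hC : ClosedE C) (hK : ∀ n : ℕ, C (GL (Fin n) K)) {deg : A → ℕ}
    (hfin : ∀ n : ℕ, ∃ W : Submodule K A, FiniteDimensional K W ∧ ∀ a, deg a ≤ n → a ∈ W)
    (f : A) (hf : f ≠ 0) (L : Subgroup (GL2 (FractionRing A)))
    (hL : ∀ g ∈ L, ∀ i j, ∃ a : A, algebraMap A (FractionRing A) f * g.val i j =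
      algebraMap A (FractionRing A) a) (n : ℕ) :
    ∃ (P : Type) (_ : Group P) (h : L →* P), C P ∧ ∀ g, h g = 1 →
      (∀ i j, ∀ a : A, a ≠ 0 → algebraMap A (FractionRing A) f * g.1.val i j =
        algebraMap A (FractionRing A) a → deg a ≤ n) → g = 1 := by
  obtain ⟨ι, hι⟩ : ∃ ι : A →ₐ[K] FractionRing A, ι = IsScalarTower.toAlgHom K A (FractionRing A) :=
    ⟨_, rfl⟩
  have hιa : ∀ a, ι a = algebraMap A (FractionRing A) a := by rw [hι]; exact fun _ => rfl
  have hinj : Function.Injective ι := by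
    intro a b hab
    rw [hιa, hιa] at hab
    exact IsFractionRing.injective A (FractionRing A) hab
  obtain ⟨B, hBfg, hB, hfB⟩ := exists_B K A f
  have hf0 : ι f ≠ 0 := (map_ne_zero_iff ι hinj).2 hf
  simp only [← hιa] at hL hB hfB
  simp only [← hιa]
  have hent : ∀ g ∈ L, ∀ i j, g.val i j ∈ B := by
    intro g hg i j
    obtain ⟨a, ha⟩ := hL g hg i j
    have h1 : g.val i j = (ι f)⁻¹ * ι a := by
      rw [← ha, inv_mul_cancel_left₀ hf0]
    rw [h1]
    exact B.mul_mem hfB (hB a)
  have hfgB : Algebra.FiniteType K B := (Subalgebra.fg_iff_finiteType B).1 hBfg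
  have hN : IsNoetherianRing B := Algebra.FiniteType.isNoetherianRing K B
  obtain ⟨m, hm⟩ := Ideal.exists_maximal B
  obtain ⟨W, hW, hWn⟩ := hfin n
  obtain ⟨W1, hW1⟩ : ∃ W1 : Submodule K A, W1 = W ⊔ Submodule.span K {f} := ⟨_, rfl⟩
  have hW1f : FiniteDimensional K W1 := by rw [hW1]; infer_instance
  obtain ⟨U, hU⟩ : ∃ U : Submodule K (FractionRing A),
      U = (W1.map ι.toLinearMap).map (LinearMap.mulLeft K (ι f)⁻¹) := ⟨_, rfl⟩
  have hUf : FiniteDimensional K U := by rw [hU]; infer_instance
  have hW'f : FiniteDimensional K (U.comap B.val.toLinearMap) := by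
    refine Module.Finite.of_injective (B.val.toLinearMap.restrict (p := U.comap B.val.toLinearMap)
      (q := U) fun x hx => hx) ?_
    intro x y hxy
    have h1 : ((x : B) : FractionRing A) = ((y : B) : FractionRing A) :=
      congrArg (fun z : U => (z : FractionRing A)) hxy
    exact Subtype.ext (Subtype.ext h1)
  obtain ⟨k, hk⟩ := krull K B m hm.ne_top (U.comap B.val.toLinearMap)
  have hfd := finite_pow K B m hm k
  refine ⟨GL2 (B ⧸ m ^ k), inferInstance, (glMap (Ideal.Quotient.mk (m ^ k))).comp (toB B L hent),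
    findim hC K hK _, fun g hg hdeg => ?_⟩
  have key : ∀ i j, g.1.val i j = (1 : GL2 (FractionRing A)).val i j := by
    intro i j
    have h1 : (toB B L hent g).val i j - (1 : Matrix (Fin 2) (Fin 2) B) i j ∈ m ^ k := by
      rw [← Ideal.Quotient.eq]
      have h2 := congrArg (fun X : GL2 (B ⧸ m ^ k) => X.val i j) hg
      refine (show _ = _ from h2).trans ?_
      show (1 : Matrix (Fin 2) (Fin 2) (B ⧸ m ^ k)) i j = _
      by_cases hij : i = j
      · rw [hij, Matrix.one_apply_eq, Matrix.one_apply_eq, map_one]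
      · rw [Matrix.one_apply_ne hij, Matrix.one_apply_ne hij, map_zero]
    obtain ⟨a, ha⟩ := hL g.1 g.2 i j
    have haW : a ∈ W := by
      by_cases ha0 : a = 0
      · rw [ha0]; exact W.zero_mem
      · exact hWn a (hdeg i j a ha0 ha)
    have h2 : ∀ d : A, (d = 0 ∨ d = f) → (ι f)⁻¹ * ι (a - d) ∈ U := by
      intro d hd
      rw [hU]
      refine ⟨ι (a - d), ⟨a - d, ?_, rfl⟩, rfl⟩
      rw [hW1]
      refine Submodule.sub_mem _ (Submodule.mem_sup_left haW) ?_
      rcases hd with rfl | rfl
      · exact Submodule.zero_mem _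
      · exact Submodule.mem_sup_right (Submodule.mem_span_singleton_self _)
    have h3 : (toB B L hent g).val i j - (1 : Matrix (Fin 2) (Fin 2) B) i j ∈
        U.comap B.val.toLinearMap := by
      rw [Submodule.mem_comap]
      have h4 : B.val.toLinearMap ((toB B L hent g).val i j - (1 : Matrix (Fin 2) (Fin 2) B) i j) =
          g.1.val i j - (((1 : Matrix (Fin 2) (Fin 2) B) i j : B) : FractionRing A) := rfl
      rw [h4]
      by_cases hij : i = j
      · have h5 := h2 f (Or.inr rfl)
        rw [map_sub, mul_sub, inv_mul_cancel₀ hf0, ← ha, inv_mul_cancel_left₀ hf0] at h5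
        rw [hij, Matrix.one_apply_eq]
        rw [hij] at h5
        exact h5
      · have h5 := h2 0 (Or.inl rfl)
        rw [sub_zero, ← ha, inv_mul_cancel_left₀ hf0] at h5
        rw [Matrix.one_apply_ne hij]
        simpa using h5
    have h4 := hk _ h3 h1
    rw [sub_eq_zero] at h4
    have h5 := congrArg (Subtype.val) h4
    rw [toB_val] at h5
    rw [h5, Units.val_one]
    by_cases hij : i = j
    · rw [hij, Matrix.one_apply_eq, Matrix.one_apply_eq]; rfl
    · rw [Matrix.one_apply_ne hij, Matrix.one_apply_ne hij]; rfl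
  refine Subtype.ext (Units.ext ?_)
  ext i j
  exact key i j

/-- **Groups of matrices with bounded denominators.** -/
theorem C_lattice (hC : ClosedE C) (hK : ∀ n : ℕ, C (GL (Fin n) K)) {deg : A → ℕ}
    (hdeg : IsDegree deg)
    (hfin : ∀ n : ℕ, ∃ W : Submodule K A, FiniteDimensional K W ∧ ∀ a, deg a ≤ n → a ∈ W)
    (f : A) (hf : f ≠ 0) (L : Subgroup (GL2 (FractionRing A)))
    (hL : ∀ g ∈ L, ∀ i j, ∃ a : A, algebraMap A (FractionRing A) f * g.val i j =
      algebraMap A (FractionRing A) a) : C L := by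
  have hinj := IsFractionRing.injective A (FractionRing A)
  by_cases h : ∃ a : A, a ≠ 0 ∧ deg a ≠ 0
  · obtain ⟨V, e, he, hV⟩ := exists_DV hdeg h
    have hf0 : algebraMap A (FractionRing A) f ≠ 0 := (map_ne_zero_iff _ hinj).2 hf
    have hval : ∀ (x : FractionRing A) (a : A), a ≠ 0 →
        algebraMap A (FractionRing A) f * x = algebraMap A (FractionRing A) a →
        x ≠ 0 ∧ -(deg a : ℤ) = -(deg f : ℤ) + e * V.v x := by
      intro x a ha hx
      have hx0 : x ≠ 0 := by
        rintro rfl
        rw [mul_zero, eq_comm, map_eq_zero_iff _ hinj] at hx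
        exact ha hx
      refine ⟨hx0, ?_⟩
      rw [← v0_alg hdeg ha, ← hx, v0_mul hdeg _ _ hf0 hx0, v0_alg hdeg hf, hV x hx0]
    refine criterion hC V (1 : PUnit →* MulAut (DV.GLD (FractionRing A)))
      (fun γ h n hn => hn) ((SemidirectProduct.inl).comp L.subtype) ?_ ?_
    · intro g
      by_contra hcon
      push Not at hcon
      have h1 : V.MGe 1 g.1.val := by
        intro i j
        by_cases h2 : g.1.val i j = 0
        · exact Or.inl h2
        · exact Or.inr (hcon i j h2)
      have h2 : ∀ k : ℕ, V.MGe k (g.1 ^ k).val := by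
        intro k
        induction k with
        | zero => simpa using DV.mge_one
        | succ k ih =>
          rw [pow_succ, Units.val_mul]
          push_cast
          exact DV.mge_mul ih h1
      have h3 := h2 (deg f + 1)
      obtain ⟨i, j, hij⟩ : ∃ i j, (g.1 ^ (deg f + 1)).val i j ≠ 0 := by
        by_contra hc
        push Not at hc
        have h4 : (g.1 ^ (deg f + 1)).val = 0 := by
          ext i j
          exact hc i j
        exact Units.ne_zero (g.1 ^ (deg f + 1)) h4
      obtain ⟨a, ha⟩ := hL _ (L.pow_mem g.2 (deg f + 1)) i j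
      have ha0 : a ≠ 0 := by
        rintro rfl
        rw [map_zero] at ha
        rcases mul_eq_zero.1 ha with h5 | h5
        · exact hf0 h5
        · exact hij h5
      obtain ⟨-, h5⟩ := hval _ a ha0 ha
      have h6 := (DV.ge_ne hij).1 (h3 i j)
      rw [Nat.cast_add, Nat.cast_one] at h6
      have h7 : (0 : ℤ) ≤ deg a := Nat.cast_nonneg _
      have h8 : (0 : ℤ) ≤ deg f := Nat.cast_nonneg _
      nlinarith
    · intro n
      obtain ⟨P, _, ψ, hP, hψ⟩ := detect (K := K) hC hK hfin f hf L hL (deg f + (e * n).toNat)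
      refine ⟨P, inferInstance, ψ, hP, fun g hg hM => hψ g hg fun i j a ha0 ha => ?_⟩
      obtain ⟨hx, h5⟩ := hval _ a ha0 ha
      have h6 := (DV.ge_ne hx).1 (hM i j)
      have h7 : e * (n : ℤ) ≤ ((e * n).toNat : ℤ) := Int.self_le_toNat _
      have h8 : e * (-(n : ℤ)) ≤ e * V.v (g.1.val i j) := mul_le_mul_of_nonneg_left h6 he.le
      have h9 : (deg a : ℤ) ≤ deg f + ((e * n).toNat : ℤ) := by linarith
      exact_mod_cast h9
  · push Not at h
    obtain ⟨P, _, ψ, hP, hψ⟩ := detect (K := K) hC hK hfin f hf L hL 0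
    refine hC.base.of_injective _ _ ψ ?_ hP
    rw [injective_iff_map_eq_one]
    intro g hg
    exact hψ g hg fun i j a ha0 ha => (h a ha0).le

end main

end Pool.Agent.J6H47.TP
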