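import Pool.Agent.J6H47.TP.Pol
import Pool.Agent.J6H47.TP.Lat

/-!
# Groups of tame automorphisms which preserve the integral points
-/

set_option autoImplicit false

namespace Pool.Agent.J6H47.TP

open Polynomial SimpleGraph
open Pool.Agent.Y110.FJ (ClosedE)
open Pool.Agent.N509.TX (AcylF of_fg)
open Pool.Agent.J6H75.BT (GL2 IsDegree)

/-- all groups of matrices over the field of fractions with bounded denominators are in the
class -/
def LatC (C : ∀ (G : Type) [Group G], Prop) (A : Type) [CommRing A] [IsDomain A] : Prop :=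
  ∀ (f : A), f ≠ 0 → ∀ L : Subgroup (GL2 (FractionRing A)),
    (∀ g ∈ L, ∀ i j, ∃ a : A, algebraMap A (FractionRing A) f * g.val i j =
      algebraMap A (FractionRing A) a) → C L

variable {C : ∀ (G : Type) [Group G], Prop} {A : Type} [CommRing A] [IsDomain A] [CharZero A]

instance : CharZero (FractionRing A) :=
  charZero_of_injective_algebraMap (IsFractionRing.injective A (FractionRing A))

theorem C_sub (hC : ClosedE C) (hM : ∀ (G : Type) [Group G], derivedSeries G 2 = ⊥ → C G)
    (hA : AcylF C) (hlat : LatC C A) (S : Subring (FractionRing A)) {n : ℕ}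
    (hn : ∀ U : Finset S, (∀ u ∈ U, ∃ N : ℕ, 0 < N ∧ u ^ N = 1) → U.card ≤ n)
    (H : Subgroup (GP S)) (hH : Group.FG H)
    (hPr : ∀ g ∈ H, Pr A (g : Equiv.Perm ((FractionRing A)[X] × (FractionRing A)[X]))) : C H := by
  have : Infinite A := Infinite.of_injective _ (Nat.cast_injective (R := A))
  refine hA H (CV (GA S) (GE S)) (CG (GA S) (GE S)) hH tree ?_ ?_ ⟨8, n, ?_⟩ ?_
  · intro g u v h
    exact adj_smul (g : GP S) u v h
  · rintro g u v h ⟨h1, -⟩
    rcases cases_cv u with ⟨x, rfl⟩ | ⟨x, rfl⟩
    · obtain ⟨z, _, rfl⟩ := adj_va h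
      exact va_ne_ve _ _ h1
    · obtain ⟨z, _, rfl⟩ := adj_ve h
      exact va_ne_ve _ _ h1.symm
  · intro u v p hp hlen F hF
    have h1 := acyl hn u v p hp hlen (F.map (Function.Embedding.subtype _)) (by
      intro g hg x hx
      obtain ⟨g', hg', rfl⟩ := Finset.mem_map.1 hg
      exact hF g' hg' x hx)
    rwa [Finset.card_map] at h1
  · intro v
    have conj : ∀ (K : Subgroup (GP S)) (z : GP S),
        (∀ g : GP S, g • v = v → z⁻¹ * g * z ∈ K) →
        ∃ f : ↥(MulAction.stabilizer H v) →* K, Function.Injective f ∧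
          ∀ g, (f g : GP S) = z⁻¹ * ((g : H) : GP S) * z := by
      intro K z h
      refine ⟨{ toFun := fun g => ⟨z⁻¹ * ((g : H) : GP S) * z, h _ g.2⟩
                map_one' := Subtype.ext (by simp)
                map_mul' := fun g g' => Subtype.ext (by simp [mul_assoc]) }, ?_, fun g => rfl⟩
      intro g g' hgg
      have h1 : z⁻¹ * ((g : H) : GP S) * z = z⁻¹ * ((g' : H) : GP S) * z :=
        congrArg Subtype.val hgg
      have h2 := mul_left_cancel (mul_right_cancel h1)
      exact Subtype.ext (Subtype.ext h2)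
    rcases cases_cv v with ⟨z, rfl⟩ | ⟨z, rfl⟩
    · obtain ⟨f, hf, hfz⟩ := conj (GA S) z fun g hg => fix_va hg
      obtain ⟨i, hi⟩ : ∃ i : GA S →* AffP S (FractionRing A)[X], ∀ g,
          (i g : Equiv.Perm ((FractionRing A)[X] × (FractionRing A)[X])) = (g : GP S) :=
        ⟨{ toFun := fun g => ⟨_, mem_GA.1 g.2⟩, map_one' := rfl, map_mul' := fun _ _ => rfl },
          fun _ => rfl⟩
      have hiinj : Function.Injective i := by
        intro x y hxy
        have h1 := congrArg Subtype.val hxy
        rw [hi, hi] at h1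
        exact Subtype.ext (Subtype.ext h1)
      obtain ⟨π, hπ⟩ : ∃ π : ↥(MulAction.stabilizer H (va (GA S) (GE S) z)) →*
          GL2 (FractionRing A), π = ((piA S).toHomUnits.comp i).comp f := ⟨_, rfl⟩
      have hπv : ∀ g, (π g).val = piA S (i (f g)) := by
        intro g
        rw [hπ]
        rfl
      refine Pool.Agent.J6H95.FJ.ab_hom hC hM π.rangeRestrict ?_ ?_
      · intro x y hx hy
        have hx' : π x = 1 := congrArg Subtype.val hx
        have hy' : π y = 1 := congrArg Subtype.val hy
        apply hf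
        apply hiinj
        rw [map_mul, map_mul, map_mul, map_mul]
        exact commA (by rw [← hπv, hx']; rfl) (by rw [← hπv, hy']; rfl)
      · obtain ⟨d, hd, hb⟩ := bound (A := A) (S := S)
          (z := (z : Equiv.Perm ((FractionRing A)[X] × (FractionRing A)[X]))) z.2
        refine hlat d hd π.range ?_
        rintro _ ⟨g, rfl⟩ j k
        have h1 : (π g).val = mA ((z : Equiv.Perm
            ((FractionRing A)[X] × (FractionRing A)[X]))⁻¹ * (((g : H) : GP S) : Equiv.Perm
            ((FractionRing A)[X] × (FractionRing A)[X])) * (z : Equiv.Perm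
            ((FractionRing A)[X] × (FractionRing A)[X]))) := by
          rw [hπv]
          show mA _ = _
          rw [hi, hfz]
          rfl
        rw [h1]
        refine hb _ (hPr _ (g : H).2) ?_ j k
        have h2 := mem_GA.1 (f g).2
        rw [hfz] at h2
        exact h2
    · obtain ⟨f, hf, -⟩ := conj (GE S) z fun g hg => fix_ve hg
      have hGE : C (GE S) := Pool.Agent.R941.FJ.C_equiv hC.base
        (Subgroup.subgroupOfEquivOfLe le_sup_right) (C_tri' hC hM S)
      exact hC.base.of_injective _ _ f hf hGE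

/-- **Groups which preserve the integral points.** -/
theorem C_int (hC : ClosedE C) (hM : ∀ (G : Type) [Group G], derivedSeries G 2 = ⊥ → C G)
    (hA : AcylF C) (hlat : LatC C A) (G : Type) [Group G]
    (ρ : G →* Equiv.Perm ((FractionRing A)[X] × (FractionRing A)[X])) (hρ : Function.Injective ρ)
    (hGP : ∀ g, ρ g ∈ GP (⊤ : Subring (FractionRing A))) (hPr : ∀ g, Pr A (ρ g)) : C G := by
  classical
  refine of_fg hC fun H hH => ?_
  obtain ⟨s, hs⟩ := hH.out
  choose t ht using fun h : H => exists_GP (R := FractionRing A) (hGP (h : G))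
  obtain ⟨T, hT⟩ : ∃ T : Finset (FractionRing A), ∀ h ∈ s, fsub (t h) ≤ fsub T :=
    ⟨s.biUnion t, fun h hh => fsub_mono (Finset.subset_biUnion_of_mem t hh)⟩
  have key : ∀ h : H, ρ (h : G) ∈ GP (fsub T) := by
    intro h
    have h1 : h ∈ Subgroup.closure (s : Set H) := by rw [hs]; trivial
    induction h1 using Subgroup.closure_induction with
    | mem x hx => exact GP_mono (hT x hx) (ht x)
    | one =>
      rw [Subgroup.coe_one, map_one]
      exact Subgroup.one_mem _
    | mul x y _ _ ihx ihy =>
      rw [Subgroup.coe_mul, map_mul]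
      exact Subgroup.mul_mem _ ihx ihy
    | inv x _ ihx =>
      rw [Subgroup.coe_inv, map_inv]
      exact Subgroup.inv_mem _ ihx
  obtain ⟨n, hn⟩ := roots_fsub T
  obtain ⟨f, hf⟩ : ∃ f : H →* GP (fsub T), ∀ h,
      (f h : Equiv.Perm ((FractionRing A)[X] × (FractionRing A)[X])) = ρ h :=
    ⟨{ toFun := fun h => ⟨_, key h⟩
       map_one' := Subtype.ext (by simp)
       map_mul' := fun x y => Subtype.ext (by simp) }, fun _ => rfl⟩
  have hfinj : Function.Injective f := by
    intro x y hxy
    have h1 := congrArg Subtype.val hxy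
    rw [hf, hf] at h1
    exact Subtype.ext (hρ h1)
  have hfg : Group.FG f.range := Group.fg_range f
  refine hC.base.of_injective _ _ f.rangeRestrict (fun x y hxy => hfinj (congrArg Subtype.val hxy))
    (C_sub hC hM hA hlat (fsub T) hn f.range hfg ?_)
  rintro _ ⟨h, rfl⟩
  rw [hf]
  exact hPr _

end Pool.Agent.J6H47.TP
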