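import Pool.Agent.H23R2.Lin

/-!
# Finitely generated domains of characteristic zero have finitely many roots of unity
-/

set_option autoImplicit false

namespace Pool.Agent.J6H47.TP

open Polynomial

/-- a root of unity which is killed by two maps to rings of different characteristics is one -/
theorem eq_one_of_maps {T K L : Type} [CommRing T] [IsDomain T] [CommRing K] [CommRing L]
    [Nontrivial K] [Nontrivial L] (f : T →+* K) (g : T →+* L) {p q : ℕ} (hp : p.Prime)
    (hq : q.Prime) (hpq : p ≠ q) (hK : (p : K) = 0) (hL : (q : L) = 0) {x : T} {N : ℕ}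
    (hN : 0 < N) (hx : x ^ N = 1) (h1 : f x = 1) (h2 : g x = 1) : x = 1 := by
  by_contra hne
  have hfin : IsOfFinOrder x := isOfFinOrder_iff_pow_eq_one.2 ⟨N, hN, hx⟩
  have hord : orderOf x ≠ 1 := fun h => hne (orderOf_eq_one_iff.1 h)
  obtain ⟨l, hl, hld⟩ := Nat.exists_prime_and_dvd hord
  obtain ⟨k, hk⟩ := hld
  have hk0 : k ≠ 0 := by
    rintro rfl
    exact absurd hk (by simpa using hfin.orderOf_pos.ne')
  have hy1 : x ^ k ≠ 1 := by
    intro h
    have h3 := Nat.le_of_dvd (Nat.pos_of_ne_zero hk0) (orderOf_dvd_of_pow_eq_one h)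
    rw [hk] at h3
    have h4 : 2 * k ≤ l * k := Nat.mul_le_mul_right _ hl.two_le
    omega
  have hyl : (x ^ k) ^ l = 1 := by
    rw [← pow_mul, mul_comm, ← hk, pow_orderOf_eq_one]
  have hsum : ∑ i ∈ Finset.range l, (x ^ k) ^ i = 0 := by
    have h3 := geom_sum_mul (x ^ k) l
    rw [hyl, sub_self] at h3
    exact (mul_eq_zero.1 h3).resolve_right (sub_ne_zero.2 hy1)
  have hKl : (l : K) = 0 := by
    have h3 := congrArg f hsum
    simpa [h1] using h3
  have hLl : (l : L) = 0 := by
    have h3 := congrArg g hsum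
    simpa [h2] using h3
  have key : ∀ {M : Type} [CommRing M] [Nontrivial M] {r : ℕ}, r.Prime → (r : M) = 0 →
      (l : M) = 0 → r = l := by
    intro M _ _ r hr h3 h4
    by_contra h5
    have h6 : Nat.Coprime r l := (Nat.coprime_primes hr hl).2 h5
    have h7 := Nat.isCoprime_iff_coprime.2 h6
    obtain ⟨a, b, hab⟩ := h7
    have h8 := congrArg (Int.cast : ℤ → M) hab
    push_cast at h8
    rw [h3, h4] at h8
    simp at h8
  exact hpq ((key hp hK hKl).trans (key hq hL hLl).symm)

/-- finitely generated domains of characteristic zero have finitely many roots of unity -/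
theorem finite_roots (T : Type) [CommRing T] [IsDomain T] [CharZero T] [Algebra.FiniteType ℤ T] :
    ∃ n : ℕ, ∀ U : Finset T, (∀ u ∈ U, ∃ N : ℕ, 0 < N ∧ u ^ N = 1) → U.card ≤ n := by
  classical
  obtain ⟨m, hm⟩ := Ideal.exists_maximal T
  obtain ⟨p, hp, hpm, hfin⟩ := Pool.Agent.H23R2.residue_finite T m
  have hp0 : (p : T) ≠ 0 := by exact_mod_cast hp.ne_zero
  let T' := Localization.Away (p : T)
  have hT' : IsDomain T' :=
    IsLocalization.isDomain_localization (powers_le_nonZeroDivisors_of_noZeroDivisors hp0)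
  have hft : @Algebra.FiniteType ℤ T' _ _ (Ring.toIntAlgebra T') := by
    have h1 : ∀ i : Algebra ℤ T', @Algebra.FiniteType ℤ T' _ _ i →
        @Algebra.FiniteType ℤ T' _ _ (Ring.toIntAlgebra T') := by
      intro i hi
      obtain rfl : i = Ring.toIntAlgebra T' := Subsingleton.elim _ _
      exact hi
    exact h1 _ (inferInstance : Algebra.FiniteType ℤ (Localization.Away (p : T)))
  obtain ⟨m', hm'⟩ := Ideal.exists_maximal T'
  obtain ⟨q, hq, hqm, hfin'⟩ := Pool.Agent.H23R2.residue_finite T' m'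
  have hpq : p ≠ q := by
    rintro rfl
    have h1 : IsUnit (algebraMap T T' (p : T)) :=
      IsLocalization.Away.algebraMap_isUnit (p : T)
    rw [map_natCast] at h1
    exact hm'.ne_top (Ideal.eq_top_of_isUnit_mem _ hqm h1)
  let f : T →+* T ⧸ m := Ideal.Quotient.mk m
  let g : T →+* T' ⧸ m' := (Ideal.Quotient.mk m').comp (algebraMap T T')
  refine ⟨Nat.card ((T ⧸ m) × (T' ⧸ m')), fun U hU => ?_⟩
  have hinj : Set.InjOn (fun u => (f u, g u)) (U : Set T) := by
    intro u hu v hv huv
    obtain ⟨N, hN, h1⟩ := hU u hu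
    obtain ⟨N', hN', h2⟩ := hU v hv
    have h3 : f u = f v := congrArg Prod.fst huv
    have h4 : g u = g v := congrArg Prod.snd huv
    obtain ⟨w, hw⟩ : ∃ w : T, v * w = 1 := ⟨v ^ (N' - 1), by
      rw [← pow_succ', Nat.sub_add_cancel hN', h2]⟩
    have hw' : w ^ (N' * N) = 1 := by
      have h5 : (v * w) ^ (N' * N) = 1 := by rw [hw, one_pow]
      rw [mul_pow, pow_mul v, h2, one_pow, one_mul] at h5
      exact h5
    have h6 : u * w = 1 := by
      refine eq_one_of_maps f g hp hq hpq ?_ ?_ (x := u * w) (N := N' * N) (by positivity) ?_ ?_ ?_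
      · rw [← map_natCast f]
        exact Ideal.Quotient.eq_zero_iff_mem.2 hpm
      · rw [← map_natCast (Ideal.Quotient.mk m')]
        exact Ideal.Quotient.eq_zero_iff_mem.2 hqm
      · rw [mul_pow, hw', mul_one, mul_comm, pow_mul, h1, one_pow]
      · rw [map_mul, h3, ← map_mul, hw, map_one]
      · rw [map_mul, h4, ← map_mul, hw, map_one]
    calc u = u * (v * w) := by rw [hw, mul_one]
      _ = v * (u * w) := by ring
      _ = v := by rw [h6, mul_one]
  have : Finite ((T ⧸ m) × (T' ⧸ m')) := inferInstance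
  have h1 : (U.image (fun u => (f u, g u))).card = U.card := Finset.card_image_of_injOn hinj
  rw [← h1, ← Set.ncard_coe_finset]
  have h2 := Set.ncard_le_ncard (Set.subset_univ ((U.image (fun u => (f u, g u)) : Finset _) :
    Set ((T ⧸ m) × (T' ⧸ m')))) (Set.toFinite _)
  rwa [Set.ncard_univ] at h2

end Pool.Agent.J6H47.TP
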