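import Pool.Agent.J6H47.TP.Vert
import Pool.Agent.J6H47.TP.Ru
import Pool.Agent.N509.TX.Fg

/-!
# The group generated by the affine and the triangular maps is in the class
-/

set_option autoImplicit false

namespace Pool.Agent.J6H47.TP

open Polynomial SimpleGraph
open Pool.Agent.Y110.FJ (ClosedE)
open Pool.Agent.N509.TX (AcylF of_fg)

section paths

variable {G : Type} [Group G] {A E : Subgroup G}

theorem adj_va {x : G} {v : CV A E} (h : (CG A E).Adj (va A E x) v) :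
    ∃ z, va A E x = va A E z ∧ v = ve A E z := by
  obtain ⟨z, ⟨h1, h2⟩ | ⟨_, h2⟩⟩ := h
  · exact ⟨z, h1, h2⟩
  · exact absurd h2 (va_ne_ve _ _)

theorem adj_ve {x : G} {v : CV A E} (h : (CG A E).Adj (ve A E x) v) :
    ∃ z, ve A E x = ve A E z ∧ v = va A E z := by
  obtain ⟨z, ⟨h1, _⟩ | ⟨h1, h2⟩⟩ := h
  · exact absurd h1.symm (va_ne_ve _ _)
  · exact ⟨z, h2, h1⟩

/-- a path of length three from a vertex of affine type -/
theorem side_path {x : G} {v1 v2 v3 : CV A E} (h1 : (CG A E).Adj (va A E x) v1)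
    (h2 : (CG A E).Adj v1 v2) (h3 : (CG A E).Adj v2 v3) (h02 : va A E x ≠ v2) (h13 : v1 ≠ v3) :
    ∃ z e a : G, va A E x = va A E z ∧ v1 = ve A E z ∧ e ∈ E ∧ e ∉ A ∧ a ∈ A ∧ a ∉ E ∧
      v2 = va A E (z * e) ∧ v3 = ve A E (z * e * a) := by
  obtain ⟨z, h4, rfl⟩ := adj_va h1
  obtain ⟨z2, h5, rfl⟩ := adj_ve h2
  obtain ⟨z3, h6, rfl⟩ := adj_va h3
  have e1 : z * (z⁻¹ * z2) = z2 := by group
  have e2 : z * (z⁻¹ * z2) * (z2⁻¹ * z3) = z3 := by group
  refine ⟨z, z⁻¹ * z2, z2⁻¹ * z3, h4, rfl, ve_eq.1 h5, ?_, va_eq.1 h6, ?_, ?_, ?_⟩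
  · intro h
    exact h02 (h4.trans (va_eq.2 h))
  · intro h
    exact h13 (h5.trans (ve_eq.2 h))
  · rw [e1]
  · rw [e2]

theorem fix_va {g z : G} (h : g • va A E z = va A E z) : z⁻¹ * g * z ∈ A := by
  rw [smul_va, va_eq] at h
  have := A.inv_mem h
  have h2 : ((g * z)⁻¹ * z)⁻¹ = z⁻¹ * g * z := by group
  rwa [h2] at this

theorem fix_ve {g z : G} (h : g • ve A E z = ve A E z) : z⁻¹ * g * z ∈ E := by
  rw [smul_ve, ve_eq] at h
  have := E.inv_mem h
  have h2 : ((g * z)⁻¹ * z)⁻¹ = z⁻¹ * g * z := by group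
  rwa [h2] at this

end paths

section main

variable {R : Type} [CommRing R] [IsDomain R] {S : Subring R}

omit [IsDomain R] in
theorem side_of {g z e a : GP S} (he : e ∈ GE S) (he' : e ∉ GA S) (ha : a ∈ GA S)
    (ha' : a ∉ GE S) (h0 : g • va (GA S) (GE S) z = va (GA S) (GE S) z)
    (h1 : g • ve (GA S) (GE S) z = ve (GA S) (GE S) z)
    (h2 : g • va (GA S) (GE S) (z * e) = va (GA S) (GE S) (z * e))
    (h3 : g • ve (GA S) (GE S) (z * e * a) = ve (GA S) (GE S) (z * e * a)) :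
    Side S ((z⁻¹ * g * z : GP S) : Equiv.Perm (R[X] × R[X])) e a := by
  refine ⟨mem_GA.1 (fix_va h0), mem_GE.1 (fix_ve h1), mem_GE.1 he, fun h => he' (mem_GA.2 h),
    mem_GA.1 ha, fun h => ha' (mem_GE.2 h), ?_, ?_⟩
  · have h4 := mem_GA.1 (fix_va h2)
    have h5 : (z * e)⁻¹ * g * (z * e) = e⁻¹ * (z⁻¹ * g * z) * e := by group
    rw [h5] at h4
    exact h4
  · have h4 := mem_GE.1 (fix_ve h3)
    have h5 : (z * e * a)⁻¹ * g * (z * e * a) = (e * a)⁻¹ * (z⁻¹ * g * z) * (e * a) := by group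
    rw [h5] at h4
    exact h4

theorem dl_mul {g h : Equiv.Perm (R[X] × R[X])} (hgA : g ∈ AffP S R[X]) (hgE : g ∈ TriP S R[X])
    (hhA : h ∈ AffP S R[X]) (hhE : h ∈ TriP S R[X]) : dl (g * h) = dl g * dl h ∧ dl g ≠ 0 := by
  obtain ⟨α, β, q, δ, c, i1, i2, i3⟩ := both_of hgA hgE
  obtain ⟨α', β', q', δ', c', j1, j2, j3⟩ := both_of hhA hhE
  obtain ⟨α2, β2, q2, δ2, c2, k1, k2, k3⟩ := both_of ((AffP S R[X]).mul_mem hgA hhA)
    ((TriP S R[X]).mul_mem hgE hhE)
  have b1 := bp_of i1 i2 i3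
  have b2 := bp_of j1 j2 j3
  have b3 := bp_of k1 k2 k3
  rw [dl_eq b1, dl_eq b2, dl_eq b3]
  refine ⟨?_, b1.2.1⟩
  have h1 : ∀ x y : R, (δ2 : R) * y + c2 = δ * (δ' * y + c') + c := by
    intro x y
    have h2 := b3.2.2 x y
    rw [Equiv.Perm.mul_apply, b2.2.2, b1.2.2] at h2
    exact (C_pair h2).2.symm
  have h2 := h1 0 0
  have h3 := h1 0 1
  linear_combination h3 - h2

/-- **Acylindricity.** -/
theorem acyl [CharZero R] {n : ℕ} (hn : ∀ U : Finset S, (∀ u ∈ U, ∃ N : ℕ, 0 < N ∧ u ^ N = 1) →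
    U.card ≤ n) (u v : CV (GA S) (GE S)) (p : (CG (GA S) (GE S)).Walk u v) (hp : p.IsPath)
    (hlen : 8 ≤ p.length) (F : Finset (GP S)) (hF : ∀ g ∈ F, ∀ x ∈ p.support, g • x = x) :
    F.card ≤ n := by
  classical
  have hadj : ∀ i, i < 8 → (CG (GA S) (GE S)).Adj (p.getVert i) (p.getVert (i + 1)) :=
    fun i hi => p.adj_getVert_succ (by omega)
  have hne : ∀ i j, i ≤ 8 → j ≤ 8 → i ≠ j → p.getVert i ≠ p.getVert j := by
    intro i j hi hj hij h
    exact hij (hp.getVert_injOn (by simp; omega) (by simp; omega) h)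
  obtain ⟨Fx, hFx⟩ : ∃ Fx : GP S → Prop, ∀ g, Fx g ↔ ∀ i, g • p.getVert i = p.getVert i :=
    ⟨_, fun g => Iff.rfl⟩
  have hfix : ∀ g, Fx g → ∀ i, g • p.getVert i = p.getVert i := fun g hg => (hFx g).1 hg
  have hFF : ∀ g ∈ F, Fx g := fun g hg => (hFx g).2 fun i => hF g hg _ (p.getVert_mem_support i)
  obtain ⟨m, hm3, hm4, x, hx⟩ : ∃ m, 3 ≤ m ∧ m ≤ 4 ∧ ∃ x, p.getVert m = va (GA S) (GE S) x := by
    rcases cases_cv (p.getVert 3) with ⟨x, hx⟩ | ⟨x, hx⟩
    · exact ⟨3, le_rfl, by norm_num, x, hx⟩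
    · have h1 := hadj 3 (by norm_num)
      rw [hx] at h1
      obtain ⟨z, _, h2⟩ := adj_ve h1
      exact ⟨4, by norm_num, le_rfl, z, h2⟩
  have a1 := hadj m (by omega)
  have a2 := hadj (m + 1) (by omega)
  have a3 := hadj (m + 2) (by omega)
  have a1' := (hadj (m - 1) (by omega)).symm
  have a2' := (hadj (m - 2) (by omega)).symm
  have a3' := (hadj (m - 3) (by omega)).symm
  rw [show m - 1 + 1 = m by omega] at a1'
  rw [show m - 2 + 1 = m - 1 by omega] at a2'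
  rw [show m - 3 + 1 = m - 2 by omega] at a3'
  have n1 := hne m (m + 2) (by omega) (by omega) (by omega)
  have n2 := hne (m + 1) (m + 3) (by omega) (by omega) (by omega)
  have n1' := hne m (m - 2) (by omega) (by omega) (by omega)
  have n2' := hne (m - 1) (m - 3) (by omega) (by omega) (by omega)
  have n3 := hne (m + 1) (m - 1) (by omega) (by omega) (by omega)
  have f0 := fun g hg => hfix g hg m
  rw [hx] at a1 a1' n1 n1' f0
  obtain ⟨z, e, a, b0, b1, b2, b3, b4, b5, b6, b7⟩ := side_path a1 a2 a3 n1 n2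
  obtain ⟨z', e', a', b0', b1', b2', b3', b4', b5', b6', b7'⟩ := side_path a1' a2' a3' n1' n2'
  obtain ⟨w, hw⟩ : ∃ w, w = z⁻¹ * z' := ⟨_, rfl⟩
  have hwA : w ∈ GA S := by
    rw [hw]
    exact va_eq.1 (b0.symm.trans b0')
  have hwE : w ∉ GE S := by
    rw [hw]
    intro h
    exact n3 (b1.trans ((ve_eq.2 h).trans b1'.symm))
  have hs : ∀ g, Fx g → Side S ((z⁻¹ * g * z : GP S) : Equiv.Perm (R[X] × R[X])) e a := by
    intro g hg
    refine side_of b2 b3 b4 b5 ?_ ?_ ?_ ?_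
    · rw [← b0]; exact f0 g hg
    · rw [← b1]; exact hfix g hg _
    · rw [← b6]; exact hfix g hg _
    · rw [← b7]; exact hfix g hg _
  have hs' : ∀ g, Fx g → Side S ((z'⁻¹ * g * z' : GP S) : Equiv.Perm (R[X] × R[X])) e' a' := by
    intro g hg
    refine side_of b2' b3' b4' b5' ?_ ?_ ?_ ?_
    · rw [← b0']; exact f0 g hg
    · rw [← b1']; exact hfix g hg _
    · rw [← b6']; exact hfix g hg _
    · rw [← b7']; exact hfix g hg _
  have key : ∀ g, Fx g → dl ((z⁻¹ * g * z : GP S) : Equiv.Perm (R[X] × R[X])) ∈ S ∧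
      (∃ N : ℕ, 0 < N ∧ dl ((z⁻¹ * g * z : GP S) : Equiv.Perm (R[X] × R[X])) ^ N = 1) ∧
      (dl ((z⁻¹ * g * z : GP S) : Equiv.Perm (R[X] × R[X])) = 1 → g = 1) := by
    intro g hg
    have h1 : (w : Equiv.Perm (R[X] × R[X]))⁻¹ *
        ((z⁻¹ * g * z : GP S) : Equiv.Perm (R[X] × R[X])) * w =
        ((z'⁻¹ * g * z' : GP S) : Equiv.Perm (R[X] × R[X])) := by
      have h2 : w⁻¹ * (z⁻¹ * g * z) * w = z'⁻¹ * g * z' := by rw [hw]; group
      rw [← h2]
      rfl
    have h3 := hs' g hg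
    rw [← h1] at h3
    obtain ⟨k1, k2, k3⟩ := fix_path (mem_GA.1 hwA) (fun h => hwE (mem_GE.2 h)) (hs g hg) h3
    refine ⟨k1, k2, fun h => ?_⟩
    have h4 : z⁻¹ * g * z = 1 := Subtype.ext (k3 h)
    have h5 : g = z * (z⁻¹ * g * z) * z⁻¹ := by group
    rw [h5, h4]
    group
  have hinj : ∀ g g', Fx g → Fx g' → dl ((z⁻¹ * g * z : GP S) : Equiv.Perm (R[X] × R[X])) =
      dl ((z⁻¹ * g' * z : GP S) : Equiv.Perm (R[X] × R[X])) → g = g' := by
    intro g g' hg hg' h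
    have h1 : Fx (g⁻¹ * g') := by
      rw [hFx]
      intro i
      rw [mul_smul, hfix g' hg', inv_smul_eq_iff, hfix g hg]
    have s1 := hs g hg
    have s2 := hs _ h1
    have h2 := dl_mul s1.1 s1.2.1 s2.1 s2.2.1
    have h3 : ((z⁻¹ * g * z : GP S) : Equiv.Perm (R[X] × R[X])) *
        ((z⁻¹ * (g⁻¹ * g') * z : GP S) : Equiv.Perm (R[X] × R[X])) =
        ((z⁻¹ * g' * z : GP S) : Equiv.Perm (R[X] × R[X])) := by
      have h4 : z⁻¹ * g * z * (z⁻¹ * (g⁻¹ * g') * z) = z⁻¹ * g' * z := by group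
      rw [← h4]
      rfl
    rw [h3, ← h] at h2
    have h5 : dl ((z⁻¹ * (g⁻¹ * g') * z : GP S) : Equiv.Perm (R[X] × R[X])) = 1 := by
      refine mul_left_cancel₀ h2.2 ?_
      rw [← h2.1, mul_one]
    exact (inv_mul_eq_one.1 ((key _ h1).2.2 h5))
  let φ : GP S → S := fun g =>
    if h : dl ((z⁻¹ * g * z : GP S) : Equiv.Perm (R[X] × R[X])) ∈ S then ⟨_, h⟩ else 1
  have hφ : ∀ g, Fx g → ((φ g : S) : R) =
      dl ((z⁻¹ * g * z : GP S) : Equiv.Perm (R[X] × R[X])) := by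
    intro g hg
    simp only [φ]
    rw [dif_pos (key g hg).1]
  have h1 : (F.image φ).card = F.card := by
    refine Finset.card_image_of_injOn fun g hg g' hg' h => ?_
    refine hinj g g' (hFF g hg) (hFF g' hg') ?_
    rw [← hφ g (hFF g hg), ← hφ g' (hFF g' hg'), h]
  rw [← h1]
  refine hn _ fun u hu => ?_
  obtain ⟨g, hg, rfl⟩ := Finset.mem_image.1 hu
  obtain ⟨N, hN, h2⟩ := (key g (hFF g hg)).2.1
  refine ⟨N, hN, Subtype.ext ?_⟩
  rw [SubmonoidClass.coe_pow, hφ g (hFF g hg), h2]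
  rfl

end main

section cls

variable {C : ∀ (G : Type) [Group G], Prop} {R : Type} [CommRing R] [IsDomain R] [CharZero R]

/-- finitely generated rings of coefficients -/
theorem C_GP (hC : ClosedE C) (hM : ∀ (G : Type) [Group G], derivedSeries G 2 = ⊥ → C G)
    (hA : AcylF C) (hGL : C (GL (Fin 2) R)) (S : Subring R) {n : ℕ}
    (hn : ∀ U : Finset S, (∀ u ∈ U, ∃ N : ℕ, 0 < N ∧ u ^ N = 1) → U.card ≤ n) : C (GP S) := by
  refine of_fg hC fun H hH => ?_
  refine hA H (CV (GA S) (GE S)) (CG (GA S) (GE S)) hH tree ?_ ?_ ⟨8, n, ?_⟩ ?_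
  · intro g u v h
    exact adj_smul (g : GP S) u v h
  · rintro g u v h ⟨h1, -⟩
    rcases cases_cv u with ⟨x, rfl⟩ | ⟨x, rfl⟩
    · obtain ⟨z, _, rfl⟩ := adj_va h
      exact va_ne_ve _ _ h1
    · obtain ⟨z, _, rfl⟩ := adj_ve h
      exact va_ne_ve _ _ h1.symm
  · intro u v p hp hlen F hF
    have h1 := acyl hn u v p hp hlen (F.map (Function.Embedding.subtype _)) (by
      intro g hg x hx
      obtain ⟨g', hg', rfl⟩ := Finset.mem_map.1 hg
      exact hF g' hg' x hx)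
    rwa [Finset.card_map] at h1
  · intro v
    have key : ∀ (K : Subgroup (GP S)) (z : GP S), C K →
        (∀ g : GP S, g • v = v → z⁻¹ * g * z ∈ K) → C ↥(MulAction.stabilizer H v) := by
      intro K z hK h
      let f : ↥(MulAction.stabilizer H v) →* K :=
        { toFun := fun g => ⟨z⁻¹ * ((g : H) : GP S) * z, h _ g.2⟩
          map_one' := Subtype.ext (by simp)
          map_mul' := fun g g' => Subtype.ext (by simp [mul_assoc]) }
      refine hC.base.of_injective _ _ f ?_ hK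
      intro g g' hgg
      have h1 : z⁻¹ * ((g : H) : GP S) * z = z⁻¹ * ((g' : H) : GP S) * z :=
        congrArg Subtype.val hgg
      have h2 := mul_left_cancel (mul_right_cancel h1)
      exact Subtype.ext (Subtype.ext h2)
    have hGA : C (GA S) := Pool.Agent.R941.FJ.C_equiv hC.base
      (Subgroup.subgroupOfEquivOfLe le_sup_left) (C_aff hC hM hGL S)
    have hGE : C (GE S) := Pool.Agent.R941.FJ.C_equiv hC.base
      (Subgroup.subgroupOfEquivOfLe le_sup_right) (C_tri hC hM hGL S)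
    rcases cases_cv v with ⟨z, rfl⟩ | ⟨z, rfl⟩
    · exact key (GA S) z hGA fun g hg => fix_va hg
    · exact key (GE S) z hGE fun g hg => fix_ve hg

/-- the subring generated by a finite set -/
def fsub (t : Finset R) : Subring R := (Algebra.adjoin ℤ (t : Set R)).toSubring

omit [IsDomain R] [CharZero R] in
theorem fsub_mono {t t' : Finset R} (h : t ⊆ t') : fsub t ≤ fsub t' := by
  intro x hx
  exact Algebra.adjoin_mono (by exact_mod_cast h) hx

omit [IsDomain R] [CharZero R] in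
theorem mem_fsub {t : Finset R} {x : R} (h : x ∈ t) : x ∈ fsub t :=
  Algebra.subset_adjoin (by exact_mod_cast h)

theorem roots_fsub (t : Finset R) : ∃ n : ℕ, ∀ U : Finset (fsub t),
    (∀ u ∈ U, ∃ N : ℕ, 0 < N ∧ u ^ N = 1) → U.card ≤ n := by
  have h1 : ∀ i : Algebra ℤ (fsub t), @Algebra.FiniteType ℤ (fsub t) _ _ i →
      @Algebra.FiniteType ℤ (fsub t) _ _ (Ring.toIntAlgebra (fsub t)) := by
    intro i hi
    obtain rfl : i = Ring.toIntAlgebra (fsub t) := Subsingleton.elim _ _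
    exact hi
  have h2 : Algebra.FiniteType ℤ (Algebra.adjoin ℤ (t : Set R)) :=
    (Subalgebra.fg_iff_finiteType _).1 (Subalgebra.fg_adjoin_finset t)
  have h3 := h1 _ h2
  exact finite_roots (fsub t)

omit [IsDomain R] [CharZero R] in
theorem aff_mono {S S' : Subring R} (h : S ≤ S') : AffP S R[X] ≤ AffP S' R[X] := by
  rintro g ⟨a, b, u, c, d, v, h1, h2⟩
  refine ⟨⟨a, h a.2⟩, ⟨b, h b.2⟩, ⟨u, h u.2⟩, ⟨c, h c.2⟩, ⟨d, h d.2⟩, ⟨v, h v.2⟩, ?_, fun F => ?_⟩
  · exact h1.map (Subring.inclusion h)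
  · rw [h2, afm_eq, afm_eq]

omit [IsDomain R] [CharZero R] in
theorem tri_mono {S S' : Subring R} (h : S ≤ S') : TriP S R[X] ≤ TriP S' R[X] := by
  rintro g ⟨a, b, c, p, ha, hb, h2⟩
  refine ⟨Subring.inclusion h a, Subring.inclusion h b, Subring.inclusion h c,
    p.map (Subring.inclusion h), ha.map _, hb.map _, fun F => ?_⟩
  rw [h2, trm_eq, trm_eq, Polynomial.map_map]
  rfl

omit [IsDomain R] [CharZero R] in
theorem GP_mono {S S' : Subring R} (h : S ≤ S') : GP S ≤ GP S' :=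
  sup_le_sup (aff_mono h) (tri_mono h)

omit [IsDomain R] [CharZero R] in
theorem exists_aff {g : Equiv.Perm (R[X] × R[X])} (hg : g ∈ AffP (⊤ : Subring R) R[X]) :
    ∃ t : Finset R, g ∈ AffP (fsub t) R[X] := by
  classical
  obtain ⟨a, b, u, c, d, v, h1, h2⟩ := hg
  obtain ⟨e, he⟩ := h1.exists_right_inv
  let t : Finset R := {(a : R), (b : R), (u : R), (c : R), (d : R), (v : R), (e : R)}
  have ha : (a : R) ∈ fsub t := mem_fsub (by simp [t])
  have hb : (b : R) ∈ fsub t := mem_fsub (by simp [t])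
  have hu : (u : R) ∈ fsub t := mem_fsub (by simp [t])
  have hc : (c : R) ∈ fsub t := mem_fsub (by simp [t])
  have hd : (d : R) ∈ fsub t := mem_fsub (by simp [t])
  have hv : (v : R) ∈ fsub t := mem_fsub (by simp [t])
  have hee : (e : R) ∈ fsub t := mem_fsub (by simp [t])
  refine ⟨t, ⟨a, ha⟩, ⟨b, hb⟩, ⟨u, hu⟩, ⟨c, hc⟩, ⟨d, hd⟩, ⟨v, hv⟩, ?_, fun F => ?_⟩
  · refine IsUnit.of_mul_eq_one ⟨e, hee⟩ (Subtype.ext ?_)
    have h3 := congrArg (Subtype.val) he
    push_cast at h3 ⊢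
    exact h3
  · rw [h2, afm_eq, afm_eq]

omit [IsDomain R] [CharZero R] in
theorem exists_tri {g : Equiv.Perm (R[X] × R[X])} (hg : g ∈ TriP (⊤ : Subring R) R[X]) :
    ∃ t : Finset R, g ∈ TriP (fsub t) R[X] := by
  classical
  obtain ⟨a, b, c, p, h1, h1', h2⟩ := hg
  obtain ⟨e, he⟩ := h1.exists_right_inv
  obtain ⟨e', he'⟩ := h1'.exists_right_inv
  let p' : R[X] := p.map (⊤ : Subring R).subtype
  let t : Finset R := {(a : R), (b : R), (c : R), (e : R), (e' : R)} ∪ p'.coeffs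
  have ha : (a : R) ∈ fsub t := mem_fsub (by simp [t])
  have hb : (b : R) ∈ fsub t := mem_fsub (by simp [t])
  have hc : (c : R) ∈ fsub t := mem_fsub (by simp [t])
  have hee : (e : R) ∈ fsub t := mem_fsub (by simp [t])
  have hee' : (e' : R) ∈ fsub t := mem_fsub (by simp [t])
  have hp : (p'.coeffs : Set R) ⊆ fsub t := by
    intro x hx
    exact mem_fsub (by
      simp only [t, Finset.mem_union]
      exact Or.inr hx)
  refine ⟨t, ⟨a, ha⟩, ⟨b, hb⟩, ⟨c, hc⟩, p'.toSubring (fsub t) hp, ?_, ?_, fun F => ?_⟩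
  · refine IsUnit.of_mul_eq_one ⟨e, hee⟩ (Subtype.ext ?_)
    have h3 := congrArg (Subtype.val) he
    push_cast at h3 ⊢
    exact h3
  · refine IsUnit.of_mul_eq_one ⟨e', hee'⟩ (Subtype.ext ?_)
    have h3 := congrArg (Subtype.val) he'
    push_cast at h3 ⊢
    exact h3
  · rw [h2, trm_eq, trm_eq, Polynomial.map_toSubring]

omit [IsDomain R] [CharZero R] in
theorem exists_GP {g : Equiv.Perm (R[X] × R[X])} (hg : g ∈ GP (⊤ : Subring R)) :
    ∃ t : Finset R, g ∈ GP (fsub t) := by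
  classical
  have hg' : g ∈ Subgroup.closure ((AffP (⊤ : Subring R) R[X] : Set (Equiv.Perm (R[X] × R[X]))) ∪
      TriP (⊤ : Subring R) R[X]) := by
    rw [← Subgroup.sup_eq_closure]
    exact hg
  induction hg' using Subgroup.closure_induction with
  | mem x hx =>
    rcases hx with hx | hx
    · obtain ⟨t, ht⟩ := exists_aff hx
      exact ⟨t, (le_sup_left : AffP (fsub t) R[X] ≤ GP (fsub t)) ht⟩
    · obtain ⟨t, ht⟩ := exists_tri hx
      exact ⟨t, (le_sup_right : TriP (fsub t) R[X] ≤ GP (fsub t)) ht⟩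
  | one => exact ⟨∅, Subgroup.one_mem _⟩
  | mul x y hx hy ihx ihy =>
    obtain ⟨t, ht⟩ := ihx (by rw [← Subgroup.sup_eq_closure] at hx; exact hx)
    obtain ⟨t', ht'⟩ := ihy (by rw [← Subgroup.sup_eq_closure] at hy; exact hy)
    exact ⟨t ∪ t', Subgroup.mul_mem _ (GP_mono (fsub_mono Finset.subset_union_left) ht)
      (GP_mono (fsub_mono Finset.subset_union_right) ht')⟩
  | inv x hx ihx =>
    obtain ⟨t, ht⟩ := ihx (by rw [← Subgroup.sup_eq_closure] at hx; exact hx)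
    exact ⟨t, Subgroup.inv_mem _ ht⟩

/-- **The group generated by the affine and the triangular maps.** -/
theorem C_main (hC : ClosedE C) (hM : ∀ (G : Type) [Group G], derivedSeries G 2 = ⊥ → C G)
    (hA : AcylF C) (hGL : C (GL (Fin 2) R)) : C (GP (⊤ : Subring R)) := by
  classical
  refine of_fg hC fun H hH => ?_
  obtain ⟨s, hs⟩ := hH.out
  choose t ht using fun h : H => exists_GP (R := R) (g := ((h : GP (⊤ : Subring R)) :
    Equiv.Perm (R[X] × R[X]))) (h : GP (⊤ : Subring R)).2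
  obtain ⟨T, hT⟩ : ∃ T : Finset R, ∀ h ∈ s, fsub (t h) ≤ fsub T :=
    ⟨s.biUnion t, fun h hh => fsub_mono (Finset.subset_biUnion_of_mem t hh)⟩
  have key : ∀ h : H, ((h : GP (⊤ : Subring R)) : Equiv.Perm (R[X] × R[X])) ∈ GP (fsub T) := by
    intro h
    have h1 : h ∈ Subgroup.closure (s : Set H) := by rw [hs]; trivial
    induction h1 using Subgroup.closure_induction with
    | mem x hx => exact GP_mono (hT x hx) (ht x)
    | one => exact Subgroup.one_mem _
    | mul x y _ _ ihx ihy => exact Subgroup.mul_mem _ ihx ihy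
    | inv x _ ihx => exact Subgroup.inv_mem _ ihx
  obtain ⟨n, hn⟩ := roots_fsub T
  let f : H →* GP (fsub T) :=
    { toFun := fun h => ⟨_, key h⟩
      map_one' := rfl
      map_mul' := fun _ _ => rfl }
  refine hC.base.of_injective _ _ f ?_ (C_GP hC hM hA hGL (fsub T) hn)
  intro x y hxy
  have h1 : (f x : Equiv.Perm (R[X] × R[X])) = f y := by rw [hxy]
  exact Subtype.ext (Subtype.ext h1)

end cls

end Pool.Agent.J6H47.TP
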