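import Pool.Agent.J6H47.TP.Int

/-!
# Automorphisms of the polynomial ring in two variables over a domain
-/

set_option autoImplicit false

namespace Pool.Agent.J6H47.TP

open Polynomial
open Pool.Agent.Y110.FJ (ClosedE)
open Pool.Agent.N509.TX (AcylF)

section ext

variable {A : Type} [CommRing A]

/-- polynomials over the field of fractions -/
noncomputable def mp (p : MvPolynomial (Fin 2) A) : MvPolynomial (Fin 2) (FractionRing A) :=
  MvPolynomial.map (algebraMap A (FractionRing A)) p

/-- extension of the scalars -/
noncomputable def extHom (φ : Aut2 A) :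
    MvPolynomial (Fin 2) (FractionRing A) →ₐ[FractionRing A] MvPolynomial (Fin 2) (FractionRing A) :=
  MvPolynomial.aeval fun i => mp (φ (MvPolynomial.X i))

theorem extHom_X (φ : Aut2 A) (i : Fin 2) :
    extHom φ (MvPolynomial.X i) = mp (φ (MvPolynomial.X i)) := by
  simp [extHom]

theorem extHom_mp (φ : Aut2 A) (p : MvPolynomial (Fin 2) A) : extHom φ (mp p) = mp (φ p) := by
  have h : ((extHom φ : MvPolynomial (Fin 2) (FractionRing A) →+* _)).comp
      (MvPolynomial.map (algebraMap A (FractionRing A))) =
      (MvPolynomial.map (algebraMap A (FractionRing A))).comp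
        (φ : MvPolynomial (Fin 2) A →+* MvPolynomial (Fin 2) A) := by
    refine MvPolynomial.ringHom_ext (fun r => ?_) fun i => ?_
    · have h1 : φ (MvPolynomial.C r) = MvPolynomial.C r := φ.commutes r
      simp [h1, extHom]
    · simp [extHom, mp]
  exact DFunLike.congr_fun h p

theorem extHom_comp (φ ψ : Aut2 A) (q : MvPolynomial (Fin 2) (FractionRing A)) :
    extHom φ (extHom ψ q) = extHom (φ * ψ) q := by
  have h : (extHom φ).comp (extHom ψ) = extHom (φ * ψ) := by
    refine MvPolynomial.algHom_ext fun i => ?_
    rw [AlgHom.comp_apply, extHom_X, extHom_X, extHom_mp]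
    rfl
  exact DFunLike.congr_fun h q

theorem extHom_one (q : MvPolynomial (Fin 2) (FractionRing A)) :
    extHom (1 : Aut2 A) q = q := by
  have h : extHom (1 : Aut2 A) = AlgHom.id _ _ := by
    refine MvPolynomial.algHom_ext fun i => ?_
    rw [extHom_X]
    simp [mp]
  rw [h]
  rfl

variable (A) in
/-- extension of the scalars to the field of fractions -/
noncomputable def ext : Aut2 A →* Aut2 (FractionRing A) where
  toFun φ := AlgEquiv.ofAlgHom (extHom φ) (extHom φ⁻¹)
    (AlgHom.ext fun q => by
      rw [AlgHom.comp_apply, extHom_comp, mul_inv_cancel, extHom_one]; rfl)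
    (AlgHom.ext fun q => by
      rw [AlgHom.comp_apply, extHom_comp, inv_mul_cancel, extHom_one]; rfl)
  map_one' := AlgEquiv.ext fun q => extHom_one q
  map_mul' φ ψ := AlgEquiv.ext fun q => (extHom_comp φ ψ q).symm

theorem ext_apply (φ : Aut2 A) (p : MvPolynomial (Fin 2) A) : ext A φ (mp p) = mp (φ p) :=
  extHom_mp φ p

theorem ext_X (φ : Aut2 A) (i : Fin 2) :
    ext A φ (MvPolynomial.X i) = mp (φ (MvPolynomial.X i)) := extHom_X φ i

theorem mp_inj : Function.Injective (mp (A := A)) :=
  MvPolynomial.map_injective _ (IsFractionRing.injective A (FractionRing A))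

theorem ext_inj : Function.Injective (ext A) := by
  intro φ ψ h
  have h1 : ∀ p, φ p = ψ p := by
    intro p
    apply mp_inj
    rw [← ext_apply, h, ext_apply]
  exact AlgEquiv.ext h1

variable [IsDomain A]

variable (A) in
/-- the automorphisms which are tame over the field of fractions -/
noncomputable def tameOver : Subgroup (Aut2 A) := (tame (FractionRing A)).comap (ext A)

omit [IsDomain A] in
theorem ev_mp (a b : A) (p : MvPolynomial (Fin 2) A) :
    MvPolynomial.eval ![algebraMap A (FractionRing A) a, algebraMap A (FractionRing A) b] (mp p) =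
      algebraMap A (FractionRing A) (MvPolynomial.eval ![a, b] p) := by
  have h : (MvPolynomial.eval ![algebraMap A (FractionRing A) a,
      algebraMap A (FractionRing A) b]).comp (MvPolynomial.map (algebraMap A (FractionRing A))) =
      (algebraMap A (FractionRing A)).comp (MvPolynomial.eval ![a, b]) := by
    refine MvPolynomial.ringHom_ext (fun r => by simp) fun i => ?_
    fin_cases i <;> simp
  exact DFunLike.congr_fun h p

theorem Pr_ext (φ : Aut2 A) : Pr A (Theta (FractionRing A) (ext A φ)) := by
  intro a b
  refine ⟨MvPolynomial.eval ![a, b] (φ⁻¹ (MvPolynomial.X 0)),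
    MvPolynomial.eval ![a, b] (φ⁻¹ (MvPolynomial.X 1)), ?_⟩
  rw [Theta_apply, ← map_inv]
  unfold act
  rw [ext_X, ext_X, ev_const, ev_const, ev_mp, ev_mp]

variable {C : ∀ (G : Type) [Group G], Prop} [CharZero A]

/-- **Automorphisms of `A[x, y]` which are tame over the field of fractions.** -/
theorem C_tameOver (hC : ClosedE C) (hM : ∀ (G : Type) [Group G], derivedSeries G 2 = ⊥ → C G)
    (hA : AcylF C) (hlat : LatC C A) : C (tameOver A) := by
  have : Infinite (FractionRing A) :=
    Infinite.of_injective _ (Nat.cast_injective (R := FractionRing A))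
  refine C_int hC hM hA hlat (tameOver A) (((Theta (FractionRing A)).comp (ext A)).comp
    (tameOver A).subtype) ?_ ?_ ?_
  · intro φ ψ h
    exact Subtype.ext (ext_inj (Theta_inj h))
  · intro φ
    exact Theta_tame φ.2
  · intro φ
    exact Pr_ext (φ : Aut2 A)

theorem C_all (hC : ClosedE C) (hM : ∀ (G : Type) [Group G], derivedSeries G 2 = ⊥ → C G)
    (hA : AcylF C) (hlat : LatC C A) (hJ : tame (FractionRing A) = ⊤) : C (Aut2 A) := by
  have h1 : tameOver A = ⊤ := by
    unfold tameOver
    rw [hJ, Subgroup.comap_top]
  have h2 := C_tameOver hC hM hA hlat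
  rw [h1] at h2
  exact Pool.Agent.R941.FJ.C_equiv hC.base Subgroup.topEquiv.symm h2

end ext

end Pool.Agent.J6H47.TP
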