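import Pool.Agent.J6H47.TP.Over

/-!
# Groups of matrices with bounded denominators over principal ideal domains
-/

set_option autoImplicit false

namespace Pool.Agent.J6H47.TP

open Pool.Agent.Y110.FJ (ClosedE)
open Pool.Agent.J6H75.BT (GL2 glMap glMap_val glMap_injective)

variable {C : ∀ (G : Type) [Group G], Prop} {A : Type} [CommRing A] [IsDomain A]

omit [IsDomain A] in
theorem of_conj_int (hC : ClosedE C) (hGL : C (GL2 A)) (L : Subgroup (GL2 (FractionRing A)))
    (W : GL2 (FractionRing A)) (h : ∀ g ∈ L, ∃ c : Matrix (Fin 2) (Fin 2) A,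
      (W⁻¹ * g * W).val = c.map (algebraMap A (FractionRing A))) : C L := by
  have hinj := IsFractionRing.injective A (FractionRing A)
  have hmap : Function.Injective fun c : Matrix (Fin 2) (Fin 2) A =>
      c.map (algebraMap A (FractionRing A)) := Matrix.map_injective hinj
  have key : ∀ g ∈ L, W⁻¹ * g * W ∈ (glMap (algebraMap A (FractionRing A))).range := by
    intro g hg
    obtain ⟨c, hc⟩ := h g hg
    obtain ⟨c', hc'⟩ := h g⁻¹ (L.inv_mem hg)
    have h1 : W⁻¹ * g⁻¹ * W = (W⁻¹ * g * W)⁻¹ := by group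
    rw [h1] at hc'
    refine ⟨⟨c, c', hmap ?_, hmap ?_⟩, ?_⟩
    · simp only
      rw [Matrix.map_mul, ← hc, ← hc', Units.mul_inv, Matrix.map_one _ (map_zero _) (map_one _)]
    · simp only
      rw [Matrix.map_mul, ← hc, ← hc', Units.inv_mul, Matrix.map_one _ (map_zero _) (map_one _)]
    · apply Units.ext
      exact hc.symm
  have hr : C (glMap (algebraMap A (FractionRing A))).range :=
    Pool.Agent.R941.FJ.C_equiv hC.base
      (MonoidHom.ofInjective (glMap_injective _ hinj)).symm hGL
  refine hC.base.of_injective _ _ ({ toFun := fun g => ⟨W⁻¹ * g * W, key g g.2⟩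
                                     map_one' := Subtype.ext (by simp)
                                     map_mul' := fun g g' => Subtype.ext (by simp [mul_assoc]) } :
    L →* (glMap (algebraMap A (FractionRing A))).range) ?_ hr
  intro g g' hgg
  have h1 : W⁻¹ * (g : GL2 (FractionRing A)) * W = W⁻¹ * (g' : GL2 (FractionRing A)) * W :=
    congrArg Subtype.val hgg
  exact Subtype.ext (mul_left_cancel (mul_right_cancel h1))

theorem latC_pid [IsPrincipalIdealRing A] (hC : ClosedE C) (hGL : C (GL2 A)) : LatC C A := by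
  classical
  intro f hf L hL
  have hinj := IsFractionRing.injective A (FractionRing A)
  have hf0 : algebraMap A (FractionRing A) f ≠ 0 := (map_ne_zero_iff _ hinj).2 hf
  -- the lattice
  obtain ⟨Λ, hΛ⟩ : ∃ Λ : Submodule A (Fin 2 → FractionRing A),
      Λ = Submodule.span A {v | ∃ g ∈ L, ∃ j, v = fun i => g.val i j} := ⟨_, rfl⟩
  let ψ : (Fin 2 → A) →ₗ[A] (Fin 2 → FractionRing A) :=
    { toFun := fun a i => (algebraMap A (FractionRing A) f)⁻¹ * algebraMap A (FractionRing A) (a i)
      map_add' := fun a b => by funext i; simp [mul_add]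
      map_smul' := fun r a => by funext i; simp [Algebra.smul_def]; ring }
  have hψ : ∀ a i, ψ a i = (algebraMap A (FractionRing A) f)⁻¹ *
      algebraMap A (FractionRing A) (a i) := fun a i => rfl
  have hψinj : Function.Injective ψ := by
    intro a b hab
    funext i
    apply hinj
    have h1 := congrFun hab i
    rw [hψ, hψ] at h1
    exact mul_left_cancel₀ (inv_ne_zero hf0) h1
  have hle : Λ ≤ LinearMap.range ψ := by
    rw [hΛ, Submodule.span_le]
    rintro _ ⟨g, hg, j, rfl⟩
    choose a ha using fun i => hL g hg i j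
    refine ⟨a, ?_⟩
    funext i
    rw [hψ, ← ha i, inv_mul_cancel_left₀ hf0]
  have hcol : ∀ g ∈ L, ∀ j, (fun i => g.val i j) ∈ Λ := by
    intro g hg j
    rw [hΛ]
    exact Submodule.subset_span ⟨g, hg, j, rfl⟩
  have hinv : ∀ g ∈ L, ∀ v ∈ Λ, g.val.mulVec v ∈ Λ := by
    intro g hg v hv
    have h1 : Λ ≤ Λ.comap ((Matrix.mulVecLin g.val).restrictScalars A) := by
      conv_lhs => rw [hΛ]
      rw [Submodule.span_le]
      rintro _ ⟨g', hg', j, rfl⟩
      have h2 := hcol (g * g') (L.mul_mem hg hg') j
      have h3 : (fun i => (g * g').val i j) = g.val.mulVec fun i => g'.val i j := by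
        funext i
        rw [Units.val_mul, Matrix.mul_apply]
        rfl
      rw [h3] at h2
      exact h2
    exact h1 hv
  -- the lattice is free of rank two
  obtain ⟨N, hN⟩ : ∃ N : Submodule A (Fin 2 → A), N = Λ.comap ψ := ⟨_, rfl⟩
  obtain ⟨n, ⟨b⟩⟩ := Submodule.nonempty_basis_of_pid (Pi.basisFun A (Fin 2)) N
  have h1 : Module.finrank A N = n := by
    rw [Module.finrank_eq_card_basis b, Fintype.card_fin]
  have h2 : Module.finrank A (Fin 2 → A) = 2 := by simp
  have hone : ∀ a : Fin 2 → A, f • a ∈ N := by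
    intro a
    rw [hN]
    show ψ (f • a) ∈ Λ
    have h3 : ψ (f • a) = a 0 • (fun i => (1 : GL2 (FractionRing A)).val i 0) +
        a 1 • (fun i => (1 : GL2 (FractionRing A)).val i 1) := by
      funext i
      rw [hψ]
      show (algebraMap A (FractionRing A) f)⁻¹ * algebraMap A (FractionRing A) (f * a i) =
        a 0 • (1 : GL2 (FractionRing A)).val i 0 + a 1 • (1 : GL2 (FractionRing A)).val i 1
      rw [map_mul, inv_mul_cancel_left₀ hf0, Units.val_one, Matrix.one_apply, Matrix.one_apply]
      fin_cases i <;> simp [Algebra.smul_def]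
    rw [h3]
    exact Λ.add_mem (Λ.smul_mem _ (hcol 1 L.one_mem 0)) (Λ.smul_mem _ (hcol 1 L.one_mem 1))
  obtain rfl : n = 2 := by
    apply le_antisymm
    · exact h1.symm.le.trans ((Submodule.finrank_le N).trans h2.le)
    · refine h2.symm.le.trans (le_trans (LinearMap.finrank_le_finrank_of_injective
        (f := (LinearMap.lsmul A (Fin 2 → A) f).codRestrict N hone) ?_) h1.le)
      intro a a' haa
      have h3 : f • a = f • a' := congrArg Subtype.val haa
      exact smul_right_injective _ hf h3
  -- the matrix of the basis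
  obtain ⟨W, hW⟩ : ∃ W : Matrix (Fin 2) (Fin 2) (FractionRing A),
      ∀ i j, W i j = ψ (b j : Fin 2 → A) i := ⟨Matrix.of fun i j => ψ (b j : Fin 2 → A) i,
        fun _ _ => rfl⟩
  have hrep : ∀ v ∈ Λ, ∃ c : Fin 2 → A, v = W.mulVec fun k => algebraMap A (FractionRing A) (c k) := by
    intro v hv
    obtain ⟨a, rfl⟩ := hle hv
    have haN : a ∈ N := by rw [hN]; exact hv
    refine ⟨fun k => b.repr ⟨a, haN⟩ k, ?_⟩
    have h3 := congrArg (fun x : N => ψ (x : Fin 2 → A)) (b.sum_repr ⟨a, haN⟩)
    simp only [Submodule.coe_sum, Submodule.coe_smul, map_sum, map_smul] at h3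
    rw [← h3]
    funext i
    rw [Finset.sum_apply]
    simp only [Matrix.mulVec, dotProduct, hW, Pi.smul_apply, Algebra.smul_def]
    exact Finset.sum_congr rfl fun k _ => mul_comm _ _
  have hwΛ : ∀ j, (fun i => W i j) ∈ Λ := by
    intro j
    have h3 : (fun i => W i j) = ψ (b j : Fin 2 → A) := by
      funext i
      exact hW i j
    rw [h3]
    have h5 : ∀ x ∈ N, ψ x ∈ Λ := by
      rw [hN]
      exact fun x hx => hx
    exact h5 _ (b j).2
  have hmat : ∀ M : Matrix (Fin 2) (Fin 2) (FractionRing A), (∀ j, (fun i => M i j) ∈ Λ) →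
      ∃ c : Matrix (Fin 2) (Fin 2) A, M = W * c.map (algebraMap A (FractionRing A)) := by
    intro M hM
    choose c hc using fun j => hrep _ (hM j)
    refine ⟨Matrix.of fun k j => c j k, ?_⟩
    ext i j
    have h3 := congrFun (hc j) i
    rw [Matrix.mul_apply]
    exact h3
  obtain ⟨d, hd⟩ := hmat 1 fun j => hcol 1 L.one_mem j
  have hd' := mul_eq_one_comm.1 hd.symm
  refine of_conj_int hC hGL L ⟨W, d.map (algebraMap A (FractionRing A)), hd.symm, hd'⟩ ?_
  intro g hg
  obtain ⟨c, hc⟩ := hmat (g.val * W) fun j => by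
    have h3 : (fun i => (g.val * W) i j) = g.val.mulVec fun i => W i j := by
      funext i
      rw [Matrix.mul_apply]
      rfl
    rw [h3]
    exact hinv g hg _ (hwΛ j)
  refine ⟨c, ?_⟩
  show d.map (algebraMap A (FractionRing A)) * g.val * W = _
  rw [mul_assoc, hc, ← mul_assoc, hd', one_mul]

end Pool.Agent.J6H47.TP
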