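import Pool.Agent.J6H47.TP.Coset

/-!
# Affine and triangular automorphisms of the plane

`P` is an `S`-algebra; the affine and the triangular automorphisms of the plane with coefficients in `S`
act on `P × P`.
-/

set_option autoImplicit false

namespace Pool.Agent.J6H47.TP

open Polynomial

section defs

variable (S P : Type) [CommRing S] [CommRing P] [Algebra S P]

/-- the affine map with the coefficients `a, b, u; c, d, v` -/
def afm {S P : Type} [CommRing S] [CommRing P] [Algebra S P] (a b u c d v : S) (F : P × P) : P × P :=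
  (a • F.1 + b • F.2 + algebraMap S P u, c • F.1 + d • F.2 + algebraMap S P v)

/-- the triangular map `(a x + p(y), b y + c)` -/
noncomputable def trm {S P : Type} [CommRing S] [CommRing P] [Algebra S P] (a b c : S) (p : S[X])
    (F : P × P) : P × P :=
  (a • F.1 + aeval F.2 p, b • F.2 + algebraMap S P c)

/-- the affine group -/
def AffP : Subgroup (Equiv.Perm (P × P)) where
  carrier := {g | ∃ a b u c d v : S, IsUnit (a * d - b * c) ∧ ∀ F, g F = afm a b u c d v F}
  one_mem' := ⟨1, 0, 0, 0, 1, 0, by simp, fun F => by simp [afm]⟩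
  mul_mem' := by
    rintro g h ⟨a, b, u, c, d, v, h1, h2⟩ ⟨a', b', u', c', d', v', h1', h2'⟩
    refine ⟨a * a' + b * c', a * b' + b * d', a * u' + b * v' + u, c * a' + d * c',
      c * b' + d * d', c * u' + d * v' + v, ?_, fun F => ?_⟩
    · have : (a * a' + b * c') * (c * b' + d * d') - (a * b' + b * d') * (c * a' + d * c') =
          (a * d - b * c) * (a' * d' - b' * c') := by ring
      rw [this]
      exact h1.mul h1'
    · rw [Equiv.Perm.mul_apply, h2', h2]
      simp only [afm, Algebra.smul_def, map_add, map_mul]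
      refine Prod.ext ?_ ?_ <;> ring
  inv_mem' := by
    rintro g ⟨a, b, u, c, d, v, ⟨e, he⟩, h2⟩
    have he' : (a * d - b * c) * (e⁻¹ : Sˣ) = 1 := by rw [← he]; simp
    refine ⟨d * (e⁻¹ : Sˣ), -b * (e⁻¹ : Sˣ), (b * v - d * u) * (e⁻¹ : Sˣ), -c * (e⁻¹ : Sˣ),
      a * (e⁻¹ : Sˣ), (c * u - a * v) * (e⁻¹ : Sˣ), ?_, fun F => ?_⟩
    · refine ⟨e⁻¹, ?_⟩
      have h3 : (d * (e⁻¹ : Sˣ)) * (a * (e⁻¹ : Sˣ)) - (-b * (e⁻¹ : Sˣ)) * (-c * (e⁻¹ : Sˣ)) =
          ((a * d - b * c) * (e⁻¹ : Sˣ)) * ((e⁻¹ : Sˣ) : S) := by ring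
      rw [h3, he', one_mul]
    · rw [Equiv.Perm.inv_eq_iff_eq, h2]
      obtain ⟨x, y⟩ := F
      generalize ((e⁻¹ : Sˣ) : S) = k at he'
      have h4 := congrArg (algebraMap S P) he'
      simp only [map_mul, map_sub, map_one] at h4
      simp only [afm, Algebra.smul_def, map_add, map_mul, map_sub, map_neg]
      refine Prod.ext ?_ ?_
      · simp only
        linear_combination (algebraMap S P u - x) * h4
      · simp only
        linear_combination (algebraMap S P v - y) * h4

/-- the triangular group -/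
noncomputable def TriP : Subgroup (Equiv.Perm (P × P)) where
  carrier := {g | ∃ (a b c : S) (p : S[X]), IsUnit a ∧ IsUnit b ∧ ∀ F, g F = trm a b c p F}
  one_mem' := ⟨1, 1, 0, 0, isUnit_one, isUnit_one, fun F => by simp [trm]⟩
  mul_mem' := by
    rintro g h ⟨a, b, c, p, ha, hb, h2⟩ ⟨a', b', c', p', ha', hb', h2'⟩
    refine ⟨a * a', b * b', b * c' + c, C a * p' + p.comp (C b' * X + C c'), ha.mul ha',
      hb.mul hb', fun F => ?_⟩
    rw [Equiv.Perm.mul_apply, h2', h2]
    simp only [trm, Algebra.smul_def, map_add, map_mul, aeval_C, aeval_comp, aeval_X]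
    refine Prod.ext ?_ ?_ <;> simp only [] <;> ring
  inv_mem' := by
    rintro g ⟨a, b, c, p, ⟨a, rfl⟩, ⟨b, rfl⟩, h2⟩
    refine ⟨(a⁻¹ : Sˣ), (b⁻¹ : Sˣ), -(b⁻¹ : Sˣ) * c,
      -(C ((a⁻¹ : Sˣ) : S) * p.comp (C ((b⁻¹ : Sˣ) : S) * (X - C c))), ⟨_, rfl⟩, ⟨_, rfl⟩,
      fun F => ?_⟩
    have ha : (a : S) * ((a⁻¹ : Sˣ) : S) = 1 := a.mul_inv
    have hb : (b : S) * ((b⁻¹ : Sˣ) : S) = 1 := b.mul_inv
    rw [Equiv.Perm.inv_eq_iff_eq, h2]
    obtain ⟨x, y⟩ := F
    generalize ((a⁻¹ : Sˣ) : S) = k at ha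
    generalize ((b⁻¹ : Sˣ) : S) = l at hb
    have h4 := congrArg (algebraMap S P) ha
    have h5 := congrArg (algebraMap S P) hb
    simp only [map_mul, map_one] at h4 h5
    simp only [trm, Algebra.smul_def, map_add, map_mul, map_neg, map_sub, aeval_C, aeval_comp,
      aeval_X]
    refine Prod.ext ?_ ?_
    · simp only
      have h6 : algebraMap S P l * y + -algebraMap S P l * algebraMap S P c =
          algebraMap S P l * (y - algebraMap S P c) := by ring
      rw [h6]
      linear_combination (-x + aeval (algebraMap S P l * (y - algebraMap S P c)) p) * h4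
    · simp only
      linear_combination (algebraMap S P c - y) * h5

end defs

end Pool.Agent.J6H47.TP
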