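import Pool.Agent.J6H47.TP.Vert
import Pool.Agent.N509.TK.Fin

/-!
# The triangular group is in the class, without a condition on the ring
-/

set_option autoImplicit false

namespace Pool.Agent.J6H47.TP

open Polynomial
open scoped commutatorElement
open Pool.Agent.Y110.FJ (ClosedE)

variable {R : Type} [CommRing R]

/-- the diagonal coefficients of a triangular map -/
noncomputable def piD (S : Subring R) : TriP S R[X] →* R × R where
  toFun g := (mE1 (g : Equiv.Perm (R[X] × R[X])) 0 0, mE2 (g : Equiv.Perm (R[X] × R[X])) 0 0)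
  map_one' := by
    have h : ∀ x y : R, ((1 : TriP S R[X]) : Equiv.Perm (R[X] × R[X])) (C x, C y) =
        (C (1 * x + (0 : R[X]).eval y), C (1 * y + 0)) := by
      intro x y
      simp
    rw [mE1_eq h, mE2_eq h]
    simp
  map_mul' := by
    rintro ⟨g, hg⟩ ⟨h, hh⟩
    obtain ⟨a, b, c, p, -, h1⟩ := tri_const hg
    obtain ⟨a', b', c', p', -, h2⟩ := tri_const hh
    change (mE1 (g * h) 0 0, mE2 (g * h) 0 0) = (mE1 g 0 0, mE2 g 0 0) * (mE1 h 0 0, mE2 h 0 0)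
    rw [mE1_eq h1, mE1_eq h2, mE1_eq (tri_mul h1 h2), mE2_eq h1, mE2_eq h2, mE2_eq (tri_mul h1 h2)]
    simp

theorem tri_comm {S : Subring R} {x y : TriP S R[X]} (hx : piD S x = 1) (hy : piD S y = 1) :
    piE1 S (x * y) = piE1 S (y * x) ∧ piE2 S (x * y) = piE2 S (y * x) := by
  obtain ⟨g, hg⟩ := x
  obtain ⟨h, hh⟩ := y
  obtain ⟨a, b, c, p, -, h1⟩ := tri_const hg
  obtain ⟨a', b', c', p', -, h2⟩ := tri_const hh
  change (mE1 g 0 0, mE2 g 0 0) = (1, 1) at hx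
  change (mE1 h 0 0, mE2 h 0 0) = (1, 1) at hy
  rw [mE1_eq h1, mE2_eq h1, Prod.mk.injEq] at hx
  rw [mE1_eq h2, mE2_eq h2, Prod.mk.injEq] at hy
  obtain ⟨e1, e2⟩ := hx
  obtain ⟨f1, f2⟩ := hy
  simp at e1 e2 f1 f2
  subst e1 e2 f1 f2
  change mE1 (g * h) = mE1 (h * g) ∧ mE2 (g * h) = mE2 (h * g)
  rw [mE1_eq (tri_mul h1 h2), mE1_eq (tri_mul h2 h1), mE2_eq (tri_mul h1 h2),
    mE2_eq (tri_mul h2 h1)]
  refine ⟨rfl, ?_⟩
  simp [add_comm]

variable {C : ∀ (G : Type) [Group G], Prop}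

theorem C_tri' (hC : ClosedE C) (hM : ∀ (G : Type) [Group G], derivedSeries G 2 = ⊥ → C G)
    (S : Subring R) : C (TriP S R[X]) := by
  obtain ⟨π, hπ⟩ : ∃ π : TriP S R[X] →* (Matrix (Fin 2) (Fin 2) R)ˣ × (Matrix (Fin 2) (Fin 2) R)ˣ,
      π = (piE1 S).toHomUnits.prod (piE2 S).toHomUnits := ⟨_, rfl⟩
  have hπ1 : ∀ x, ((π x).1 : Matrix (Fin 2) (Fin 2) R) = piE1 S x := by
    intro x
    rw [hπ]
    rfl
  have hπ2 : ∀ x, ((π x).2 : Matrix (Fin 2) (Fin 2) R) = piE2 S x := by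
    intro x
    rw [hπ]
    rfl
  refine Pool.Agent.J6H95.FJ.ab_hom hC hM π.rangeRestrict ?_ (hM _
    (Pool.Agent.N509.TK.metab ((piD S).toHomUnits.ker.map π.rangeRestrict) ?_ ?_))
  · intro x y hx hy
    have hx' : π x = 1 := congrArg Subtype.val hx
    have hy' : π y = 1 := congrArg Subtype.val hy
    refine commE ⟨?_, ?_⟩ ⟨?_, ?_⟩
    · rw [← hπ1, hx']; rfl
    · rw [← hπ2, hx']; rfl
    · rw [← hπ1, hy']; rfl
    · rw [← hπ2, hy']; rfl
  · rintro _ ⟨x, hx, rfl⟩ _ ⟨y, hy, rfl⟩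
    rw [← map_mul, ← map_mul]
    have hx' : piD S x = 1 := congrArg Units.val hx
    have hy' : piD S y = 1 := congrArg Units.val hy
    obtain ⟨h1, h2⟩ := tri_comm hx' hy'
    refine Subtype.ext (Prod.ext (Units.ext ?_) (Units.ext ?_))
    · show ((π (x * y)).1 : Matrix (Fin 2) (Fin 2) R) = ((π (y * x)).1 : Matrix (Fin 2) (Fin 2) R)
      rw [hπ1, hπ1, h1]
    · show ((π (x * y)).2 : Matrix (Fin 2) (Fin 2) R) = ((π (y * x)).2 : Matrix (Fin 2) (Fin 2) R)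
      rw [hπ2, hπ2, h2]
  · intro x y
    obtain ⟨x, rfl⟩ := π.rangeRestrict_surjective x
    obtain ⟨y, rfl⟩ := π.rangeRestrict_surjective y
    rw [← map_commutatorElement]
    refine ⟨⁅x, y⁆, ?_, rfl⟩
    rw [SetLike.mem_coe, MonoidHom.mem_ker, map_commutatorElement]
    exact commutatorElement_eq_one_iff_mul_comm.2 (mul_comm _ _)

end Pool.Agent.J6H47.TP
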