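import Pool.Agent.J6H47.TP.Tame
import Pool.Agent.J6H47.TP.Tri

/-!
# Polynomial maps over the field of fractions which preserve the integral points
-/

set_option autoImplicit false

namespace Pool.Agent.J6H47.TP

open Polynomial

section poly

variable {R : Type} [CommRing R]

/-- the map is given by polynomials -/
def IsPoly (g : Equiv.Perm (R[X] × R[X])) : Prop :=
  ∃ f0 f1 : MvPolynomial (Fin 2) R, ∀ F, g F = (ev F f0, ev F f1)

theorem poly_mul {g h : Equiv.Perm (R[X] × R[X])} (hg : IsPoly g) (hh : IsPoly h) :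
    IsPoly (g * h) := by
  obtain ⟨f0, f1, h1⟩ := hg
  obtain ⟨k0, k1, h2⟩ := hh
  have h3 : ∀ F, ev (ev F k0, ev F k1) = (ev F).comp (MvPolynomial.bind₁ ![k0, k1]) := by
    intro F
    refine MvPolynomial.algHom_ext fun i => ?_
    fin_cases i <;> simp
  refine ⟨MvPolynomial.bind₁ ![k0, k1] f0, MvPolynomial.bind₁ ![k0, k1] f1, fun F => ?_⟩
  rw [Equiv.Perm.mul_apply, h2, h1, h3]
  rfl

theorem poly_aff {S : Subring R} {g : Equiv.Perm (R[X] × R[X])} (hg : g ∈ AffP S R[X]) :
    IsPoly g := by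
  obtain ⟨a, b, u, c, d, v, _, hg⟩ := hg
  refine ⟨MvPolynomial.C (a : R) * MvPolynomial.X 0 + MvPolynomial.C (b : R) * MvPolynomial.X 1 +
    MvPolynomial.C (u : R), MvPolynomial.C (c : R) * MvPolynomial.X 0 +
    MvPolynomial.C (d : R) * MvPolynomial.X 1 + MvPolynomial.C (v : R), fun F => ?_⟩
  rw [hg, afm_eq]
  simp only [map_add, map_mul, ev_C, ev_X0, ev_X1]

theorem poly_tri {S : Subring R} {g : Equiv.Perm (R[X] × R[X])} (hg : g ∈ TriP S R[X]) :
    IsPoly g := by
  obtain ⟨a, b, c, p, _, _, hg⟩ := hg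
  refine ⟨MvPolynomial.C (a : R) * MvPolynomial.X 0 +
    aeval (MvPolynomial.X 1) (p.map S.subtype), MvPolynomial.C (b : R) * MvPolynomial.X 1 +
    MvPolynomial.C (c : R), fun F => ?_⟩
  rw [hg, trm_eq]
  simp only [map_add, map_mul, ev_C, ev_X0, ev_X1]
  have h3 : ev F (aeval (MvPolynomial.X 1) (p.map S.subtype)) = (p.map S.subtype).comp F.2 := by
    have h4 := Polynomial.aeval_algHom_apply (ev F) (MvPolynomial.X 1) (p.map S.subtype)
    rw [← h4, ev_X1]
    rfl
  rw [h3]

theorem poly_GP {S : Subring R} {g : Equiv.Perm (R[X] × R[X])} (hg : g ∈ GP S) :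
    IsPoly g ∧ IsPoly g⁻¹ := by
  have hg' : g ∈ Subgroup.closure ((AffP S R[X] : Set (Equiv.Perm (R[X] × R[X]))) ∪
      TriP S R[X]) := by
    rw [← Subgroup.sup_eq_closure]
    exact hg
  induction hg' using Subgroup.closure_induction with
  | mem x hx =>
    rcases hx with hx | hx
    · exact ⟨poly_aff hx, poly_aff (Subgroup.inv_mem _ hx)⟩
    · exact ⟨poly_tri hx, poly_tri (Subgroup.inv_mem _ hx)⟩
  | one =>
    rw [inv_one, and_self]
    exact poly_aff (S := S) (Subgroup.one_mem _)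
  | mul x y hx hy ihx ihy =>
    have h1 := ihx (by rw [← Subgroup.sup_eq_closure] at hx; exact hx)
    have h2 := ihy (by rw [← Subgroup.sup_eq_closure] at hy; exact hy)
    exact ⟨poly_mul h1.1 h2.1, by rw [mul_inv_rev]; exact poly_mul h2.2 h1.2⟩
  | inv x hx ihx =>
    have h1 := ihx (by rw [← Subgroup.sup_eq_closure] at hx; exact hx)
    exact ⟨h1.2, by rw [inv_inv]; exact h1.1⟩

end poly

section frac

variable {A F : Type} [CommRing A] [IsDomain A] [Field F] [Algebra A F] [IsFractionRing A F]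

/-- common denominators -/
theorem denom (f : MvPolynomial (Fin 2) F) : ∃ N : A, N ≠ 0 ∧ ∀ a b : A, ∃ c : A,
    algebraMap A F N * MvPolynomial.eval ![algebraMap A F a, algebraMap A F b] f =
      algebraMap A F c := by
  induction f using MvPolynomial.induction_on with
  | C r =>
    obtain ⟨x, y, hy, h⟩ := IsFractionRing.div_surjective (A := A) r
    have hy0 : algebraMap A F y ≠ 0 :=
      (map_ne_zero_iff _ (IsFractionRing.injective A F)).2 (nonZeroDivisors.ne_zero hy)
    refine ⟨y, nonZeroDivisors.ne_zero hy, fun a b => ⟨x, ?_⟩⟩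
    rw [MvPolynomial.eval_C, ← h, mul_div_cancel₀ _ hy0]
  | add p q hp hq =>
    obtain ⟨N, hN, h1⟩ := hp
    obtain ⟨N', hN', h2⟩ := hq
    refine ⟨N * N', mul_ne_zero hN hN', fun a b => ?_⟩
    obtain ⟨c, hc⟩ := h1 a b
    obtain ⟨c', hc'⟩ := h2 a b
    refine ⟨N' * c + N * c', ?_⟩
    rw [map_add, map_add, map_mul, map_mul, map_mul, ← hc, ← hc']
    ring
  | mul_X p i hp =>
    obtain ⟨N, hN, h1⟩ := hp
    refine ⟨N, hN, fun a b => ?_⟩
    obtain ⟨c, hc⟩ := h1 a b
    refine ⟨c * ![a, b] i, ?_⟩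
    rw [map_mul, map_mul, ← hc, MvPolynomial.eval_X, mul_assoc]
    congr 2
    fin_cases i <;> rfl

omit [IsDomain A] in
/-- polynomials which vanish at the integral points -/
theorem vanish [Infinite A] (f : MvPolynomial (Fin 2) F)
    (h : ∀ a b : A, MvPolynomial.eval ![algebraMap A F a, algebraMap A F b] f = 0) : f = 0 := by
  refine MvPolynomial.funext_set (fun _ => Set.range (algebraMap A F))
    (fun _ => Set.infinite_range_of_injective (IsFractionRing.injective A F)) fun x hx => ?_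
  obtain ⟨a, ha⟩ := hx 0 trivial
  obtain ⟨b, hb⟩ := hx 1 trivial
  have h1 : x = ![algebraMap A F a, algebraMap A F b] := by
    funext i
    fin_cases i
    · exact ha.symm
    · exact hb.symm
  rw [h1, h, map_zero]

omit [IsDomain A] in
/-- integral points with independent images -/
theorem indep [Infinite A] {S : Subring F} {u : Equiv.Perm (F[X] × F[X])} (hu : u ∈ GP S) :
    ∃ f0 f1 : MvPolynomial (Fin 2) F, (∀ F, u F = (ev F f0, ev F f1)) ∧ ∃ a1 b1 a2 b2 : A,
      (MvPolynomial.eval ![algebraMap A F a1, algebraMap A F b1] f0 -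
        MvPolynomial.eval ![algebraMap A F 0, algebraMap A F 0] f0) *
      (MvPolynomial.eval ![algebraMap A F a2, algebraMap A F b2] f1 -
        MvPolynomial.eval ![algebraMap A F 0, algebraMap A F 0] f1) -
      (MvPolynomial.eval ![algebraMap A F a2, algebraMap A F b2] f0 -
        MvPolynomial.eval ![algebraMap A F 0, algebraMap A F 0] f0) *
      (MvPolynomial.eval ![algebraMap A F a1, algebraMap A F b1] f1 -
        MvPolynomial.eval ![algebraMap A F 0, algebraMap A F 0] f1) ≠ 0 := by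
  obtain ⟨⟨f0, f1, h1⟩, ⟨k0, k1, h2⟩⟩ := poly_GP hu
  refine ⟨f0, f1, h1, ?_⟩
  by_contra hcon
  push Not at hcon
  obtain ⟨p, hp⟩ : ∃ p, p = MvPolynomial.eval ![algebraMap A F 0, algebraMap A F 0] f0 := ⟨_, rfl⟩
  obtain ⟨q, hq⟩ : ∃ q, q = MvPolynomial.eval ![algebraMap A F 0, algebraMap A F 0] f1 := ⟨_, rfl⟩
  rw [← hp, ← hq] at hcon
  have s1 : ∀ (a1 b1 : A) (x y : F),
      (MvPolynomial.eval ![algebraMap A F a1, algebraMap A F b1] f0 - p) *
      (MvPolynomial.eval ![x, y] f1 - q) -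
      (MvPolynomial.eval ![x, y] f0 - p) *
      (MvPolynomial.eval ![algebraMap A F a1, algebraMap A F b1] f1 - q) = 0 := by
    intro a1 b1 x y
    have h3 := vanish (A := A) (MvPolynomial.C
      (MvPolynomial.eval ![algebraMap A F a1, algebraMap A F b1] f0 - p) *
      (f1 - MvPolynomial.C q) - (f0 - MvPolynomial.C p) * MvPolynomial.C
      (MvPolynomial.eval ![algebraMap A F a1, algebraMap A F b1] f1 - q)) (by
        intro a b
        simp only [map_sub, map_mul, MvPolynomial.eval_C]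
        exact hcon a1 b1 a b)
    have h4 := congrArg (MvPolynomial.eval ![x, y]) h3
    simp only [map_sub, map_mul, MvPolynomial.eval_C, map_zero] at h4
    exact h4
  have s2 : ∀ (x' y' x y : F),
      (MvPolynomial.eval ![x', y'] f0 - p) * (MvPolynomial.eval ![x, y] f1 - q) -
      (MvPolynomial.eval ![x, y] f0 - p) * (MvPolynomial.eval ![x', y'] f1 - q) = 0 := by
    intro x' y' x y
    have h3 := vanish (A := A) ((f0 - MvPolynomial.C p) * MvPolynomial.C
      (MvPolynomial.eval ![x, y] f1 - q) - MvPolynomial.C (MvPolynomial.eval ![x, y] f0 - p) *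
      (f1 - MvPolynomial.C q)) (by
        intro a b
        simp only [map_sub, map_mul, MvPolynomial.eval_C]
        exact s1 a b x y)
    have h4 := congrArg (MvPolynomial.eval ![x', y']) h3
    simp only [map_sub, map_mul, MvPolynomial.eval_C, map_zero] at h4
    exact h4
  have s3 : ∀ s t : F, ∃ x y : F, MvPolynomial.eval ![x, y] f0 = s ∧
      MvPolynomial.eval ![x, y] f1 = t := by
    intro s t
    have h3 := h2 (C s, C t)
    rw [ev_const, ev_const] at h3
    refine ⟨MvPolynomial.eval ![s, t] k0, MvPolynomial.eval ![s, t] k1, ?_⟩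
    have h4 := h1 (C (MvPolynomial.eval ![s, t] k0), C (MvPolynomial.eval ![s, t] k1))
    have h5 : u (u⁻¹ (C s, C t)) = (C s, C t) := by
      rw [← Equiv.Perm.mul_apply, mul_inv_cancel]
      rfl
    rw [ev_const, ev_const, ← h3, h5, Prod.mk.injEq, C_inj, C_inj] at h4
    exact ⟨h4.1.symm, h4.2.symm⟩
  obtain ⟨x, y, e1, e2⟩ := s3 (p + 1) q
  obtain ⟨x', y', e3, e4⟩ := s3 p (q + 1)
  have h5 := s2 x y x' y'
  rw [e1, e2, e3, e4] at h5
  simp at h5

/-- the map preserves the integral points -/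
def Pr (A : Type) {F : Type} [CommRing A] [Field F] [Algebra A F]
    (g : Equiv.Perm (F[X] × F[X])) : Prop :=
  ∀ a b : A, ∃ a' b' : A, g (C (algebraMap A F a), C (algebraMap A F b)) =
    (C (algebraMap A F a'), C (algebraMap A F b'))

/-- the linear parts have bounded denominators -/
theorem bound [Infinite A] {S : Subring F} {z : Equiv.Perm (F[X] × F[X])} (hz : z ∈ GP S) :
    ∃ f : A, f ≠ 0 ∧ ∀ g : Equiv.Perm (F[X] × F[X]), Pr A g → z⁻¹ * g * z ∈ AffP S F[X] →
      ∀ i j, ∃ a : A, algebraMap A F f * mA (z⁻¹ * g * z) i j = algebraMap A F a := by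
  have hinj := IsFractionRing.injective A F
  obtain ⟨f0, f1, hu, a1, b1, a2, b2, hne⟩ := indep (A := A) (Subgroup.inv_mem _ hz)
  obtain ⟨N0, hN0, d0⟩ := denom (A := A) f0
  obtain ⟨N1, hN1, d1⟩ := denom (A := A) f1
  obtain ⟨N, hN⟩ : ∃ N, N = N0 * N1 := ⟨_, rfl⟩
  have hN00 : N ≠ 0 := by rw [hN]; exact mul_ne_zero hN0 hN1
  have hNF : algebraMap A F N ≠ 0 := (map_ne_zero_iff _ hinj).2 hN00
  have D0 : ∀ a b : A, ∃ c : A, algebraMap A F N *
      MvPolynomial.eval ![algebraMap A F a, algebraMap A F b] f0 = algebraMap A F c := by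
    intro a b
    obtain ⟨c, hc⟩ := d0 a b
    refine ⟨N1 * c, ?_⟩
    rw [hN, map_mul, map_mul, ← hc]
    ring
  have D1 : ∀ a b : A, ∃ c : A, algebraMap A F N *
      MvPolynomial.eval ![algebraMap A F a, algebraMap A F b] f1 = algebraMap A F c := by
    intro a b
    obtain ⟨c, hc⟩ := d1 a b
    refine ⟨N0 * c, ?_⟩
    rw [hN, map_mul, map_mul, ← hc]
    ring
  obtain ⟨X0, hX0⟩ := D0 0 0
  obtain ⟨X1, hX1⟩ := D0 a1 b1
  obtain ⟨X2, hX2⟩ := D0 a2 b2
  obtain ⟨Y0, hY0⟩ := D1 0 0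
  obtain ⟨Y1, hY1⟩ := D1 a1 b1
  obtain ⟨Y2, hY2⟩ := D1 a2 b2
  refine ⟨(X1 - X0) * (Y2 - Y0) - (X2 - X0) * (Y1 - Y0), ?_, ?_⟩
  · rw [← map_ne_zero_iff (algebraMap A F) hinj]
    simp only [map_sub, map_mul]
    rw [← hX0, ← hX1, ← hX2, ← hY0, ← hY1, ← hY2]
    intro h
    have h3 := mul_ne_zero (mul_ne_zero hNF hNF) hne
    apply h3
    rw [← h]
    ring
  · intro g hg hA
    obtain ⟨a, b, p, c, d, q, -, h1⟩ := aff_const hA
    rw [mA_eq h1]
    have key : ∀ (s t : A), ∃ X' Y' : A,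
        algebraMap A F X' = algebraMap A F N * (a * MvPolynomial.eval
          ![algebraMap A F s, algebraMap A F t] f0 + b * MvPolynomial.eval
          ![algebraMap A F s, algebraMap A F t] f1 + p) ∧
        algebraMap A F Y' = algebraMap A F N * (c * MvPolynomial.eval
          ![algebraMap A F s, algebraMap A F t] f0 + d * MvPolynomial.eval
          ![algebraMap A F s, algebraMap A F t] f1 + q) := by
      intro s t
      obtain ⟨s', t', h2⟩ := hg s t
      have h3 : (z⁻¹ * g * z) (z⁻¹ (C (algebraMap A F s), C (algebraMap A F t))) =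
          z⁻¹ (g (C (algebraMap A F s), C (algebraMap A F t))) := by
        simp [Equiv.Perm.mul_apply]
      rw [h2, hu, hu, ev_const, ev_const, ev_const, ev_const, h1, Prod.mk.injEq, C_inj,
        C_inj] at h3
      obtain ⟨X', hX'⟩ := D0 s' t'
      obtain ⟨Y', hY'⟩ := D1 s' t'
      exact ⟨X', Y', by rw [h3.1, hX'], by rw [h3.2, hY']⟩
    obtain ⟨X0', Y0', e0, e0'⟩ := key 0 0
    obtain ⟨X1', Y1', e1, e1'⟩ := key a1 b1
    obtain ⟨X2', Y2', e2, e2'⟩ := key a2 b2
    intro i j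
    fin_cases i <;> fin_cases j
    · refine ⟨(X1' - X0') * (Y2 - Y0) - (X2' - X0') * (Y1 - Y0), ?_⟩
      show _ * a = _
      simp only [map_sub, map_mul]
      rw [e0, e1, e2, ← hX0, ← hX1, ← hX2, ← hY0, ← hY1, ← hY2]
      ring
    · refine ⟨(X1 - X0) * (X2' - X0') - (X2 - X0) * (X1' - X0'), ?_⟩
      show _ * b = _
      simp only [map_sub, map_mul]
      rw [e0, e1, e2, ← hX0, ← hX1, ← hX2, ← hY0, ← hY1, ← hY2]
      ring
    · refine ⟨(Y1' - Y0') * (Y2 - Y0) - (Y2' - Y0') * (Y1 - Y0), ?_⟩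
      show _ * c = _
      simp only [map_sub, map_mul]
      rw [e0', e1', e2', ← hX0, ← hX1, ← hX2, ← hY0, ← hY1, ← hY2]
      ring
    · refine ⟨(X1 - X0) * (Y2' - Y0') - (X2 - X0) * (Y1' - Y0'), ?_⟩
      show _ * d = _
      simp only [map_sub, map_mul]
      rw [e0', e1', e2', ← hX0, ← hX1, ← hX2, ← hY0, ← hY1, ← hY2]
      ring

end frac

end Pool.Agent.J6H47.TP
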