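import Pool.Agent.J6H47.TP.Main

/-!
# Tame automorphisms of the polynomial ring in two variables
-/

set_option autoImplicit false

namespace Pool.Agent.J6H47.TP

open Polynomial
open Pool.Agent.Y110.FJ (ClosedE)
open Pool.Agent.N509.TX (AcylF)

section aut

/-- the automorphisms of the polynomial ring in two variables -/
abbrev Aut2 (R : Type) [CommRing R] : Type := MvPolynomial (Fin 2) R ≃ₐ[R] MvPolynomial (Fin 2) R

/-- affine automorphisms -/
def IsAffine {R : Type} [CommRing R] (φ : Aut2 R) : Prop :=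
  ∃ (M : GL (Fin 2) R) (v : Fin 2 → R), ∀ i, φ (MvPolynomial.X i) =
    ∑ j, MvPolynomial.C (M.1 i j) * MvPolynomial.X j + MvPolynomial.C (v i)

/-- elementary automorphisms `(x + p(y), y)` -/
def IsElementary {R : Type} [CommRing R] (φ : Aut2 R) : Prop :=
  ∃ p : R[X], φ (MvPolynomial.X 0) = MvPolynomial.X 0 + aeval (MvPolynomial.X 1) p ∧
    φ (MvPolynomial.X 1) = MvPolynomial.X 1

/-- the group of the tame automorphisms -/
noncomputable def tame (R : Type) [CommRing R] : Subgroup (Aut2 R) :=
  Subgroup.closure {φ | IsAffine φ ∨ IsElementary φ}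

variable {R : Type} [CommRing R]

/-- evaluation at a curve -/
noncomputable def ev (F : R[X] × R[X]) : MvPolynomial (Fin 2) R →ₐ[R] R[X] :=
  MvPolynomial.aeval ![F.1, F.2]

@[simp] theorem ev_X0 (F : R[X] × R[X]) : ev F (MvPolynomial.X 0) = F.1 := by simp [ev]

@[simp] theorem ev_X1 (F : R[X] × R[X]) : ev F (MvPolynomial.X 1) = F.2 := by simp [ev]

@[simp] theorem ev_C (F : R[X] × R[X]) (r : R) : ev F (MvPolynomial.C r) = C r := by
  simp [ev]

/-- the action on the curves -/
noncomputable def act (φ : Aut2 R) (F : R[X] × R[X]) : R[X] × R[X] :=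
  (ev F (φ (MvPolynomial.X 0)), ev F (φ (MvPolynomial.X 1)))

theorem ev_act (φ : Aut2 R) (F : R[X] × R[X]) (p : MvPolynomial (Fin 2) R) :
    ev (act φ F) p = ev F (φ p) := by
  have h : ev (act φ F) = (ev F).comp φ.toAlgHom := by
    refine MvPolynomial.algHom_ext fun i => ?_
    fin_cases i <;> simp [act]
  rw [h]
  rfl

theorem act_mul (φ ψ : Aut2 R) (F : R[X] × R[X]) : act (φ * ψ) F = act ψ (act φ F) := by
  unfold act
  refine Prod.ext ?_ ?_
  · exact (ev_act φ F _).symm
  · exact (ev_act φ F _).symm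

theorem act_one (F : R[X] × R[X]) : act (1 : Aut2 R) F = F := by
  unfold act
  refine Prod.ext ?_ ?_ <;> simp

variable (R) in
/-- the action as a homomorphism -/
noncomputable def Theta : Aut2 R →* Equiv.Perm (R[X] × R[X]) where
  toFun φ := ⟨act φ⁻¹, act φ, fun F => by rw [← act_mul, inv_mul_cancel, act_one],
    fun F => by rw [← act_mul, mul_inv_cancel, act_one]⟩
  map_one' := by
    ext1 F
    show act (1 : Aut2 R)⁻¹ F = F
    rw [inv_one, act_one]
  map_mul' φ ψ := by
    ext1 F
    show act (φ * ψ)⁻¹ F = act φ⁻¹ (act ψ⁻¹ F)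
    rw [mul_inv_rev, act_mul]

theorem Theta_inv (φ : Aut2 R) (F : R[X] × R[X]) : (Theta R φ)⁻¹ F = act φ F := rfl

theorem Theta_apply (φ : Aut2 R) (F : R[X] × R[X]) : Theta R φ F = act φ⁻¹ F := rfl

theorem ev_const (x y : R) (p : MvPolynomial (Fin 2) R) :
    ev (C x, C y) p = C (MvPolynomial.eval ![x, y] p) := by
  have h : (ev (C x, C y)) = (Algebra.ofId R R[X]).comp (MvPolynomial.aeval ![x, y]) := by
    refine MvPolynomial.algHom_ext fun i => ?_
    fin_cases i <;> simp [ev, Algebra.ofId_apply]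
  rw [h]
  rfl

theorem Theta_inj [IsDomain R] [Infinite R] : Function.Injective (Theta R) := by
  rw [injective_iff_map_eq_one]
  intro φ hφ
  have h1 : ∀ F, act φ F = F := by
    intro F
    rw [← Theta_inv, hφ]
    rfl
  have h2 : ∀ i, φ (MvPolynomial.X i) = MvPolynomial.X i := by
    have h3 : ∀ x y : R, (MvPolynomial.eval ![x, y] (φ (MvPolynomial.X 0)) = x) ∧
        MvPolynomial.eval ![x, y] (φ (MvPolynomial.X 1)) = y := by
      intro x y
      have h4 := h1 (C x, C y)
      unfold act at h4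
      rw [ev_const, ev_const, Prod.mk.injEq, C_inj, C_inj] at h4
      exact h4
    intro i
    refine MvPolynomial.funext fun x => ?_
    have h4 : x = ![x 0, x 1] := by
      funext j
      fin_cases j <;> rfl
    rw [h4]
    have h5 := h3 (x 0) (x 1)
    fin_cases i
    · show MvPolynomial.eval ![x 0, x 1] (φ (MvPolynomial.X 0)) = _
      rw [h5.1]
      simp
    · show MvPolynomial.eval ![x 0, x 1] (φ (MvPolynomial.X 1)) = _
      rw [h5.2]
      simp
  have h3 : (φ : MvPolynomial (Fin 2) R →ₐ[R] MvPolynomial (Fin 2) R) =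
      ((1 : Aut2 R) : MvPolynomial (Fin 2) R →ₐ[R] MvPolynomial (Fin 2) R) := by
    refine MvPolynomial.algHom_ext fun i => ?_
    exact h2 i
  exact AlgEquiv.ext fun p => DFunLike.congr_fun h3 p

theorem Theta_tame {φ : Aut2 R} (hφ : φ ∈ tame R) : Theta R φ ∈ GP (⊤ : Subring R) := by
  have h : tame R ≤ (GP (⊤ : Subring R)).comap (Theta R) := by
    unfold tame
    rw [Subgroup.closure_le]
    rintro φ (⟨M, v, h⟩ | ⟨p, h0, h1⟩)
    · show Theta R φ ∈ GP (⊤ : Subring R)
      rw [← inv_mem_iff]
      refine (le_sup_left : AffP (⊤ : Subring R) R[X] ≤ _) ?_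
      refine ⟨⟨M.1 0 0, trivial⟩, ⟨M.1 0 1, trivial⟩, ⟨v 0, trivial⟩, ⟨M.1 1 0, trivial⟩,
        ⟨M.1 1 1, trivial⟩, ⟨v 1, trivial⟩, ?_, fun F => ?_⟩
      · have h2 := Matrix.isUnits_det_units M
        rw [Matrix.det_fin_two] at h2
        exact h2.map (Subring.topEquiv (R := R)).symm
      · rw [Theta_inv, afm_eq]
        unfold act
        rw [h, h, Fin.sum_univ_two, Fin.sum_univ_two]
        simp only [map_add, map_mul, ev_C, ev_X0, ev_X1]
    · show Theta R φ ∈ GP (⊤ : Subring R)
      rw [← inv_mem_iff]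
      refine (le_sup_right : TriP (⊤ : Subring R) R[X] ≤ _) ?_
      refine ⟨1, 1, 0, p.map ((Subring.topEquiv (R := R)).symm : R →+* (⊤ : Subring R)), isUnit_one,
        isUnit_one, fun F => ?_⟩
      rw [Theta_inv, trm_eq]
      unfold act
      rw [h0, h1, Polynomial.map_map]
      have h2 : ((⊤ : Subring R).subtype).comp
          ((Subring.topEquiv (R := R)).symm : R →+* (⊤ : Subring R)) = RingHom.id R := by
        ext x
        rfl
      rw [h2, Polynomial.map_id]
      refine Prod.ext ?_ ?_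
      · simp only [map_add, ev_X0]
        have h3 : ev F (aeval (MvPolynomial.X 1) p) = p.comp F.2 := by
          have h4 := Polynomial.aeval_algHom_apply (ev F) (MvPolynomial.X 1) p
          rw [← h4, ev_X1]
          rfl
        rw [h3]
        simp
      · simp
  exact h hφ

end aut

section cls

variable {C : ∀ (G : Type) [Group G], Prop} {R : Type} [CommRing R] [IsDomain R] [CharZero R]

/-- **Tame automorphism groups.** -/
theorem C_tame (hC : ClosedE C) (hM : ∀ (G : Type) [Group G], derivedSeries G 2 = ⊥ → C G)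
    (hA : AcylF C) (hGL : C (GL (Fin 2) R)) : C (tame R) := by
  have : Infinite R := Infinite.of_injective _ (Nat.cast_injective (R := R))
  let f : tame R →* GP (⊤ : Subring R) :=
    { toFun := fun φ => ⟨Theta R φ, Theta_tame φ.2⟩
      map_one' := Subtype.ext (map_one (Theta R))
      map_mul' := fun φ ψ => Subtype.ext (map_mul (Theta R) (φ : Aut2 R) (ψ : Aut2 R)) }
  refine hC.base.of_injective _ _ f ?_ (C_main hC hM hA hGL)
  intro φ ψ h
  exact Subtype.ext (Theta_inj (congrArg Subtype.val h))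

end cls

end Pool.Agent.J6H47.TP
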