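import Pool.Agent.J6H47.TP.Acyl
import Pool.Agent.J6H95.FJ.Ab

/-!
# The affine and the triangular group are in the class
-/

set_option autoImplicit false

namespace Pool.Agent.J6H47.TP

open Polynomial
open Pool.Agent.Y110.FJ (ClosedE)
open Pool.Agent.R941.FJ (C_equiv C_le)

section mats

variable {R : Type} [CommRing R] {S : Subring R}

theorem aff_const {g : Equiv.Perm (R[X] × R[X])} (hg : g ∈ AffP S R[X]) :
    ∃ a b u c d v : R, (∀ F : R[X] × R[X], g F = (C a * F.1 + C b * F.2 + C u,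
      C c * F.1 + C d * F.2 + C v)) ∧
      ∀ x y : R, g (C x, C y) = (C (a * x + b * y + u), C (c * x + d * y + v)) := by
  obtain ⟨a, b, u, c, d, v, _, hg⟩ := hg
  refine ⟨a, b, u, c, d, v, fun F => by rw [hg, afm_eq], fun x y => ?_⟩
  rw [hg, afm_eq]
  simp only [C_add, C_mul]

theorem tri_const {g : Equiv.Perm (R[X] × R[X])} (hg : g ∈ TriP S R[X]) :
    ∃ (a b c : R) (p : R[X]), (∀ F : R[X] × R[X], g F = (C a * F.1 + p.comp F.2,
      C b * F.2 + C c)) ∧
      ∀ x y : R, g (C x, C y) = (C (a * x + p.eval y), C (b * y + c)) := by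
  obtain ⟨a, b, c, p, _, _, hg⟩ := hg
  refine ⟨a, b, c, p.map S.subtype, fun F => by rw [hg, trm_eq], fun x y => ?_⟩
  rw [hg, trm_eq]
  simp only [C_add, C_mul, comp_C]

/-- the matrix of the linear part -/
noncomputable def mA (g : Equiv.Perm (R[X] × R[X])) : Matrix (Fin 2) (Fin 2) R :=
  !![((g (C 1, C 0)).1 - (g (C 0, C 0)).1).coeff 0, ((g (C 0, C 1)).1 - (g (C 0, C 0)).1).coeff 0;
    ((g (C 1, C 0)).2 - (g (C 0, C 0)).2).coeff 0, ((g (C 0, C 1)).2 - (g (C 0, C 0)).2).coeff 0]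

theorem mA_eq {g : Equiv.Perm (R[X] × R[X])} {a b u c d v : R}
    (hg : ∀ x y : R, g (C x, C y) = (C (a * x + b * y + u), C (c * x + d * y + v))) :
    mA g = !![a, b; c, d] := by
  unfold mA
  rw [hg, hg, hg]
  simp

variable (S) in
/-- the linear part -/
noncomputable def piA : AffP S R[X] →* Matrix (Fin 2) (Fin 2) R where
  toFun g := mA (g : Equiv.Perm (R[X] × R[X]))
  map_one' := by
    have h : ∀ x y : R, ((1 : AffP S R[X]) : Equiv.Perm (R[X] × R[X])) (C x, C y) =
        (C (1 * x + 0 * y + 0), C (0 * x + 1 * y + 0)) := by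
      intro x y
      simp
    rw [mA_eq h, Matrix.one_fin_two]
  map_mul' := by
    rintro ⟨g, hg⟩ ⟨h, hh⟩
    obtain ⟨a, b, u, c, d, v, -, h1⟩ := aff_const hg
    obtain ⟨a', b', u', c', d', v', -, h2⟩ := aff_const hh
    have h3 : ∀ x y : R, (g * h) (C x, C y) = (C ((a * a' + b * c') * x + (a * b' + b * d') * y +
        (a * u' + b * v' + u)), C ((c * a' + d * c') * x + (c * b' + d * d') * y +
        (c * u' + d * v' + v))) := by
      intro x y
      rw [Equiv.Perm.mul_apply, h2, h1]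
      refine Prod.ext ?_ ?_ <;> · simp only; congr 1; ring
    change mA (g * h) = mA g * mA h
    rw [mA_eq h1, mA_eq h2, mA_eq h3, Matrix.mul_fin_two]

theorem commA {x y : AffP S R[X]} (hx : piA S x = 1) (hy : piA S y = 1) : x * y = y * x := by
  obtain ⟨g, hg⟩ := x
  obtain ⟨h, hh⟩ := y
  obtain ⟨a, b, u, c, d, v, h1, h1'⟩ := aff_const hg
  obtain ⟨a', b', u', c', d', v', h2, h2'⟩ := aff_const hh
  change mA g = 1 at hx
  change mA h = 1 at hy
  rw [mA_eq h1', Matrix.one_fin_two] at hx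
  rw [mA_eq h2', Matrix.one_fin_two] at hy
  have e1 := congrFun (congrFun hx 0) 0
  have e2 := congrFun (congrFun hx 0) 1
  have e3 := congrFun (congrFun hx 1) 0
  have e4 := congrFun (congrFun hx 1) 1
  have f1 := congrFun (congrFun hy 0) 0
  have f2 := congrFun (congrFun hy 0) 1
  have f3 := congrFun (congrFun hy 1) 0
  have f4 := congrFun (congrFun hy 1) 1
  simp at e1 e2 e3 e4 f1 f2 f3 f4
  subst e1 e2 e3 e4 f1 f2 f3 f4
  refine Subtype.ext (Equiv.ext fun F => ?_)
  change g (h F) = h (g F)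
  rw [h1, h2, h2, h1]
  refine Prod.ext ?_ ?_ <;> · simp only [C_1, C_0]; ring

/-- two matrices for the triangular maps -/
noncomputable def mE1 (g : Equiv.Perm (R[X] × R[X])) : Matrix (Fin 2) (Fin 2) R :=
  !![((g (C 1, C 0)).1 - (g (C 0, C 0)).1).coeff 0, 0; 0, 1]

/-- two matrices for the triangular maps -/
noncomputable def mE2 (g : Equiv.Perm (R[X] × R[X])) : Matrix (Fin 2) (Fin 2) R :=
  !![((g (C 0, C 1)).2 - (g (C 0, C 0)).2).coeff 0, (g (C 0, C 0)).2.coeff 0; 0, 1]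

theorem mE1_eq {g : Equiv.Perm (R[X] × R[X])} {a b c : R} {p : R[X]}
    (hg : ∀ x y : R, g (C x, C y) = (C (a * x + p.eval y), C (b * y + c))) :
    mE1 g = !![a, 0; 0, 1] := by
  unfold mE1
  rw [hg, hg]
  simp

theorem mE2_eq {g : Equiv.Perm (R[X] × R[X])} {a b c : R} {p : R[X]}
    (hg : ∀ x y : R, g (C x, C y) = (C (a * x + p.eval y), C (b * y + c))) :
    mE2 g = !![b, c; 0, 1] := by
  unfold mE2
  rw [hg, hg]
  simp

theorem tri_mul {g h : Equiv.Perm (R[X] × R[X])} {a b c : R} {p : R[X]}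
    (hg : ∀ x y : R, g (C x, C y) = (C (a * x + p.eval y), C (b * y + c))) {a' b' c' : R}
    {p' : R[X]} (hh : ∀ x y : R, h (C x, C y) = (C (a' * x + p'.eval y), C (b' * y + c'))) :
    ∀ x y : R, (g * h) (C x, C y) = (C (a * a' * x + (C a * p' + p.comp (C b' * X + C c')).eval y),
      C (b * b' * y + (b * c' + c))) := by
  intro x y
  rw [Equiv.Perm.mul_apply, hh, hg]
  refine Prod.ext ?_ ?_
  · simp only [eval_add, eval_mul, eval_C, eval_comp, eval_X]
    congr 1
    ring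
  · simp only
    congr 1
    ring

variable (S) in
/-- the first matrix -/
noncomputable def piE1 : TriP S R[X] →* Matrix (Fin 2) (Fin 2) R where
  toFun g := mE1 (g : Equiv.Perm (R[X] × R[X]))
  map_one' := by
    have h : ∀ x y : R, ((1 : TriP S R[X]) : Equiv.Perm (R[X] × R[X])) (C x, C y) =
        (C (1 * x + (0 : R[X]).eval y), C (1 * y + 0)) := by
      intro x y
      simp
    rw [mE1_eq h, Matrix.one_fin_two]
  map_mul' := by
    rintro ⟨g, hg⟩ ⟨h, hh⟩
    obtain ⟨a, b, c, p, -, h1⟩ := tri_const hg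
    obtain ⟨a', b', c', p', -, h2⟩ := tri_const hh
    change mE1 (g * h) = mE1 g * mE1 h
    rw [mE1_eq h1, mE1_eq h2, mE1_eq (tri_mul h1 h2), Matrix.mul_fin_two]
    simp

variable (S) in
/-- the second matrix -/
noncomputable def piE2 : TriP S R[X] →* Matrix (Fin 2) (Fin 2) R where
  toFun g := mE2 (g : Equiv.Perm (R[X] × R[X]))
  map_one' := by
    have h : ∀ x y : R, ((1 : TriP S R[X]) : Equiv.Perm (R[X] × R[X])) (C x, C y) =
        (C (1 * x + (0 : R[X]).eval y), C (1 * y + 0)) := by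
      intro x y
      simp
    rw [mE2_eq h, Matrix.one_fin_two]
  map_mul' := by
    rintro ⟨g, hg⟩ ⟨h, hh⟩
    obtain ⟨a, b, c, p, -, h1⟩ := tri_const hg
    obtain ⟨a', b', c', p', -, h2⟩ := tri_const hh
    change mE2 (g * h) = mE2 g * mE2 h
    rw [mE2_eq h1, mE2_eq h2, mE2_eq (tri_mul h1 h2), Matrix.mul_fin_two]
    simp

theorem commE {x y : TriP S R[X]} (hx : piE1 S x = 1 ∧ piE2 S x = 1)
    (hy : piE1 S y = 1 ∧ piE2 S y = 1) : x * y = y * x := by
  obtain ⟨g, hg⟩ := x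
  obtain ⟨h, hh⟩ := y
  obtain ⟨a, b, c, p, h1, h1'⟩ := tri_const hg
  obtain ⟨a', b', c', p', h2, h2'⟩ := tri_const hh
  obtain ⟨hx1, hx2⟩ := hx
  obtain ⟨hy1, hy2⟩ := hy
  change mE1 g = 1 at hx1
  change mE2 g = 1 at hx2
  change mE1 h = 1 at hy1
  change mE2 h = 1 at hy2
  rw [mE1_eq h1', Matrix.one_fin_two] at hx1
  rw [mE2_eq h1', Matrix.one_fin_two] at hx2
  rw [mE1_eq h2', Matrix.one_fin_two] at hy1
  rw [mE2_eq h2', Matrix.one_fin_two] at hy2
  have e1 := congrFun (congrFun hx1 0) 0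
  have e2 := congrFun (congrFun hx2 0) 0
  have e3 := congrFun (congrFun hx2 0) 1
  have f1 := congrFun (congrFun hy1 0) 0
  have f2 := congrFun (congrFun hy2 0) 0
  have f3 := congrFun (congrFun hy2 0) 1
  simp at e1 e2 e3 f1 f2 f3
  subst e1 e2 e3 f1 f2 f3
  refine Subtype.ext (Equiv.ext fun F => ?_)
  change g (h F) = h (g F)
  rw [h1, h2, h2, h1]
  refine Prod.ext ?_ ?_
  · simp only [C_1, C_0, one_mul, add_zero]; ring
  · simp only [C_1, C_0, one_mul, add_zero]

end mats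

section cls

variable {C : ∀ (G : Type) [Group G], Prop} {R : Type} [CommRing R]

theorem C_aff (hC : ClosedE C) (hM : ∀ (G : Type) [Group G], derivedSeries G 2 = ⊥ → C G)
    (hGL : C (GL (Fin 2) R)) (S : Subring R) : C (AffP S R[X]) := by
  refine Pool.Agent.J6H95.FJ.ab_hom hC hM (piA S).toHomUnits ?_ hGL
  intro x y hx hy
  refine commA ?_ ?_
  · exact congrArg Units.val hx
  · exact congrArg Units.val hy

theorem C_tri (hC : ClosedE C) (hM : ∀ (G : Type) [Group G], derivedSeries G 2 = ⊥ → C G)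
    (hGL : C (GL (Fin 2) R)) (S : Subring R) : C (TriP S R[X]) := by
  refine Pool.Agent.J6H95.FJ.ab_hom hC hM ((piE1 S).toHomUnits.prod (piE2 S).toHomUnits) ?_
    (hC.base.prod _ _ hGL hGL)
  intro x y hx hy
  refine commE ⟨?_, ?_⟩ ⟨?_, ?_⟩
  · exact congrArg Units.val (congrArg Prod.fst hx)
  · exact congrArg Units.val (congrArg Prod.snd hx)
  · exact congrArg Units.val (congrArg Prod.fst hy)
  · exact congrArg Units.val (congrArg Prod.snd hy)

end cls

end Pool.Agent.J6H47.TP
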